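import Pool.Agent.Helper89.TQ.Ctx

set_option autoImplicit false
set_option linter.all false

namespace Pool.Agent.Helper28.TQ
open Pool.Agent.Helper89.TQ

theorem c0_11_11_33_k1 {n1 n2 n3 A1 A2 A3 B1 B2 B3 m11_1 m11_2 m11_3 m13_1 m13_2 m13_3 m22_1 m22_2 m22_3 m23_1 m23_2 m23_3 m33_1 m33_2 m33_3 : ℤ}
    (C : Ctx0 n1 n2 n3 A1 A2 A3 B1 B2 B3 m11_1 m11_2 m11_3 m13_1 m13_2 m13_3 m22_1 m22_2 m22_3 m23_1 m23_2 m23_3 m33_1 m33_2 m33_3)
    (e0 : 0 < B1)
    (e1 : 0 < A3)
    (s1 : 1 * A1 + 2 * B1 ≤ m11_1 + m11_1 + m33_1)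
    (s2 : 1 * A2 + 2 * B2 ≤ m11_2 + m11_2 + m33_2)
    (s3 : 1 * A3 + 2 * B3 ≤ m11_3 + m11_3 + m33_3) : False := by
  have h1 := C.a1
  have h2 := C.a2
  have h3 := C.a3
  have h4 := C.a4
  have h5 := C.a5
  have h8 := C.b2
  have h9 := C.b3
  have h11 := C.b5
  have h12 := C.o0
  have h13 := C.o1
  have h14 := C.o2
  have h17 := C.f11_0
  have h18 := C.f11_1
  have h19 := C.f11_2
  have h20 := C.f33_0
  have h21 := C.f33_1
  have h23 := C.f33_3
  have h24 := C.f33_4
  have h27 := C.f33_7
  have h29 := C.f13_0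
  have h32 := C.f13_3
  have h35 := C.f13_6
  have h36 := C.f13_7
  have kh25 : (-n2 - m33_1 + m33_2 ≤ 0 ∧ n2 + m33_1 - m33_2 ≤ 0) ∨ (-A3 + m33_2 ≤ -1 ∧ A3 - m33_2 ≤ 1) := by
    have q := C.f33_5
    clear * - q
    omega
  have kh28 : (-n3 - m33_2 + m33_3 ≤ 0 ∧ n3 + m33_2 - m33_3 ≤ 0) ∨ (-A3 + m33_3 ≤ -1 ∧ A3 - m33_3 ≤ 1) := by
    have q := C.f33_8
    clear * - q
    omega
  have kh31 : (-A1 + m13_1 ≤ -1 ∧ A1 - m13_1 ≤ 1) ∨ (-B3 + m13_1 ≤ -1 ∧ B3 - m13_1 ≤ 1) := by
    have q := C.f13_2
    clear * - q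
    omega
  have kh34 : (-n2 - m13_1 + m13_2 ≤ 0 ∧ n2 + m13_1 - m13_2 ≤ 0) ∨ (-B3 + m13_2 ≤ -1 ∧ B3 - m13_2 ≤ 1) := by
    have q := C.f13_5
    clear * - q
    omega
  have kh37 : (-n3 - m13_2 + m13_3 ≤ 0 ∧ n3 + m13_2 - m13_3 ≤ 0) ∨ (-B3 + m13_3 ≤ -1 ∧ B3 - m13_3 ≤ 1) := by
    have q := C.f13_8
    clear * - q
    omega
  have kh38 : (B1 ≤ 0) ∨ (A3 ≤ 0) ∨ (-2 * B1 + m11_1 + m33_1 ≤ -1) ∨ (-2 * B2 + m11_2 + m33_2 ≤ -1) ∨ (-2 * B3 + m11_3 + m33_3 ≤ -1) := by
    have q := C.p11_33B
    clear * - q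
    omega
  have kh39 : (B1 ≤ 0) ∨ (A3 ≤ 0) ∨ (-2 * A1 + m11_1 + m33_1 ≤ -1) ∨ (-2 * A2 + m11_2 + m33_2 ≤ -1) ∨ (-2 * A3 + m11_3 + m33_3 ≤ -1) := by
    have q := C.p11_33A
    clear * - q
    omega
  have kh41 : (A1 ≤ 0) ∨ (n2 + A1 - A2 ≤ 1) ∨ (-A2 + A3 ≤ 0) ∨ (n1 - B1 ≤ 0) ∨ (-B1 + B2 ≤ 1) ∨ (n3 + B2 - B3 ≤ 0) := by
    have q := C.tpmz
    clear * - q
    omega
  have kh42 : (B1 ≤ 0) ∨ (A1 ≤ 0) ∨ (B3 ≤ 0) ∨ (-2 * B1 + m11_1 + m13_1 ≤ -1) ∨ (-2 * B2 + m11_2 + m13_2 ≤ -1) ∨ (-2 * B3 + m11_3 + m13_3 ≤ -1) := by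
    have q := C.p11_13B
    clear * - q
    omega
  have kh43 : (n1 - A1 ≤ 0) ∨ (-A1 + A2 ≤ 1) ∨ (B1 ≤ 0) ∨ (n2 + B1 - B2 ≤ 1) := by
    have q := C.tmpp
    clear * - q
    omega
  have kh44 : (n1 - A1 ≤ 0) ∨ (-A1 + A2 ≤ 0) ∨ (-A2 + A3 ≤ 0) ∨ (B1 ≤ 0) ∨ (n2 + B1 - B2 ≤ 0) ∨ (n3 + B2 - B3 ≤ 0) := by
    have q := C.tmzp
    clear * - q
    omega
  clear C
  rcases kh31 with ⟨g1_0, g1_1⟩ | ⟨g1_0, g1_1⟩
  · rcases kh25 with ⟨g2_0, g2_1⟩ | ⟨g2_0, g2_1⟩
    · rcases kh28 with ⟨g3_0, g3_1⟩ | ⟨g3_0, g3_1⟩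
      · linarith only [g2_1, g3_1, h17, h27, h3, h5, s1]
      · rcases kh34 with ⟨g4_0, g4_1⟩ | ⟨g4_0, g4_1⟩
        · rcases kh37 with ⟨g5_0, g5_1⟩ | ⟨g5_0, g5_1⟩
          · linarith only [g1_1, g4_1, g5_1, h12, h17, h18, h19, h27, h36, s3]
          · rcases kh38 with g6_0 | g6_0 | g6_0 | g6_0 | g6_0
            · linarith only [e0, g6_0]
            · linarith only [e0, g6_0, h12, h2, h4]
            · linarith only [g6_0, h12, h17, s1]
            · linarith only [g2_1, g6_0, h12, h17, h18, h9, s1]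
            · rcases kh39 with g7_0 | g7_0 | g7_0 | g7_0 | g7_0
              · linarith only [e0, g7_0]
              · linarith only [e0, g2_1, g7_0, h13, h17, h24, h3, h8, s1]
              · rcases kh42 with g8_0 | g8_0 | g8_0 | g8_0 | g8_0 | g8_0
                · linarith only [e0, g8_0]
                · linarith only [e0, g7_0, g8_0, h17, s1]
                · linarith only [e0, g3_1, g6_0, g7_0, g8_0, h17, h2, h4, s1, s3]
                · linarith only [g1_1, g7_0, g8_0, s1]
                · linarith only [g1_1, g4_1, g7_0, g8_0, h18, h9, s1]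
                · linarith only [g5_1, g8_0, h27, s3]
              · rcases kh42 with g9_0 | g9_0 | g9_0 | g9_0 | g9_0 | g9_0
                · linarith only [e0, g9_0]
                · linarith only [e0, g2_1, g7_0, g9_0, h17, h18, h3, s1]
                · linarith only [e1, g3_1, g6_0, g9_0, s3]
                · linarith only [g1_1, g2_1, g7_0, g9_0, h18, h3, s1]
                · linarith only [g1_1, g4_1, g7_0, g9_0, h3, s2]
                · linarith only [g5_1, g9_0, h27, s3]
              · linarith only [g3_1, g6_0, g7_0, s3]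
        · linarith only [g2_1, g4_1, h14, h17, h24, h29, h32, s1]
    · rcases kh28 with ⟨g10_0, g10_1⟩ | ⟨g10_0, g10_1⟩
      · linarith only [g10_1, g2_1, h11, h13, h14, h27, h4]
      · rcases kh38 with g11_0 | g11_0 | g11_0 | g11_0 | g11_0
        · linarith only [e0, g11_0]
        · linarith only [e0, g11_0, h12, h2, h4]
        · linarith only [g11_0, h12, h17, s1]
        · linarith only [g11_0, g2_1, h13, h4, s2]
        · rcases kh37 with ⟨g12_0, g12_1⟩ | ⟨g12_0, g12_1⟩
          · rcases kh34 with ⟨g13_0, g13_1⟩ | ⟨g13_0, g13_1⟩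
            · linarith only [g12_1, g13_1, g1_1, h12, h17, h18, h19, h27, h36, s3]
            · linarith only [g10_1, g11_0, g12_1, g13_1, h11, h13, h19, h24, h36, h4, s2]
          · rcases kh43 with g14_0 | g14_0 | g14_0 | g14_0
            · linarith only [g14_0, h17, h20, s1]
            · rcases kh42 with g15_0 | g15_0 | g15_0 | g15_0 | g15_0 | g15_0
              · linarith only [e0, g15_0]
              · linarith only [e0, g15_0, h12]
              · linarith only [e0, g10_1, g11_0, g15_0, h12, h2, h4, s3]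
              · rcases kh39 with g16_0 | g16_0 | g16_0 | g16_0 | g16_0
                · linarith only [e0, g16_0]
                · linarith only [e0, g15_0, g16_0, g1_1, h12, h21, s1]
                · linarith only [g15_0, g16_0, g1_1, s1]
                · rcases kh44 with g17_0 | g17_0 | g17_0 | g17_0 | g17_0 | g17_0
                  · linarith only [g15_0, g17_0, g1_1, h12, h20, s1]
                  · linarith only [g15_0, g16_0, g17_0, g1_1, g2_1, h18, h21, h3, s1]
                  · linarith only [g14_0, g15_0, g17_0, g1_1, h12, h21, s1]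
                  · linarith only [e0, g17_0]
                  · linarith only [g14_0, g15_0, g16_0, g17_0, g1_1, g2_1, h21, h3, s1, s2]
                  · linarith only [g14_0, g15_0, g16_0, g17_0, g1_1, g2_1, h12, h19, h21, h27, h8, s1, s3]
                · linarith only [g10_1, g16_0, h14, s3]
              · rcases kh34 with ⟨g18_0, g18_1⟩ | ⟨g18_0, g18_1⟩
                · rcases kh39 with g19_0 | g19_0 | g19_0 | g19_0 | g19_0
                  · linarith only [e0, g19_0]
                  · linarith only [e0, g19_0, h12, h17, h21, s1]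
                  · linarith only [g15_0, g18_1, g19_0, g1_1, h18, h9, s1]
                  · linarith only [g15_0, g18_1, g19_0, g1_1, h3, s2]
                  · linarith only [g10_1, g19_0, h14, s3]
                · linarith only [g10_1, g11_0, g12_1, g15_0, g18_1, h13, h19, h24, h35, s2, s3]
              · linarith only [g12_1, g15_0, h27, s3]
            · linarith only [e0, g14_0]
            · rcases kh34 with ⟨g20_0, g20_1⟩ | ⟨g20_0, g20_1⟩
              · rcases kh39 with g21_0 | g21_0 | g21_0 | g21_0 | g21_0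
                · linarith only [e0, g21_0]
                · linarith only [e0, g21_0, h12, h2, h4]
                · rcases kh42 with g22_0 | g22_0 | g22_0 | g22_0 | g22_0 | g22_0
                  · linarith only [e0, g22_0]
                  · linarith only [e0, g14_0, g21_0, g22_0, g2_1, h13, h23, h4, s1]
                  · linarith only [e0, g10_1, g11_0, g21_0, g22_0, h17, h2, h4, s1, s3]
                  · linarith only [g1_1, g21_0, g22_0, s1]
                  · linarith only [g1_1, g20_1, g21_0, g22_0, h18, h9, s1]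
                  · linarith only [g12_1, g22_0, h27, s3]
                · rcases kh42 with g23_0 | g23_0 | g23_0 | g23_0 | g23_0 | g23_0
                  · linarith only [e0, g23_0]
                  · linarith only [e0, g23_0, h12]
                  · linarith only [e1, g10_1, g11_0, g23_0, s3]
                  · rcases kh44 with g24_0 | g24_0 | g24_0 | g24_0 | g24_0 | g24_0
                    · linarith only [g1_1, g23_0, g24_0, h12, h20, s1]
                    · linarith only [g1_1, g21_0, g23_0, g24_0, g2_1, h18, h21, h3, s1]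
                    · linarith only [g14_0, g1_1, g23_0, g24_0, h12, h18, h24, s2]
                    · linarith only [e0, g24_0]
                    · linarith only [g1_1, g21_0, g23_0, g24_0, h18, h3, s2]
                    · linarith only [g14_0, g1_1, g23_0, g24_0, h12, h18, h19, h27, s3]
                  · linarith only [g1_1, g20_1, g21_0, g23_0, h3, s2]
                  · linarith only [g12_1, g23_0, h27, s3]
                · linarith only [g10_1, g11_0, g21_0, s3]
              · rcases kh41 with g25_0 | g25_0 | g25_0 | g25_0 | g25_0 | g25_0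
                · linarith only [e0, g25_0, h12]
                · linarith only [g10_1, g11_0, g14_0, g20_1, g25_0, h17, h18, h24, h29, h32, s2, s3]
                · linarith only [g14_0, g25_0, h17, h18, h24, s2]
                · linarith only [g25_0, h1, h12]
                · linarith only [g10_1, g11_0, g20_1, g25_0, h11, h17, h18, h19, h21, h29, h32, s1]
                · linarith only [g14_0, g25_0, h17, h18, h19, h27, s3]
  · linarith only [g1_1, h14, h2, h29, h4]

end Pool.Agent.Helper28.TQ
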