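import Pool.Agent.Helper89.TQ.Ctx

set_option autoImplicit false
set_option linter.all false

namespace Pool.Agent.Helper28.TQ
open Pool.Agent.Helper89.TQ

theorem c0_11_13_23_k0 {n1 n2 n3 A1 A2 A3 B1 B2 B3 m11_1 m11_2 m11_3 m13_1 m13_2 m13_3 m22_1 m22_2 m22_3 m23_1 m23_2 m23_3 m33_1 m33_2 m33_3 : ℤ}
    (C : Ctx0 n1 n2 n3 A1 A2 A3 B1 B2 B3 m11_1 m11_2 m11_3 m13_1 m13_2 m13_3 m22_1 m22_2 m22_3 m23_1 m23_2 m23_3 m33_1 m33_2 m33_3)
    (e0 : 0 < B1)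
    (e1 : 0 < A1)
    (e2 : 0 < B3)
    (e3 : 0 < A2)
    (s1 : 0 * A1 + 3 * B1 ≤ m11_1 + m13_1 + m23_1)
    (s2 : 0 * A2 + 3 * B2 ≤ m11_2 + m13_2 + m23_2)
    (s3 : 0 * A3 + 3 * B3 ≤ m11_3 + m13_3 + m23_3) : False := by
  have h2 := C.a2
  have h3 := C.a3
  have h4 := C.a4
  have h8 := C.b2
  have h9 := C.b3
  have h12 := C.o0
  have h13 := C.o1
  have h14 := C.o2
  have h17 := C.f11_0
  have h18 := C.f11_1
  have h19 := C.f11_2
  have h20 := C.f13_0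
  have h23 := C.f13_3
  have h24 := C.f13_4
  have h27 := C.f13_7
  have h30 := C.f23_1
  have h31 := C.f23_2
  have h33 := C.f23_4
  have h34 := C.f23_5
  have h37 := C.f23_8
  have h38 := C.f23_9
  have kh22 : (-A1 + m13_1 ≤ -1 ∧ A1 - m13_1 ≤ 1) ∨ (-B3 + m13_1 ≤ -1 ∧ B3 - m13_1 ≤ 1) := by
    have q := C.f13_2
    clear * - q
    omega
  have kh25 : (-n2 - m13_1 + m13_2 ≤ 0 ∧ n2 + m13_1 - m13_2 ≤ 0) ∨ (-B3 + m13_2 ≤ -1 ∧ B3 - m13_2 ≤ 1) := by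
    have q := C.f13_5
    clear * - q
    omega
  have kh36 : (-n2 - m23_1 + m23_2 ≤ 0 ∧ n2 + m23_1 - m23_2 ≤ 0) ∨ (-A2 + m23_2 ≤ -1 ∧ A2 - m23_2 ≤ 1) ∨ (-B3 + m23_2 ≤ -1 ∧ B3 - m23_2 ≤ 1) := by
    have q := C.f23_7
    clear * - q
    omega
  have kh40 : (B1 ≤ 0) ∨ (A2 ≤ 0) ∨ (B3 ≤ 0) ∨ (-2 * B1 + m11_1 + m23_1 ≤ -1) ∨ (-2 * B2 + m11_2 + m23_2 ≤ -1) ∨ (-2 * B3 + m11_3 + m23_3 ≤ -1) := by
    have q := C.p11_23B
    clear * - q
    omega
  have kh41 : (B1 ≤ 0) ∨ (A1 ≤ 0) ∨ (B3 ≤ 0) ∨ (-2 * B1 + m11_1 + m13_1 ≤ -1) ∨ (-2 * B2 + m11_2 + m13_2 ≤ -1) ∨ (-2 * B3 + m11_3 + m13_3 ≤ -1) := by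
    have q := C.p11_13B
    clear * - q
    omega
  have kh79 : (-A1 + A2 ≤ 0) ∨ (n3 + A2 - A3 ≤ 1) ∨ (n2 + B1 - B2 ≤ 0) ∨ (-B2 + B3 ≤ 1) ∨ (-A2 + B2 ≤ -1 ∧ -A3 + B3 ≤ 1) := by
    have q := C.tzpm
    clear * - q
    omega
  clear C
  rcases kh22 with ⟨g1_0, g1_1⟩ | ⟨g1_0, g1_1⟩
  · rcases kh25 with ⟨g2_0, g2_1⟩ | ⟨g2_0, g2_1⟩
    · rcases kh41 with g3_0 | g3_0 | g3_0 | g3_0 | g3_0 | g3_0
      · linarith only [e0, g3_0]
      · linarith only [e0, g3_0, h12]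
      · linarith only [e1, g1_1, g2_1, g3_0, h2, h24, h3]
      · rcases kh36 with ⟨g4_0, g4_1⟩ | ⟨g4_0, g4_1⟩ | ⟨g4_0, g4_1⟩
        · linarith only [g1_1, g3_0, g4_1, h17, h3, h34, s1]
        · rcases kh40 with g5_0 | g5_0 | g5_0 | g5_0 | g5_0 | g5_0
          · linarith only [e0, g5_0]
          · linarith only [e1, g1_1, g3_0, g5_0, h17, h30, s1]
          · linarith only [e1, g1_1, g2_1, g3_0, g5_0, h17, h18, h24, h3, h30, h33, h8, s2]
          · linarith only [g3_0, g5_0, h17, s1]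
          · rcases kh79 with g6_0 | g6_0 | g6_0 | g6_0 | ⟨g6_0, g6_1⟩
            · linarith only [g1_1, g3_0, g6_0, h17, h30, s1]
            · linarith only [g5_0, g6_0, h13, h14, h19, h27, h37, s3]
            · linarith only [g1_1, g3_0, g6_0, h17, h18, h23, h3, h34, s2]
            · linarith only [g1_1, g2_1, g3_0, g6_0, h12, h14, h18, h24, h34, h4, s2]
            · linarith only [g3_0, g4_1, g5_0, g6_0, h17, h18, h23, s2]
          · linarith only [g5_0, h27, s3]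
        · linarith only [g4_1, h14, h34, h4]
      · linarith only [g1_1, g2_1, g3_0, h17, h18, h3, h34, h9, s2]
      · linarith only [g3_0, h38, s3]
    · rcases kh41 with g7_0 | g7_0 | g7_0 | g7_0 | g7_0 | g7_0
      · linarith only [e0, g7_0]
      · linarith only [e0, g7_0, h12]
      · linarith only [e0, g7_0, h14, h17, h2, h20, h30, h4, s1]
      · rcases kh36 with ⟨g8_0, g8_1⟩ | ⟨g8_0, g8_1⟩ | ⟨g8_0, g8_1⟩
        · linarith only [g1_1, g7_0, g8_1, h17, h3, h34, s1]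
        · rcases kh40 with g9_0 | g9_0 | g9_0 | g9_0 | g9_0 | g9_0
          · linarith only [e0, g9_0]
          · linarith only [e1, g9_0, h2]
          · linarith only [e1, g1_1, g7_0, g9_0, h17, h31, s1]
          · linarith only [g7_0, g9_0, h17, s1]
          · rcases kh79 with g10_0 | g10_0 | g10_0 | g10_0 | ⟨g10_0, g10_1⟩
            · linarith only [g10_0, g1_1, g7_0, h17, h30, s1]
            · linarith only [g10_0, g8_1, g9_0, h13, h14, h19, h27, h38, s3]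
            · linarith only [g10_0, g7_0, g9_0, h17, h23, s2]
            · linarith only [g10_0, g9_0, h24, s2]
            · linarith only [g10_0, g7_0, g8_1, g9_0, h17, h18, h23, s2]
          · linarith only [g9_0, h27, s3]
        · linarith only [g8_1, h14, h34, h4]
      · linarith only [g2_1, g7_0, h14, h17, h18, h34, h4, h9, s2]
      · linarith only [g7_0, h38, s3]
  · linarith only [g1_1, h14, h2, h20, h4]

end Pool.Agent.Helper28.TQ
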