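import Pool.Agent.Helper89.TQ.Ctx

set_option autoImplicit false
set_option linter.all false

namespace Pool.Agent.Helper28.TQ
open Pool.Agent.Helper89.TQ

theorem c0_11_13_23_k3 {n1 n2 n3 A1 A2 A3 B1 B2 B3 m11_1 m11_2 m11_3 m13_1 m13_2 m13_3 m22_1 m22_2 m22_3 m23_1 m23_2 m23_3 m33_1 m33_2 m33_3 : ℤ}
    (C : Ctx0 n1 n2 n3 A1 A2 A3 B1 B2 B3 m11_1 m11_2 m11_3 m13_1 m13_2 m13_3 m22_1 m22_2 m22_3 m23_1 m23_2 m23_3 m33_1 m33_2 m33_3)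
    (e0 : 0 < B1)
    (e1 : 0 < A1)
    (e2 : 0 < B3)
    (e3 : 0 < A2)
    (s1 : 3 * A1 + 0 * B1 ≤ m11_1 + m13_1 + m23_1)
    (s2 : 3 * A2 + 0 * B2 ≤ m11_2 + m13_2 + m23_2)
    (s3 : 3 * A3 + 0 * B3 ≤ m11_3 + m13_3 + m23_3) : False := by
  have h2 := C.a2
  have h3 := C.a3
  have h4 := C.a4
  have h7 := C.b1
  have h11 := C.b5
  have h12 := C.o0
  have h13 := C.o1
  have h14 := C.o2
  have h17 := C.f11_0
  have h18 := C.f11_1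
  have h20 := C.f13_0
  have h23 := C.f13_3
  have h27 := C.f13_7
  have h29 := C.f23_0
  have h30 := C.f23_1
  have h33 := C.f23_4
  have h34 := C.f23_5
  have kh28 : (-n3 - m13_2 + m13_3 ≤ 0 ∧ n3 + m13_2 - m13_3 ≤ 0) ∨ (-B3 + m13_3 ≤ -1 ∧ B3 - m13_3 ≤ 1) := by
    have q := C.f13_8
    clear * - q
    omega
  have kh36 : (-n2 - m23_1 + m23_2 ≤ 0 ∧ n2 + m23_1 - m23_2 ≤ 0) ∨ (-A2 + m23_2 ≤ -1 ∧ A2 - m23_2 ≤ 1) ∨ (-B3 + m23_2 ≤ -1 ∧ B3 - m23_2 ≤ 1) := by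
    have q := C.f23_7
    clear * - q
    omega
  have kh39 : (-n3 - m23_2 + m23_3 ≤ 0 ∧ n3 + m23_2 - m23_3 ≤ 0) ∨ (-B3 + m23_3 ≤ -1 ∧ B3 - m23_3 ≤ 1) := by
    have q := C.f23_10
    clear * - q
    omega
  have kh66 : (A1 ≤ 0) ∨ (B3 ≤ 0) ∨ (A2 ≤ 0) ∨ (-2 * A1 + m13_1 + m23_1 ≤ -1) ∨ (-2 * A2 + m13_2 + m23_2 ≤ -1) ∨ (-2 * A3 + m13_3 + m23_3 ≤ -1) := by
    have q := C.p13_23A
    clear * - q
    omega
  have kh77 : (n1 - A1 ≤ 0) ∨ (-A1 + A2 ≤ 1) ∨ (B1 ≤ 0) ∨ (n2 + B1 - B2 ≤ 1) := by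
    have q := C.tmpp
    clear * - q
    omega
  clear C
  rcases kh36 with ⟨g1_0, g1_1⟩ | ⟨g1_0, g1_1⟩ | ⟨g1_0, g1_1⟩
  · linarith only [g1_1, h12, h17, h18, h20, h23, h34, s1, s2]
  · rcases kh77 with g2_0 | g2_0 | g2_0 | g2_0
    · linarith only [g2_0, h17, h20, h29, h7, s1]
    · linarith only [g2_0, h12, h17, h20, h30, s1]
    · linarith only [e0, g2_0]
    · rcases kh28 with ⟨g3_0, g3_1⟩ | ⟨g3_0, g3_1⟩
      · linarith only [g2_0, g3_1, h11, h13, h17, h18, h27, h34, s2]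
      · rcases kh66 with g4_0 | g4_0 | g4_0 | g4_0 | g4_0 | g4_0
        · linarith only [e0, g4_0, h12]
        · linarith only [e0, g4_0, h12, h14, h2, h4]
        · linarith only [e0, g2_0, g4_0, h13, h17, h20, h3, h30, s1]
        · linarith only [g2_0, g4_0, h13, h17, h18, h23, h33, s1, s2]
        · linarith only [g2_0, g4_0, h13, h17, h18, s2]
        · rcases kh39 with ⟨g5_0, g5_1⟩ | ⟨g5_0, g5_1⟩
          · linarith only [g1_1, g3_1, g4_0, g5_1, h11, h13, h14]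
          · linarith only [g3_1, g4_0, g5_1, h14]
  · linarith only [g1_1, h14, h34, h4]

end Pool.Agent.Helper28.TQ
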