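import Pool.Agent.Helper89.TQ.Ctx

set_option autoImplicit false
set_option linter.all false

namespace Pool.Agent.Helper28.TQ
open Pool.Agent.Helper89.TQ

theorem c0_11_22_23_k3 {n1 n2 n3 A1 A2 A3 B1 B2 B3 m11_1 m11_2 m11_3 m13_1 m13_2 m13_3 m22_1 m22_2 m22_3 m23_1 m23_2 m23_3 m33_1 m33_2 m33_3 : ℤ}
    (C : Ctx0 n1 n2 n3 A1 A2 A3 B1 B2 B3 m11_1 m11_2 m11_3 m13_1 m13_2 m13_3 m22_1 m22_2 m22_3 m23_1 m23_2 m23_3 m33_1 m33_2 m33_3)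
    (e0 : 0 < B1)
    (e1 : 0 < B2)
    (e2 : 0 < A2)
    (e3 : 0 < B3)
    (s1 : 3 * A1 + 0 * B1 ≤ m11_1 + m22_1 + m23_1)
    (s2 : 3 * A2 + 0 * B2 ≤ m11_2 + m22_2 + m23_2)
    (s3 : 3 * A3 + 0 * B3 ≤ m11_3 + m22_3 + m23_3) : False := by
  have h7 := C.b1
  have h12 := C.o0
  have h13 := C.o1
  have h17 := C.f11_0
  have h18 := C.f11_1
  have h20 := C.f22_0
  have h21 := C.f22_1
  have h24 := C.f22_4
  have h27 := C.f23_0
  have h28 := C.f23_1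
  have h32 := C.f23_5
  have kh77 : (n1 - A1 ≤ 0) ∨ (-A1 + A2 ≤ 1) ∨ (B1 ≤ 0) ∨ (n2 + B1 - B2 ≤ 1) := by
    have q := C.tmpp
    clear * - q
    omega
  clear C
  rcases kh77 with g1_0 | g1_0 | g1_0 | g1_0
  · linarith only [g1_0, h17, h20, h27, h7, s1]
  · linarith only [g1_0, h12, h13, h17, h21, h28, s1]
  · linarith only [e0, g1_0]
  · linarith only [g1_0, h13, h17, h18, h24, h32, s2]

end Pool.Agent.Helper28.TQ
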