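import Pool.Agent.Helper89.TQ.Ctx

set_option autoImplicit false
set_option linter.all false

namespace Pool.Agent.Helper28.TQ
open Pool.Agent.Helper89.TQ

theorem c0_11_22_33_k0 {n1 n2 n3 A1 A2 A3 B1 B2 B3 m11_1 m11_2 m11_3 m13_1 m13_2 m13_3 m22_1 m22_2 m22_3 m23_1 m23_2 m23_3 m33_1 m33_2 m33_3 : ℤ}
    (C : Ctx0 n1 n2 n3 A1 A2 A3 B1 B2 B3 m11_1 m11_2 m11_3 m13_1 m13_2 m13_3 m22_1 m22_2 m22_3 m23_1 m23_2 m23_3 m33_1 m33_2 m33_3)
    (e0 : 0 < B1)
    (e1 : 0 < B2)
    (e2 : 0 < A3)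
    (s1 : 0 * A1 + 3 * B1 ≤ m11_1 + m22_1 + m33_1)
    (s2 : 0 * A2 + 3 * B2 ≤ m11_2 + m22_2 + m33_2)
    (s3 : 0 * A3 + 3 * B3 ≤ m11_3 + m22_3 + m33_3) : False := by
  have h0 := C.a0
  have h1 := C.a1
  have h2 := C.a2
  have h3 := C.a3
  have h4 := C.a4
  have h5 := C.a5
  have h8 := C.b2
  have h9 := C.b3
  have h11 := C.b5
  have h12 := C.o0
  have h13 := C.o1
  have h14 := C.o2
  have h17 := C.f11_0
  have h18 := C.f11_1
  have h19 := C.f11_2
  have h20 := C.f22_0
  have h21 := C.f22_1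
  have h23 := C.f22_3
  have h24 := C.f22_4
  have h26 := C.f22_6
  have h27 := C.f33_0
  have h28 := C.f33_1
  have h30 := C.f33_3
  have h31 := C.f33_4
  have h34 := C.f33_7
  have h36 := C.f13_0
  have h39 := C.f13_3
  have h40 := C.f13_4
  have h42 := C.f13_6
  have h43 := C.f13_7
  have kh15 : (-A1 ≤ -1 ∧ -n2 - A1 + A2 ≤ -1) ∨ (-B1 ≤ -1 ∧ -n2 - B1 + B2 ≤ -1) := by
    have q := C.t12
    clear * - q
    omega
  have kh16 : (A1 - A2 ≤ -1 ∧ -n3 - A2 + A3 ≤ -1) ∨ (B1 - B2 ≤ -1 ∧ -n3 - B2 + B3 ≤ -1) := by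
    have q := C.t23
    clear * - q
    omega
  have kh22 : (-n1 + m22_1 ≤ 0 ∧ n1 - m22_1 ≤ 0) ∨ (-B2 + m22_1 ≤ -1 ∧ B2 - m22_1 ≤ 1) := by
    have q := C.f22_2
    clear * - q
    omega
  have kh25 : (-n2 - m22_1 + m22_2 ≤ 0 ∧ n2 + m22_1 - m22_2 ≤ 0) ∨ (-B2 + m22_2 ≤ -1 ∧ B2 - m22_2 ≤ 1) := by
    have q := C.f22_5
    clear * - q
    omega
  have kh29 : (-n1 + m33_1 ≤ 0 ∧ n1 - m33_1 ≤ 0) ∨ (-A3 + m33_1 ≤ -1 ∧ A3 - m33_1 ≤ 1) := by
    have q := C.f33_2
    clear * - q
    omega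
  have kh35 : (-n3 - m33_2 + m33_3 ≤ 0 ∧ n3 + m33_2 - m33_3 ≤ 0) ∨ (-A3 + m33_3 ≤ -1 ∧ A3 - m33_3 ≤ 1) := by
    have q := C.f33_8
    clear * - q
    omega
  have kh38 : (-A1 + m13_1 ≤ -1 ∧ A1 - m13_1 ≤ 1) ∨ (-B3 + m13_1 ≤ -1 ∧ B3 - m13_1 ≤ 1) := by
    have q := C.f13_2
    clear * - q
    omega
  have kh41 : (-n2 - m13_1 + m13_2 ≤ 0 ∧ n2 + m13_1 - m13_2 ≤ 0) ∨ (-B3 + m13_2 ≤ -1 ∧ B3 - m13_2 ≤ 1) := by
    have q := C.f13_5
    clear * - q
    omega
  have kh44 : (-n3 - m13_2 + m13_3 ≤ 0 ∧ n3 + m13_2 - m13_3 ≤ 0) ∨ (-B3 + m13_3 ≤ -1 ∧ B3 - m13_3 ≤ 1) := by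
    have q := C.f13_8
    clear * - q
    omega
  have kh45 : (B1 ≤ 0) ∨ (A3 ≤ 0) ∨ (-2 * B1 + m11_1 + m33_1 ≤ -1) ∨ (-2 * B2 + m11_2 + m33_2 ≤ -1) ∨ (-2 * B3 + m11_3 + m33_3 ≤ -1) := by
    have q := C.p11_33B
    clear * - q
    omega
  have kh46 : (-A1 + A2 ≤ 0) ∨ (n3 + A2 - A3 ≤ 1) ∨ (n2 + B1 - B2 ≤ 0) ∨ (-B2 + B3 ≤ 1) ∨ (-A2 + B2 ≤ -1 ∧ -A3 + B3 ≤ 1) := by
    have q := C.tzpm
    clear * - q
    omega
  have kh47 : (n2 + A1 - A2 ≤ 0) ∨ (-A2 + A3 ≤ 1) ∨ (-B1 + B2 ≤ 0) ∨ (n3 + B2 - B3 ≤ 1) := by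
    have q := C.tzmp
    clear * - q
    omega
  have kh50 : (A1 ≤ 0) ∨ (B3 ≤ 0) ∨ (B2 ≤ 0) ∨ (-2 * B1 + m13_1 + m22_1 ≤ -1) ∨ (-2 * B2 + m13_2 + m22_2 ≤ -1) ∨ (-2 * B3 + m13_3 + m22_3 ≤ -1) := by
    have q := C.p13_22B
    clear * - q
    omega
  clear C
  rcases kh38 with ⟨g1_0, g1_1⟩ | ⟨g1_0, g1_1⟩
  · rcases kh41 with ⟨g2_0, g2_1⟩ | ⟨g2_0, g2_1⟩
    · rcases kh44 with ⟨g3_0, g3_1⟩ | ⟨g3_0, g3_1⟩
      · linarith only [g1_1, g2_1, g3_1, h12, h14, h17, h18, h19, h24, h26, h34, h43, h9, s3]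
      · rcases kh45 with g4_0 | g4_0 | g4_0 | g4_0 | g4_0
        · linarith only [e0, g4_0]
        · linarith only [e0, g4_0, h13, h17, h21, h28, h4, s1]
        · rcases kh29 with ⟨g5_0, g5_1⟩ | ⟨g5_0, g5_1⟩
          · linarith only [g4_0, g5_1, h17, h20, s1]
          · linarith only [g4_0, g5_1, h13, h17, h21, h4, s1]
        · linarith only [g4_0, h24, s2]
        · rcases kh35 with ⟨g6_0, g6_1⟩ | ⟨g6_0, g6_1⟩
          · linarith only [g4_0, g6_1, h19, h24, h26, s2, s3]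
          · rcases kh15 with ⟨g7_0, g7_1⟩ | ⟨g7_0, g7_1⟩
            · rcases kh22 with ⟨g8_0, g8_1⟩ | ⟨g8_0, g8_1⟩
              · rcases kh25 with ⟨g9_0, g9_1⟩ | ⟨g9_0, g9_1⟩
                · linarith only [g8_1, g9_1, h17, h24, h27, h9, s1]
                · rcases kh47 with g10_0 | g10_0 | g10_0 | g10_0
                  · linarith only [g10_0, g7_1]
                  · rcases kh50 with g11_0 | g11_0 | g11_0 | g11_0 | g11_0 | g11_0
                    · linarith only [e0, g11_0, h12]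
                    · linarith only [g11_0, g1_1, g2_1, g8_1, h0, h17, h18, h21, h23, h27, h30, h40, s1, s2]
                    · linarith only [e0, g11_0, g8_1, h17, h21, h27, s1]
                    · linarith only [g11_0, g1_1, g8_1, h12, h17, h27, s1]
                    · linarith only [g10_0, g11_0, g1_1, g2_1, g7_1, g9_1, h12, h17, h18, h31, s2]
                    · linarith only [g11_0, g3_1, g4_0, s3]
                  · linarith only [g10_0, g8_1, h17, h21, h27, s1]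
                  · linarith only [g10_0, g4_0, h24, h26, s3]
              · rcases kh25 with ⟨g12_0, g12_1⟩ | ⟨g12_0, g12_1⟩
                · linarith only [g12_1, g7_1, g8_1, h2, h24]
                · rcases kh50 with g13_0 | g13_0 | g13_0 | g13_0 | g13_0 | g13_0
                  · linarith only [e0, g13_0, h12]
                  · linarith only [e0, g13_0, g1_1, g2_1, g4_0, g6_1, h0, h17, h18, h19, h21, h23, h28, h3, h30, h40, h5, s1, s2]
                  · linarith only [e0, g13_0, h8]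
                  · rcases kh16 with ⟨g14_0, g14_1⟩ | ⟨g14_0, g14_1⟩
                    · rcases kh46 with g15_0 | g15_0 | g15_0 | g15_0 | ⟨g15_0, g15_1⟩
                      · linarith only [g14_0, g15_0]
                      · linarith only [g13_0, g15_0, g1_1, g4_0, g6_1, g8_1, h13, h17, h18, h19, h2, h24, h26, h3, s3]
                      · linarith only [g13_0, g15_0, g1_1, g7_1, g8_1, h12, h2]
                      · linarith only [g13_0, g15_0, g1_1, g4_0, g6_1, g8_1, h13, h17, h18, h19, h24, h26, h28, h3, h4, s1, s3]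
                      · linarith only [g13_0, g15_1, g1_1, g4_0, g6_1, g7_1, g8_1, h13, h17, h18, h19, h2, h24, h26, s3]
                    · linarith only [g13_0, g14_0, g1_1, g8_1, h12]
                  · rcases kh47 with g16_0 | g16_0 | g16_0 | g16_0
                    · linarith only [g16_0, g7_1]
                    · linarith only [g12_1, g13_0, g16_0, g1_1, g2_1, g7_1, h12, h17, h18, h31, s2]
                    · linarith only [g12_1, g13_0, g16_0, g1_1, g2_1, g7_1, h12, h2]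
                    · linarith only [g13_0, g16_0, g1_1, g2_1, g4_0, h12, h26, h9, s3]
                  · linarith only [g13_0, g3_1, g4_0, s3]
            · rcases kh46 with g17_0 | g17_0 | g17_0 | g17_0 | ⟨g17_0, g17_1⟩
              · rcases kh16 with ⟨g18_0, g18_1⟩ | ⟨g18_0, g18_1⟩
                · linarith only [g17_0, g18_0]
                · rcases kh22 with ⟨g19_0, g19_1⟩ | ⟨g19_0, g19_1⟩
                  · linarith only [g17_0, g19_1, h1, h13, h21]
                  · rcases kh25 with ⟨g20_0, g20_1⟩ | ⟨g20_0, g20_1⟩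
                    · linarith only [g18_0, g19_1, g20_1, g7_1, h24]
                    · rcases kh50 with g21_0 | g21_0 | g21_0 | g21_0 | g21_0 | g21_0
                      · linarith only [e0, g21_0, h12]
                      · linarith only [e0, g1_1, g21_0, g2_1, g4_0, g6_1, h0, h17, h18, h19, h21, h23, h28, h3, h30, h40, h5, s1, s2]
                      · linarith only [e0, g21_0, h8]
                      · linarith only [g18_0, g19_1, g1_1, g21_0, h12]
                      · linarith only [g1_1, g20_1, g21_0, g2_1, g7_1, h12]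
                      · linarith only [g21_0, g3_1, g4_0, s3]
              · linarith only [g17_0, g4_0, g6_1, h13, h17, h18, h19, h24, h26, h9, s3]
              · linarith only [g17_0, g7_1]
              · linarith only [g17_0, g4_0, g6_1, h19, h24, h26, h31, s2, s3]
              · linarith only [g17_1, g4_0, g6_1, g7_1, h17, h18, h19, h24, h26, s3]
    · rcases kh44 with ⟨g22_0, g22_1⟩ | ⟨g22_0, g22_1⟩
      · linarith only [g22_1, g2_1, h11, h13, h14, h4, h43]
      · rcases kh45 with g23_0 | g23_0 | g23_0 | g23_0 | g23_0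
        · linarith only [e0, g23_0]
        · linarith only [e0, g23_0, h13, h17, h21, h28, h4, s1]
        · rcases kh29 with ⟨g24_0, g24_1⟩ | ⟨g24_0, g24_1⟩
          · linarith only [g23_0, g24_1, h17, h20, s1]
          · linarith only [g23_0, g24_1, h13, h17, h21, h4, s1]
        · linarith only [g23_0, h24, s2]
        · rcases kh35 with ⟨g25_0, g25_1⟩ | ⟨g25_0, g25_1⟩
          · linarith only [g23_0, g25_1, h11, h19, h24, s2]
          · rcases kh50 with g26_0 | g26_0 | g26_0 | g26_0 | g26_0 | g26_0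
            · linarith only [e0, g23_0, g25_1, g26_0, g2_1, h13, h17, h18, h19, h24, h26, h36, h39, h4, s3]
            · linarith only [e0, g23_0, g25_1, g26_0, h13, h17, h18, h19, h2, h21, h28, h3, h4, h5, s1]
            · linarith only [e0, g23_0, g25_1, g26_0, g2_1, h17, h18, h19, h2, h24, h26, h36, h39, h4, s3]
            · rcases kh22 with ⟨g27_0, g27_1⟩ | ⟨g27_0, g27_1⟩
              · linarith only [g23_0, g25_1, g26_0, g27_1, g2_1, h13, h17, h18, h19, h24, h26, h27, h39, h4, s1, s3]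
              · linarith only [g23_0, g25_1, g26_0, g27_1, g2_1, h13, h17, h18, h19, h24, h26, h28, h39, h4, s1, s3]
            · linarith only [g22_1, g23_0, g25_1, g26_0, g2_1, h19, h26, h31, h42, s2, s3]
            · linarith only [g22_1, g23_0, g26_0, s3]
  · linarith only [g1_1, h14, h2, h36, h4]

end Pool.Agent.Helper28.TQ
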