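import Pool.Agent.Helper89.TQ.Ctx

set_option autoImplicit false
set_option linter.all false

namespace Pool.Agent.Helper28.TQ
open Pool.Agent.Helper89.TQ

theorem c0_11_22_33_k1 {n1 n2 n3 A1 A2 A3 B1 B2 B3 m11_1 m11_2 m11_3 m13_1 m13_2 m13_3 m22_1 m22_2 m22_3 m23_1 m23_2 m23_3 m33_1 m33_2 m33_3 : ℤ}
    (C : Ctx0 n1 n2 n3 A1 A2 A3 B1 B2 B3 m11_1 m11_2 m11_3 m13_1 m13_2 m13_3 m22_1 m22_2 m22_3 m23_1 m23_2 m23_3 m33_1 m33_2 m33_3)
    (e0 : 0 < B1)
    (e1 : 0 < B2)
    (e2 : 0 < A3)
    (s1 : 1 * A1 + 2 * B1 ≤ m11_1 + m22_1 + m33_1)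
    (s2 : 1 * A2 + 2 * B2 ≤ m11_2 + m22_2 + m33_2)
    (s3 : 1 * A3 + 2 * B3 ≤ m11_3 + m22_3 + m33_3) : False := by
  have h1 := C.a1
  have h2 := C.a2
  have h3 := C.a3
  have h4 := C.a4
  have h5 := C.a5
  have h8 := C.b2
  have h9 := C.b3
  have h10 := C.b4
  have h12 := C.o0
  have h13 := C.o1
  have h14 := C.o2
  have h17 := C.f11_0
  have h18 := C.f11_1
  have h19 := C.f11_2
  have h20 := C.f22_0
  have h21 := C.f22_1
  have h23 := C.f22_3
  have h24 := C.f22_4
  have h26 := C.f22_6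
  have h27 := C.f33_0
  have h28 := C.f33_1
  have h30 := C.f33_3
  have h31 := C.f33_4
  have h34 := C.f33_7
  have h37 := C.f23_1
  have h41 := C.f23_5
  have h44 := C.f23_8
  have h45 := C.f23_9
  have kh15 : (-A1 ≤ -1 ∧ -n2 - A1 + A2 ≤ -1) ∨ (-B1 ≤ -1 ∧ -n2 - B1 + B2 ≤ -1) := by
    have q := C.t12
    clear * - q
    omega
  have kh16 : (A1 - A2 ≤ -1 ∧ -n3 - A2 + A3 ≤ -1) ∨ (B1 - B2 ≤ -1 ∧ -n3 - B2 + B3 ≤ -1) := by
    have q := C.t23
    clear * - q
    omega
  have kh22 : (-n1 + m22_1 ≤ 0 ∧ n1 - m22_1 ≤ 0) ∨ (-B2 + m22_1 ≤ -1 ∧ B2 - m22_1 ≤ 1) := by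
    have q := C.f22_2
    clear * - q
    omega
  have kh25 : (-n2 - m22_1 + m22_2 ≤ 0 ∧ n2 + m22_1 - m22_2 ≤ 0) ∨ (-B2 + m22_2 ≤ -1 ∧ B2 - m22_2 ≤ 1) := by
    have q := C.f22_5
    clear * - q
    omega
  have kh29 : (-n1 + m33_1 ≤ 0 ∧ n1 - m33_1 ≤ 0) ∨ (-A3 + m33_1 ≤ -1 ∧ A3 - m33_1 ≤ 1) := by
    have q := C.f33_2
    clear * - q
    omega
  have kh32 : (-n2 - m33_1 + m33_2 ≤ 0 ∧ n2 + m33_1 - m33_2 ≤ 0) ∨ (-A3 + m33_2 ≤ -1 ∧ A3 - m33_2 ≤ 1) := by
    have q := C.f33_5
    clear * - q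
    omega
  have kh35 : (-n3 - m33_2 + m33_3 ≤ 0 ∧ n3 + m33_2 - m33_3 ≤ 0) ∨ (-A3 + m33_3 ≤ -1 ∧ A3 - m33_3 ≤ 1) := by
    have q := C.f33_8
    clear * - q
    omega
  have kh39 : (-n1 + m23_1 ≤ 0 ∧ n1 - m23_1 ≤ 0) ∨ (-A2 + m23_1 ≤ -1 ∧ A2 - m23_1 ≤ 1) ∨ (-B3 + m23_1 ≤ -1 ∧ B3 - m23_1 ≤ 1) := by
    have q := C.f23_3
    clear * - q
    omega
  have kh43 : (-n2 - m23_1 + m23_2 ≤ 0 ∧ n2 + m23_1 - m23_2 ≤ 0) ∨ (-A2 + m23_2 ≤ -1 ∧ A2 - m23_2 ≤ 1) ∨ (-B3 + m23_2 ≤ -1 ∧ B3 - m23_2 ≤ 1) := by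
    have q := C.f23_7
    clear * - q
    omega
  have kh46 : (-n3 - m23_2 + m23_3 ≤ 0 ∧ n3 + m23_2 - m23_3 ≤ 0) ∨ (-B3 + m23_3 ≤ -1 ∧ B3 - m23_3 ≤ 1) := by
    have q := C.f23_10
    clear * - q
    omega
  have kh47 : (B1 ≤ 0) ∨ (A3 ≤ 0) ∨ (-2 * B1 + m11_1 + m33_1 ≤ -1) ∨ (-2 * B2 + m11_2 + m33_2 ≤ -1) ∨ (-2 * B3 + m11_3 + m33_3 ≤ -1) := by
    have q := C.p11_33B
    clear * - q
    omega
  have kh48 : (-A1 + A2 ≤ 0) ∨ (n3 + A2 - A3 ≤ 1) ∨ (n2 + B1 - B2 ≤ 0) ∨ (-B2 + B3 ≤ 1) ∨ (-A2 + B2 ≤ -1 ∧ -A3 + B3 ≤ 1) := by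
    have q := C.tzpm
    clear * - q
    omega
  have kh49 : (B2 ≤ 0) ∨ (A3 ≤ 0) ∨ (-2 * A1 + m22_1 + m33_1 ≤ -1) ∨ (-2 * A2 + m22_2 + m33_2 ≤ -1) ∨ (-2 * A3 + m22_3 + m33_3 ≤ -1) := by
    have q := C.p22_33A
    clear * - q
    omega
  have kh50 : (A1 ≤ 0) ∨ (n2 + A1 - A2 ≤ 1) ∨ (-A2 + A3 ≤ 0) ∨ (n1 - B1 ≤ 0) ∨ (-B1 + B2 ≤ 1) ∨ (n3 + B2 - B3 ≤ 0) := by
    have q := C.tpmz
    clear * - q
    omega
  have kh53 : (n2 + A1 - A2 ≤ 0) ∨ (-A2 + A3 ≤ 1) ∨ (-B1 + B2 ≤ 0) ∨ (n3 + B2 - B3 ≤ 1) := by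
    have q := C.tzmp
    clear * - q
    omega
  have kh54 : (B1 ≤ 0) ∨ (A2 ≤ 0) ∨ (B3 ≤ 0) ∨ (-2 * B1 + m11_1 + m23_1 ≤ -1) ∨ (-2 * B2 + m11_2 + m23_2 ≤ -1) ∨ (-2 * B3 + m11_3 + m23_3 ≤ -1) := by
    have q := C.p11_23B
    clear * - q
    omega
  clear C
  rcases kh16 with ⟨g1_0, g1_1⟩ | ⟨g1_0, g1_1⟩
  · rcases kh25 with ⟨g2_0, g2_1⟩ | ⟨g2_0, g2_1⟩
    · rcases kh22 with ⟨g3_0, g3_1⟩ | ⟨g3_0, g3_1⟩
      · linarith only [g2_1, g3_1, h12, h13, h17, h18, h24, h27, h30, s1, s2]
      · linarith only [g1_0, g2_1, g3_1, h24, h3]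
    · rcases kh39 with ⟨g4_0, g4_1⟩ | ⟨g4_0, g4_1⟩ | ⟨g4_0, g4_1⟩
      · rcases kh43 with ⟨g5_0, g5_1⟩ | ⟨g5_0, g5_1⟩ | ⟨g5_0, g5_1⟩
        · linarith only [g4_1, g5_1, h1, h3, h41]
        · rcases kh54 with g6_0 | g6_0 | g6_0 | g6_0 | g6_0 | g6_0
          · linarith only [e0, g6_0]
          · linarith only [e0, g6_0, h13, h8]
          · linarith only [e0, g6_0, h10, h12, h14, h17, h21, h28, s1]
          · linarith only [g4_1, g6_0, h12, h17, h20, h27, s1]
          · rcases kh29 with ⟨g7_0, g7_1⟩ | ⟨g7_0, g7_1⟩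
            · rcases kh35 with ⟨g8_0, g8_1⟩ | ⟨g8_0, g8_1⟩
              · linarith only [g5_1, g6_0, g8_1, h13, h24, h34, h5, s2]
              · rcases kh49 with g9_0 | g9_0 | g9_0 | g9_0 | g9_0
                · linarith only [e0, g5_1, g6_0, g9_0, h12, h17, h18, h2, h3]
                · linarith only [e0, g2_1, g5_1, g6_0, g7_1, g9_0, h12, h13, h18, h20, h23, h28, s1]
                · rcases kh22 with ⟨g10_0, g10_1⟩ | ⟨g10_0, g10_1⟩
                  · linarith only [g10_1, g7_1, g9_0, h1]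
                  · rcases kh50 with g11_0 | g11_0 | g11_0 | g11_0 | g11_0 | g11_0
                    · linarith only [e0, g11_0, g9_0, h17, s1]
                    · linarith only [g10_1, g11_0, g4_1, g5_1, g6_0, g9_0, h17, h18, h24, h27, h30, h37, s1, s2]
                    · linarith only [g10_1, g11_0, g5_1, g6_0, g7_1, g9_0, h2, h20, h24, h31, s2]
                    · linarith only [g11_0, g9_0, h1, h17, s1]
                    · linarith only [g11_0, g4_1, g5_1, g6_0, g9_0, h17, h18, h2, h24, h27, h30, h37, s1, s2]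
                    · linarith only [g10_1, g11_0, g5_1, g6_0, g7_1, g9_0, h19, h2, h20, h24, h26, h34, s3]
                · linarith only [g5_1, g6_0, g9_0, s2]
                · linarith only [g2_1, g5_1, g6_0, g8_1, g9_0, h14, h19, h26, h5, s3]
            · linarith only [g4_1, g5_1, g6_0, g7_1, h13, h24, h27, h31, h37, s2]
          · rcases kh46 with ⟨g12_0, g12_1⟩ | ⟨g12_0, g12_1⟩
            · linarith only [g12_1, g5_1, g6_0, h13, h24, h26, h34, s3]
            · linarith only [g12_1, g6_0, h17, h18, h19, h24, h26, h34, h9, s3]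
        · linarith only [g5_1, h14, h4, h41]
      · rcases kh43 with ⟨g13_0, g13_1⟩ | ⟨g13_0, g13_1⟩ | ⟨g13_0, g13_1⟩
        · linarith only [g13_1, g1_0, g4_1, h3, h41]
        · rcases kh54 with g14_0 | g14_0 | g14_0 | g14_0 | g14_0 | g14_0
          · linarith only [e0, g14_0]
          · linarith only [e0, g14_0, h12, h2]
          · linarith only [e0, g14_0, h10, h12, h14, h17, h21, h28, s1]
          · linarith only [g14_0, g1_0, g4_1, h12, h17]
          · rcases kh35 with ⟨g15_0, g15_1⟩ | ⟨g15_0, g15_1⟩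
            · linarith only [g13_1, g14_0, g15_1, h13, h14, h19, h24, h26, h34, s2, s3]
            · rcases kh49 with g16_0 | g16_0 | g16_0 | g16_0 | g16_0
              · linarith only [e0, g13_1, g14_0, g16_0, h12, h17, h18, h2, h3]
              · linarith only [e0, g13_1, g14_0, g16_0, h12, h13, h2, h24, h31, s2]
              · rcases kh53 with g17_0 | g17_0 | g17_0 | g17_0
                · linarith only [g13_1, g14_0, g16_0, g17_0, h23, h30, s2]
                · linarith only [g13_1, g14_0, g17_0, h13, h24, h31, s2]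
                · linarith only [g13_1, g14_0, g16_0, g17_0, h18, h2, h3, s1]
                · rcases kh48 with g18_0 | g18_0 | g18_0 | g18_0 | ⟨g18_0, g18_1⟩
                  · linarith only [g18_0, g1_0]
                  · linarith only [g13_1, g14_0, g18_0, h13, h14, h19, h24, h26, h34, s3]
                  · linarith only [g17_0, g18_0, h17, h18, h19, h24, h26, h34, s3]
                  · linarith only [g13_1, g14_0, g18_0, h13, h14, h24, h31, s2]
                  · linarith only [g13_1, g14_0, g17_0, g18_0, h19, h24, h26, h34, s3]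
              · linarith only [g13_1, g14_0, g16_0, s2]
              · linarith only [g13_1, g14_0, g15_1, g16_0, g2_1, h14, h19, h26, h5, s3]
          · rcases kh46 with ⟨g19_0, g19_1⟩ | ⟨g19_0, g19_1⟩
            · linarith only [g13_1, g14_0, g19_1, h13, h24, h26, h34, s3]
            · linarith only [g14_0, g19_1, h17, h18, h19, h24, h26, h34, h9, s3]
        · linarith only [g13_1, h14, h4, h41]
      · linarith only [g4_1, h14, h37, h4]
  · rcases kh39 with ⟨g20_0, g20_1⟩ | ⟨g20_0, g20_1⟩ | ⟨g20_0, g20_1⟩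
    · rcases kh43 with ⟨g21_0, g21_1⟩ | ⟨g21_0, g21_1⟩ | ⟨g21_0, g21_1⟩
      · linarith only [g20_1, g21_1, h1, h3, h41]
      · rcases kh46 with ⟨g22_0, g22_1⟩ | ⟨g22_0, g22_1⟩
        · linarith only [g1_1, g21_1, g22_1, h13, h45]
        · rcases kh54 with g23_0 | g23_0 | g23_0 | g23_0 | g23_0 | g23_0
          · linarith only [e0, g23_0]
          · linarith only [e0, g23_0, h13, h8]
          · linarith only [e0, g23_0, h10, h12, h14, h17, h21, h28, s1]
          · linarith only [g20_1, g23_0, h12, h17, h20, h27, s1]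
          · rcases kh29 with ⟨g24_0, g24_1⟩ | ⟨g24_0, g24_1⟩
            · rcases kh35 with ⟨g25_0, g25_1⟩ | ⟨g25_0, g25_1⟩
              · linarith only [g21_1, g23_0, g25_1, h13, h24, h34, h5, s2]
              · rcases kh47 with g26_0 | g26_0 | g26_0 | g26_0 | g26_0
                · linarith only [e0, g26_0]
                · linarith only [e0, g24_1, g26_0, h12, h17, h20, h28, s1]
                · linarith only [g24_1, g26_0, h12, h17, h20, s1]
                · linarith only [g26_0, h13, h24, s2]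
                · rcases kh49 with g27_0 | g27_0 | g27_0 | g27_0 | g27_0
                  · linarith only [e0, g21_1, g23_0, g27_0, h12, h17, h18, h2, h3]
                  · linarith only [e0, g24_1, g27_0, h12, h17, h20, h28, s1]
                  · rcases kh22 with ⟨g28_0, g28_1⟩ | ⟨g28_0, g28_1⟩
                    · linarith only [g24_1, g27_0, g28_1, h1]
                    · rcases kh50 with g29_0 | g29_0 | g29_0 | g29_0 | g29_0 | g29_0
                      · linarith only [e0, g27_0, g29_0, h17, s1]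
                      · linarith only [g20_1, g21_1, g23_0, g27_0, g28_1, g29_0, h17, h18, h24, h27, h30, h37, s1, s2]
                      · linarith only [g21_1, g23_0, g24_1, g27_0, g28_1, g29_0, h2, h20, h24, h31, s2]
                      · linarith only [g27_0, g29_0, h1, h17, s1]
                      · linarith only [g20_1, g21_1, g23_0, g27_0, g29_0, h17, h18, h2, h24, h27, h30, h37, s1, s2]
                      · linarith only [g21_1, g23_0, g24_1, g27_0, g28_1, g29_0, h19, h2, h20, h24, h26, h34, s3]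
                  · linarith only [g21_1, g23_0, g27_0, s2]
                  · linarith only [g25_1, g26_0, g27_0, s3]
            · linarith only [g20_1, g21_1, g23_0, g24_1, h13, h24, h27, h31, h37, s2]
          · linarith only [g22_1, g23_0, h17, h18, h19, h24, h26, h34, h9, s3]
      · linarith only [g21_1, h14, h4, h41]
    · rcases kh43 with ⟨g30_0, g30_1⟩ | ⟨g30_0, g30_1⟩ | ⟨g30_0, g30_1⟩
      · linarith only [g1_0, g20_1, g30_1, h41, h9]
      · rcases kh46 with ⟨g31_0, g31_1⟩ | ⟨g31_0, g31_1⟩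
        · linarith only [g1_1, g30_1, g31_1, h13, h45]
        · rcases kh54 with g32_0 | g32_0 | g32_0 | g32_0 | g32_0 | g32_0
          · linarith only [e0, g32_0]
          · linarith only [e0, g32_0, h12, h2]
          · linarith only [e0, g32_0, h10, h12, h14, h17, h21, h28, s1]
          · rcases kh22 with ⟨g33_0, g33_1⟩ | ⟨g33_0, g33_1⟩
            · linarith only [g20_1, g32_0, g33_1, h12, h13, h17, h21, h27, s1]
            · rcases kh25 with ⟨g34_0, g34_1⟩ | ⟨g34_0, g34_1⟩
              · linarith only [g1_0, g33_1, g34_1, h24, h9]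
              · rcases kh53 with g35_0 | g35_0 | g35_0 | g35_0
                · linarith only [g1_0, g20_1, g32_0, g35_0, h12, h17, h9]
                · linarith only [g20_1, g32_0, g35_0, h12, h13, h17, h21, h28, s1]
                · linarith only [g1_0, g35_0]
                · rcases kh47 with g36_0 | g36_0 | g36_0 | g36_0 | g36_0
                  · linarith only [e0, g36_0]
                  · linarith only [e1, g20_1, g31_1, g32_0, g35_0, g36_0, h12, h17, h21, h28, h41, h44, s1]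
                  · linarith only [g20_1, g32_0, g36_0, h12, h13, h17, h21, s1]
                  · linarith only [g31_1, g35_0, g36_0, h24, h41, h44, s2]
                  · rcases kh35 with ⟨g37_0, g37_1⟩ | ⟨g37_0, g37_1⟩
                    · linarith only [g20_1, g31_1, g32_0, g36_0, g37_1, h17, h19, h24, h41, h44, h8, s2]
                    · rcases kh49 with g38_0 | g38_0 | g38_0 | g38_0 | g38_0
                      · linarith only [e0, g1_0, g38_0]
                      · linarith only [e0, g20_1, g32_0, g38_0, h12, h13, h21, h28, s1]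
                      · linarith only [g20_1, g32_0, g38_0, h2, s1]
                      · rcases kh32 with ⟨g39_0, g39_1⟩ | ⟨g39_0, g39_1⟩
                        · linarith only [g20_1, g32_0, g34_1, g38_0, g39_1, h21, h3, s1]
                        · linarith only [g20_1, g32_0, g34_1, g38_0, g39_1, h12, h17, h21, h28, s1]
                      · linarith only [g36_0, g37_1, g38_0, s3]
          · rcases kh53 with g40_0 | g40_0 | g40_0 | g40_0
            · rcases kh15 with ⟨g41_0, g41_1⟩ | ⟨g41_0, g41_1⟩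
              · linarith only [g40_0, g41_1]
              · linarith only [g30_1, g32_0, g40_0, g41_1, h12, h17, h18]
            · linarith only [g30_1, g32_0, g40_0, h13, h24, h31, s2]
            · linarith only [g1_0, g40_0]
            · rcases kh49 with g42_0 | g42_0 | g42_0 | g42_0 | g42_0
              · linarith only [e0, g30_1, g32_0, g42_0, h12, h17, h18, h2, h3]
              · linarith only [e0, g31_1, g32_0, g40_0, g42_0, h12, h2, h24, h31, h44, s2]
              · rcases kh50 with g43_0 | g43_0 | g43_0 | g43_0 | g43_0 | g43_0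
                · linarith only [e0, g42_0, g43_0, h17, s1]
                · linarith only [g30_1, g32_0, g40_0, g42_0, g43_0, h17, h18, h19, h24, h26, h34, s1, s3]
                · linarith only [g30_1, g32_0, g43_0, h13, h24, h31, s2]
                · linarith only [g42_0, g43_0, h1, h17, s1]
                · linarith only [g30_1, g32_0, g40_0, g42_0, g43_0, h17, h19, h2, h24, h26, h34, s1, s3]
                · linarith only [g30_1, g32_0, g43_0, h13, h19, h24, h26, h34, s3]
              · linarith only [g30_1, g32_0, g42_0, s2]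
              · linarith only [g30_1, g32_0, g40_0, g42_0, h13, h14, h19, s3]
          · linarith only [g31_1, g32_0, h17, h18, h19, h24, h26, h34, h9, s3]
      · linarith only [g30_1, h14, h4, h41]
    · linarith only [g20_1, h14, h37, h4]

end Pool.Agent.Helper28.TQ
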