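import Pool.Agent.Helper89.TQ.Ctx

set_option autoImplicit false
set_option linter.all false

namespace Pool.Agent.Helper28.TQ
open Pool.Agent.Helper89.TQ

theorem c0_11_22_33_k3 {n1 n2 n3 A1 A2 A3 B1 B2 B3 m11_1 m11_2 m11_3 m13_1 m13_2 m13_3 m22_1 m22_2 m22_3 m23_1 m23_2 m23_3 m33_1 m33_2 m33_3 : ℤ}
    (C : Ctx0 n1 n2 n3 A1 A2 A3 B1 B2 B3 m11_1 m11_2 m11_3 m13_1 m13_2 m13_3 m22_1 m22_2 m22_3 m23_1 m23_2 m23_3 m33_1 m33_2 m33_3)
    (e0 : 0 < B1)
    (e1 : 0 < B2)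
    (e2 : 0 < A3)
    (s1 : 3 * A1 + 0 * B1 ≤ m11_1 + m22_1 + m33_1)
    (s2 : 3 * A2 + 0 * B2 ≤ m11_2 + m22_2 + m33_2)
    (s3 : 3 * A3 + 0 * B3 ≤ m11_3 + m22_3 + m33_3) : False := by
  have h2 := C.a2
  have h3 := C.a3
  have h4 := C.a4
  have h5 := C.a5
  have h7 := C.b1
  have h8 := C.b2
  have h9 := C.b3
  have h10 := C.b4
  have h11 := C.b5
  have h12 := C.o0
  have h13 := C.o1
  have h14 := C.o2
  have h17 := C.f11_0
  have h18 := C.f11_1
  have h19 := C.f11_2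
  have h20 := C.f22_0
  have h21 := C.f22_1
  have h23 := C.f22_3
  have h24 := C.f22_4
  have h26 := C.f22_6
  have h27 := C.f33_0
  have h28 := C.f33_1
  have h30 := C.f33_3
  have h31 := C.f33_4
  have h34 := C.f33_7
  have h36 := C.f13_0
  have h42 := C.f13_6
  have h43 := C.f13_7
  have h45 := C.f23_0
  have h46 := C.f23_1
  have h49 := C.f23_4
  have h50 := C.f23_5
  have h54 := C.f23_9
  have kh25 : (-n2 - m22_1 + m22_2 ≤ 0 ∧ n2 + m22_1 - m22_2 ≤ 0) ∨ (-B2 + m22_2 ≤ -1 ∧ B2 - m22_2 ≤ 1) := by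
    have q := C.f22_5
    clear * - q
    omega
  have kh29 : (-n1 + m33_1 ≤ 0 ∧ n1 - m33_1 ≤ 0) ∨ (-A3 + m33_1 ≤ -1 ∧ A3 - m33_1 ≤ 1) := by
    have q := C.f33_2
    clear * - q
    omega
  have kh32 : (-n2 - m33_1 + m33_2 ≤ 0 ∧ n2 + m33_1 - m33_2 ≤ 0) ∨ (-A3 + m33_2 ≤ -1 ∧ A3 - m33_2 ≤ 1) := by
    have q := C.f33_5
    clear * - q
    omega
  have kh35 : (-n3 - m33_2 + m33_3 ≤ 0 ∧ n3 + m33_2 - m33_3 ≤ 0) ∨ (-A3 + m33_3 ≤ -1 ∧ A3 - m33_3 ≤ 1) := by
    have q := C.f33_8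
    clear * - q
    omega
  have kh38 : (-A1 + m13_1 ≤ -1 ∧ A1 - m13_1 ≤ 1) ∨ (-B3 + m13_1 ≤ -1 ∧ B3 - m13_1 ≤ 1) := by
    have q := C.f13_2
    clear * - q
    omega
  have kh41 : (-n2 - m13_1 + m13_2 ≤ 0 ∧ n2 + m13_1 - m13_2 ≤ 0) ∨ (-B3 + m13_2 ≤ -1 ∧ B3 - m13_2 ≤ 1) := by
    have q := C.f13_5
    clear * - q
    omega
  have kh44 : (-n3 - m13_2 + m13_3 ≤ 0 ∧ n3 + m13_2 - m13_3 ≤ 0) ∨ (-B3 + m13_3 ≤ -1 ∧ B3 - m13_3 ≤ 1) := by
    have q := C.f13_8
    clear * - q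
    omega
  have kh48 : (-n1 + m23_1 ≤ 0 ∧ n1 - m23_1 ≤ 0) ∨ (-A2 + m23_1 ≤ -1 ∧ A2 - m23_1 ≤ 1) ∨ (-B3 + m23_1 ≤ -1 ∧ B3 - m23_1 ≤ 1) := by
    have q := C.f23_3
    clear * - q
    omega
  have kh52 : (-n2 - m23_1 + m23_2 ≤ 0 ∧ n2 + m23_1 - m23_2 ≤ 0) ∨ (-A2 + m23_2 ≤ -1 ∧ A2 - m23_2 ≤ 1) ∨ (-B3 + m23_2 ≤ -1 ∧ B3 - m23_2 ≤ 1) := by
    have q := C.f23_7
    clear * - q
    omega
  have kh55 : (-n3 - m23_2 + m23_3 ≤ 0 ∧ n3 + m23_2 - m23_3 ≤ 0) ∨ (-B3 + m23_3 ≤ -1 ∧ B3 - m23_3 ≤ 1) := by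
    have q := C.f23_10
    clear * - q
    omega
  have kh56 : (B1 ≤ 0) ∨ (A3 ≤ 0) ∨ (-2 * A1 + m11_1 + m33_1 ≤ -1) ∨ (-2 * A2 + m11_2 + m33_2 ≤ -1) ∨ (-2 * A3 + m11_3 + m33_3 ≤ -1) := by
    have q := C.p11_33A
    clear * - q
    omega
  have kh57 : (B1 ≤ 0) ∨ (B2 ≤ 0) ∨ (-2 * B1 + m11_1 + m22_1 ≤ -1) ∨ (-2 * B2 + m11_2 + m22_2 ≤ -1) ∨ (-2 * B3 + m11_3 + m22_3 ≤ -1) := by
    have q := C.p11_22B
    clear * - q
    omega
  have kh58 : (B2 ≤ 0) ∨ (A3 ≤ 0) ∨ (-2 * A1 + m22_1 + m33_1 ≤ -1) ∨ (-2 * A2 + m22_2 + m33_2 ≤ -1) ∨ (-2 * A3 + m22_3 + m33_3 ≤ -1) := by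
    have q := C.p22_33A
    clear * - q
    omega
  have kh59 : (A1 ≤ 0) ∨ (B3 ≤ 0) ∨ (B2 ≤ 0) ∨ (-2 * A1 + m13_1 + m22_1 ≤ -1) ∨ (-2 * A2 + m13_2 + m22_2 ≤ -1) ∨ (-2 * A3 + m13_3 + m22_3 ≤ -1) := by
    have q := C.p13_22A
    clear * - q
    omega
  have kh60 : (A1 ≤ 0) ∨ (B3 ≤ 0) ∨ (A2 ≤ 0) ∨ (-2 * A1 + m13_1 + m23_1 ≤ -1) ∨ (-2 * A2 + m13_2 + m23_2 ≤ -1) ∨ (-2 * A3 + m13_3 + m23_3 ≤ -1) := by
    have q := C.p13_23A
    clear * - q
    omega
  clear C
  rcases kh38 with ⟨g1_0, g1_1⟩ | ⟨g1_0, g1_1⟩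
  · rcases kh35 with ⟨g2_0, g2_1⟩ | ⟨g2_0, g2_1⟩
    · rcases kh32 with ⟨g3_0, g3_1⟩ | ⟨g3_0, g3_1⟩
      · rcases kh29 with ⟨g4_0, g4_1⟩ | ⟨g4_0, g4_1⟩
        · linarith only [g2_1, g3_1, g4_1, h11, h14, h34, h7, h9]
        · linarith only [g2_1, g3_1, g4_1, h11, h12, h14, h17, h21, h31, h34, h9, s1]
      · linarith only [g2_1, g3_1, h11, h13, h14, h34, h4]
    · rcases kh56 with g5_0 | g5_0 | g5_0 | g5_0 | g5_0
      · linarith only [e0, g5_0]
      · linarith only [e0, g5_0, h13, h4, h8]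
      · rcases kh25 with ⟨g6_0, g6_1⟩ | ⟨g6_0, g6_1⟩
        · linarith only [g5_0, g6_1, h13, h18, h24, h30, s1, s2]
        · rcases kh44 with ⟨g7_0, g7_1⟩ | ⟨g7_0, g7_1⟩
          · rcases kh41 with ⟨g8_0, g8_1⟩ | ⟨g8_0, g8_1⟩
            · linarith only [g1_1, g5_0, g7_1, g8_1, h11, h13, h18, h24, h30, h43, s2]
            · linarith only [g7_1, g8_1, h11, h13, h14, h4, h43]
          · rcases kh59 with g9_0 | g9_0 | g9_0 | g9_0 | g9_0 | g9_0
            · linarith only [e0, g9_0, h12]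
            · linarith only [e0, g5_0, g9_0, h10, h12, h21, s1]
            · linarith only [e0, g5_0, g9_0, h12, h21, s1]
            · linarith only [g1_1, g5_0, g9_0, s1]
            · rcases kh41 with ⟨g10_0, g10_1⟩ | ⟨g10_0, g10_1⟩
              · rcases kh29 with ⟨g11_0, g11_1⟩ | ⟨g11_0, g11_1⟩
                · rcases kh48 with ⟨g12_0, g12_1⟩ | ⟨g12_0, g12_1⟩ | ⟨g12_0, g12_1⟩
                  · rcases kh52 with ⟨g13_0, g13_1⟩ | ⟨g13_0, g13_1⟩ | ⟨g13_0, g13_1⟩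
                    · linarith only [g12_1, g13_1, h17, h20, h27, h3, h50, h7, s1]
                    · rcases kh60 with g14_0 | g14_0 | g14_0 | g14_0 | g14_0 | g14_0
                      · linarith only [e0, g11_1, g14_0, g5_0, h17, h20, s1]
                      · linarith only [e0, g14_0, h10, h8]
                      · linarith only [e0, g12_1, g14_0, g5_0, h12, h20, h46, s1]
                      · linarith only [g12_1, g14_0, g1_1, h17, h20, h27, h7, s1]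
                      · rcases kh58 with g15_0 | g15_0 | g15_0 | g15_0 | g15_0
                        · linarith only [e0, g15_0, h8]
                        · linarith only [e0, g10_1, g11_1, g15_0, g1_1, g6_1, g9_0, h12, h20, h23, h28, h4, h8]
                        · linarith only [g11_1, g15_0, g5_0, h20, s1]
                        · linarith only [g10_1, g11_1, g13_1, g14_0, g15_0, g1_1, g5_0, h18, h20, s1, s2]
                        · linarith only [g10_1, g13_1, g14_0, g15_0, g1_1, g2_1, g5_0, h12, h17, h18, h19, h26, h30, s2, s3]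
                      · rcases kh55 with ⟨g16_0, g16_1⟩ | ⟨g16_0, g16_1⟩
                        · linarith only [g13_1, g14_0, g16_1, g6_1, g7_1, g9_0, h11, h14, h42]
                        · linarith only [g14_0, g16_1, g7_1, h14]
                    · linarith only [g13_1, h14, h4, h50]
                  · rcases kh52 with ⟨g17_0, g17_1⟩ | ⟨g17_0, g17_1⟩ | ⟨g17_0, g17_1⟩
                    · linarith only [g10_1, g12_1, g17_1, g1_1, g5_0, g6_1, g9_0, h21, h3, h50, s1]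
                    · rcases kh58 with g18_0 | g18_0 | g18_0 | g18_0 | g18_0
                      · linarith only [e0, g11_1, g18_0, g5_0, h17, h21, h7, s1]
                      · linarith only [e0, g10_1, g11_1, g12_1, g18_0, g1_1, g6_1, g9_0, h12, h20, h23, h28, h45, h8]
                      · linarith only [g10_1, g11_1, g12_1, g18_0, g1_1, g5_0, g6_1, g9_0, h21, h3, h45, s1]
                      · linarith only [g10_1, g11_1, g12_1, g18_0, g1_1, g5_0, g6_1, g9_0, h18, h21, h45, s1, s2]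
                      · rcases kh55 with ⟨g19_0, g19_1⟩ | ⟨g19_0, g19_1⟩
                        · linarith only [g10_1, g11_1, g12_1, g17_1, g18_0, g19_1, g1_1, g2_1, g5_0, g6_1, g9_0, h11, h18, h19, h21, h26, h45, h54, s1, s3]
                        · rcases kh60 with g20_0 | g20_0 | g20_0 | g20_0 | g20_0 | g20_0
                          · linarith only [e0, g20_0, h12]
                          · linarith only [e0, g11_1, g20_0, h14, h28, h7]
                          · linarith only [e0, g10_1, g17_1, g1_1, g20_0, g6_1, g9_0, h12, h46, h49, h8]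
                          · linarith only [g10_1, g12_1, g18_0, g1_1, g20_0, g2_1, g5_0, g6_1, g9_0, h12, h17, h18, h19, h21, h26, s1, s3]
                          · linarith only [g10_1, g11_1, g12_1, g17_1, g18_0, g1_1, g20_0, g2_1, g5_0, g6_1, h18, h19, h21, h26, h45, s1, s3]
                          · linarith only [g19_1, g20_0, g7_1, h14]
                    · linarith only [g11_1, g12_1, g17_1, h14, h28, h45, h50]
                  · linarith only [g11_1, g12_1, h14, h28, h45]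
                · linarith only [g10_1, g11_1, g1_1, g5_0, g6_1, g9_0, h12, h18, h21, h31, h9, s1, s2]
              · rcases kh57 with g21_0 | g21_0 | g21_0 | g21_0 | g21_0
                · linarith only [e0, g21_0]
                · linarith only [e0, g21_0, g5_0, h12, h21, s1]
                · linarith only [g21_0, g5_0, h12, h17, s1]
                · linarith only [g10_1, g21_0, g6_1, g9_0, h10, h14, h31, s2]
                · linarith only [g10_1, g21_0, g6_1, g9_0, h11, h19, h26, h31, h5, s2]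
            · linarith only [g6_1, g7_1, g9_0, h11, h14, h26]
      · linarith only [g5_0, h13, h24, s2]
      · linarith only [g2_1, g5_0, h17, h18, h19, h24, h26, h9, s3]
  · linarith only [g1_1, h14, h2, h36, h4]

end Pool.Agent.Helper28.TQ
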