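import Pool.Agent.Helper89.TQ.Ctx

set_option autoImplicit false
set_option linter.all false

namespace Pool.Agent.Helper28.TQ
open Pool.Agent.Helper89.TQ

theorem c0_11_23_33_k1 {n1 n2 n3 A1 A2 A3 B1 B2 B3 m11_1 m11_2 m11_3 m13_1 m13_2 m13_3 m22_1 m22_2 m22_3 m23_1 m23_2 m23_3 m33_1 m33_2 m33_3 : ℤ}
    (C : Ctx0 n1 n2 n3 A1 A2 A3 B1 B2 B3 m11_1 m11_2 m11_3 m13_1 m13_2 m13_3 m22_1 m22_2 m22_3 m23_1 m23_2 m23_3 m33_1 m33_2 m33_3)
    (e0 : 0 < B1)
    (e1 : 0 < A2)
    (e2 : 0 < B3)
    (e3 : 0 < A3)
    (s1 : 1 * A1 + 2 * B1 ≤ m11_1 + m23_1 + m33_1)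
    (s2 : 1 * A2 + 2 * B2 ≤ m11_2 + m23_2 + m33_2)
    (s3 : 1 * A3 + 2 * B3 ≤ m11_3 + m23_3 + m33_3) : False := by
  have h1 := C.a1
  have h2 := C.a2
  have h3 := C.a3
  have h4 := C.a4
  have h5 := C.a5
  have h7 := C.b1
  have h8 := C.b2
  have h9 := C.b3
  have h11 := C.b5
  have h12 := C.o0
  have h13 := C.o1
  have h14 := C.o2
  have h17 := C.f11_0
  have h18 := C.f11_1
  have h19 := C.f11_2
  have h20 := C.f23_0
  have h21 := C.f23_1
  have h24 := C.f23_4
  have h25 := C.f23_5
  have h26 := C.f23_6
  have h28 := C.f23_8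
  have h29 := C.f23_9
  have h31 := C.f33_0
  have h32 := C.f33_1
  have h35 := C.f33_4
  have h38 := C.f33_7
  have h42 := C.f13_0
  have h45 := C.f13_3
  have h49 := C.f13_7
  have h51 := C.f22_0
  have h52 := C.f22_1
  have h55 := C.f22_4
  have h57 := C.f22_6
  have kh15 : (-A1 ≤ -1 ∧ -n2 - A1 + A2 ≤ -1) ∨ (-B1 ≤ -1 ∧ -n2 - B1 + B2 ≤ -1) := by
    have q := C.t12
    clear * - q
    omega
  have kh16 : (A1 - A2 ≤ -1 ∧ -n3 - A2 + A3 ≤ -1) ∨ (B1 - B2 ≤ -1 ∧ -n3 - B2 + B3 ≤ -1) := by
    have q := C.t23
    clear * - q
    omega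
  have kh23 : (-n1 + m23_1 ≤ 0 ∧ n1 - m23_1 ≤ 0) ∨ (-A2 + m23_1 ≤ -1 ∧ A2 - m23_1 ≤ 1) ∨ (-B3 + m23_1 ≤ -1 ∧ B3 - m23_1 ≤ 1) := by
    have q := C.f23_3
    clear * - q
    omega
  have kh33 : (-n1 + m33_1 ≤ 0 ∧ n1 - m33_1 ≤ 0) ∨ (-A3 + m33_1 ≤ -1 ∧ A3 - m33_1 ≤ 1) := by
    have q := C.f33_2
    clear * - q
    omega
  have kh36 : (-n2 - m33_1 + m33_2 ≤ 0 ∧ n2 + m33_1 - m33_2 ≤ 0) ∨ (-A3 + m33_2 ≤ -1 ∧ A3 - m33_2 ≤ 1) := by
    have q := C.f33_5
    clear * - q
    omega
  have kh39 : (-n3 - m33_2 + m33_3 ≤ 0 ∧ n3 + m33_2 - m33_3 ≤ 0) ∨ (-A3 + m33_3 ≤ -1 ∧ A3 - m33_3 ≤ 1) := by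
    have q := C.f33_8
    clear * - q
    omega
  have kh40 : (B1 ≤ 0) ∨ (A2 ≤ 0) ∨ (B3 ≤ 0) ∨ (-2 * B1 + m11_1 + m23_1 ≤ -1) ∨ (-2 * B2 + m11_2 + m23_2 ≤ -1) ∨ (-2 * B3 + m11_3 + m23_3 ≤ -1) := by
    have q := C.p11_23B
    clear * - q
    omega
  have kh41 : (n2 + A1 - A2 ≤ 0) ∨ (-A2 + A3 ≤ 1) ∨ (-B1 + B2 ≤ 0) ∨ (n3 + B2 - B3 ≤ 1) := by
    have q := C.tzmp
    clear * - q
    omega
  have kh44 : (-A1 + m13_1 ≤ -1 ∧ A1 - m13_1 ≤ 1) ∨ (-B3 + m13_1 ≤ -1 ∧ B3 - m13_1 ≤ 1) := by
    have q := C.f13_2
    clear * - q
    omega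
  have kh47 : (-n2 - m13_1 + m13_2 ≤ 0 ∧ n2 + m13_1 - m13_2 ≤ 0) ∨ (-B3 + m13_2 ≤ -1 ∧ B3 - m13_2 ≤ 1) := by
    have q := C.f13_5
    clear * - q
    omega
  have kh50 : (-n3 - m13_2 + m13_3 ≤ 0 ∧ n3 + m13_2 - m13_3 ≤ 0) ∨ (-B3 + m13_3 ≤ -1 ∧ B3 - m13_3 ≤ 1) := by
    have q := C.f13_8
    clear * - q
    omega
  have kh53 : (-n1 + m22_1 ≤ 0 ∧ n1 - m22_1 ≤ 0) ∨ (-B2 + m22_1 ≤ -1 ∧ B2 - m22_1 ≤ 1) := by
    have q := C.f22_2
    clear * - q
    omega
  have kh56 : (-n2 - m22_1 + m22_2 ≤ 0 ∧ n2 + m22_1 - m22_2 ≤ 0) ∨ (-B2 + m22_2 ≤ -1 ∧ B2 - m22_2 ≤ 1) := by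
    have q := C.f22_5
    clear * - q
    omega
  have kh59 : (B1 ≤ 0) ∨ (A1 ≤ 0) ∨ (B3 ≤ 0) ∨ (-2 * B1 + m11_1 + m13_1 ≤ -1) ∨ (-2 * B2 + m11_2 + m13_2 ≤ -1) ∨ (-2 * B3 + m11_3 + m13_3 ≤ -1) := by
    have q := C.p11_13B
    clear * - q
    omega
  have kh61 : (B1 ≤ 0) ∨ (B2 ≤ 0) ∨ (-2 * B1 + m11_1 + m22_1 ≤ -1) ∨ (-2 * B2 + m11_2 + m22_2 ≤ -1) ∨ (-2 * B3 + m11_3 + m22_3 ≤ -1) := by
    have q := C.p11_22B
    clear * - q
    omega
  have kh64 : (B1 ≤ 0) ∨ (A3 ≤ 0) ∨ (-2 * B1 + m11_1 + m33_1 ≤ -1) ∨ (-2 * B2 + m11_2 + m33_2 ≤ -1) ∨ (-2 * B3 + m11_3 + m33_3 ≤ -1) := by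
    have q := C.p11_33B
    clear * - q
    omega
  have kh69 : (A1 ≤ 0) ∨ (B3 ≤ 0) ∨ (A3 ≤ 0) ∨ (-2 * A1 + m13_1 + m33_1 ≤ -1) ∨ (-2 * A2 + m13_2 + m33_2 ≤ -1) ∨ (-2 * A3 + m13_3 + m33_3 ≤ -1) := by
    have q := C.p13_33A
    clear * - q
    omega
  have kh73 : (B2 ≤ 0) ∨ (A3 ≤ 0) ∨ (-2 * A1 + m22_1 + m33_1 ≤ -1) ∨ (-2 * A2 + m22_2 + m33_2 ≤ -1) ∨ (-2 * A3 + m22_3 + m33_3 ≤ -1) := by
    have q := C.p22_33A
    clear * - q
    omega
  have kh79 : (-A1 + A2 ≤ 0) ∨ (n3 + A2 - A3 ≤ 1) ∨ (n2 + B1 - B2 ≤ 0) ∨ (-B2 + B3 ≤ 1) ∨ (-A2 + B2 ≤ -1 ∧ -A3 + B3 ≤ 1) := by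
    have q := C.tzpm
    clear * - q
    omega
  have kh80 : (A1 ≤ 0) ∨ (n2 + A1 - A2 ≤ 1) ∨ (n1 - B1 ≤ 0) ∨ (-B1 + B2 ≤ 1) ∨ (-A3 + B3 ≤ 1) := by
    have q := C.tpmm
    clear * - q
    omega
  have kh82 : (A1 ≤ 0) ∨ (n2 + A1 - A2 ≤ 0) ∨ (n3 + A2 - A3 ≤ 0) ∨ (n1 - B1 ≤ 0) ∨ (-B1 + B2 ≤ 0) ∨ (-B2 + B3 ≤ 0) ∨ (-A3 + B3 ≤ 1) ∨ (A1 - B1 ≤ 1 ∧ A2 - B2 ≤ 0) := by
    have q := C.tpzm
    clear * - q
    omega
  clear C
  rcases kh44 with ⟨g1_0, g1_1⟩ | ⟨g1_0, g1_1⟩
  · rcases kh50 with ⟨g2_0, g2_1⟩ | ⟨g2_0, g2_1⟩
    · rcases kh47 with ⟨g3_0, g3_1⟩ | ⟨g3_0, g3_1⟩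
      · linarith only [g1_1, g2_1, g3_1, h12, h17, h18, h19, h25, h28, h3, h38, h49, s3]
      · linarith only [g2_1, g3_1, h11, h13, h14, h4, h49]
    · rcases kh33 with ⟨g4_0, g4_1⟩ | ⟨g4_0, g4_1⟩
      · rcases kh64 with g5_0 | g5_0 | g5_0 | g5_0 | g5_0
        · linarith only [e0, g5_0]
        · linarith only [e0, g4_1, g5_0, h12, h17, h20, h32, s1]
        · linarith only [g4_1, g5_0, h12, h17, h20, s1]
        · linarith only [g5_0, h25, s2]
        · rcases kh39 with ⟨g6_0, g6_1⟩ | ⟨g6_0, g6_1⟩
          · linarith only [g5_0, g6_1, h11, h19, h25, s2]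
          · rcases kh47 with ⟨g7_0, g7_1⟩ | ⟨g7_0, g7_1⟩
            · rcases kh53 with ⟨g8_0, g8_1⟩ | ⟨g8_0, g8_1⟩
              · rcases kh56 with ⟨g9_0, g9_1⟩ | ⟨g9_0, g9_1⟩
                · linarith only [g8_1, g9_1, h12, h17, h20, h31, h55, h9, s1]
                · rcases kh61 with g10_0 | g10_0 | g10_0 | g10_0 | g10_0
                  · linarith only [e0, g10_0]
                  · linarith only [e0, g10_0, g8_1, h12, h17, h20, h31, h52, s1]
                  · linarith only [g10_0, g8_1, h12, h17, h20, h31, s1]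
                  · rcases kh73 with g11_0 | g11_0 | g11_0 | g11_0 | g11_0
                    · linarith only [e0, g11_0, g8_1, h12, h17, h20, h31, h52, s1]
                    · linarith only [e0, g11_0, g4_1, h12, h17, h20, h32, s1]
                    · linarith only [g11_0, g4_1, g8_1, h1]
                    · rcases kh79 with g12_0 | g12_0 | g12_0 | g12_0 | ⟨g12_0, g12_1⟩
                      · linarith only [g10_0, g11_0, g12_0, g8_1, g9_1, h1, h25, h52, s2]
                      · linarith only [g10_0, g11_0, g12_0, g9_1, h14, h19, h25, h29, h38, s2, s3]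
                      · rcases kh15 with ⟨g13_0, g13_1⟩ | ⟨g13_0, g13_1⟩
                        · rcases kh59 with g14_0 | g14_0 | g14_0 | g14_0 | g14_0 | g14_0
                          · linarith only [e0, g14_0]
                          · linarith only [e0, g10_0, g11_0, g14_0, g9_1, h17, h18, h25, h3, s2]
                          · linarith only [e0, g10_0, g11_0, g14_0, g8_1, g9_1, h1, h17, h18, h26, h3, h52, s2]
                          · linarith only [g10_0, g11_0, g12_0, g13_1, g14_0, g1_1, g9_1, h17, h25, s2]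
                          · linarith only [g11_0, g13_1, g14_0, g1_1, g7_1, g9_1, h17, h18, h25, h9, s2]
                          · linarith only [g14_0, g2_1, h29, h38, s3]
                        · linarith only [g12_0, g13_1]
                      · linarith only [g10_0, g12_0, g9_1, h14, h25, h35, s2]
                      · linarith only [g12_1, g5_0, h29, s3]
                    · linarith only [g11_0, g5_0, g6_1, g9_1, h11, h29, h57, s3]
                  · linarith only [g10_0, g9_1, h11, h29, h38, h57, s3]
              · rcases kh23 with ⟨g15_0, g15_1⟩ | ⟨g15_0, g15_1⟩ | ⟨g15_0, g15_1⟩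
                · rcases kh79 with g16_0 | g16_0 | g16_0 | g16_0 | ⟨g16_0, g16_1⟩
                  · linarith only [g15_1, g16_0, h1, h21]
                  · linarith only [g16_0, g5_0, h25, h28, s3]
                  · rcases kh15 with ⟨g17_0, g17_1⟩ | ⟨g17_0, g17_1⟩
                    · rcases kh41 with g18_0 | g18_0 | g18_0 | g18_0
                      · linarith only [g17_1, g18_0]
                      · rcases kh40 with g19_0 | g19_0 | g19_0 | g19_0 | g19_0 | g19_0
                        · linarith only [e0, g19_0]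
                        · linarith only [e0, g16_0, g18_0, g19_0, g4_1, h17, h18, h20, h25, h3, h32, h35, s1, s2]
                        · linarith only [e0, g19_0, g4_1, g5_0, g6_1, h18, h19, h20, h3, h32, h5, s1]
                        · linarith only [g15_1, g16_0, g18_0, g19_0, h1, h18, h25, h3, h35, s2]
                        · linarith only [g18_0, g19_0, h35, s2]
                        · linarith only [g19_0, h38, s3]
                      · linarith only [g15_1, g16_0, g18_0, h1, h21, h3]
                      · linarith only [g16_0, g18_0, h17, h18, h19, h29, h38, s3]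
                    · linarith only [g16_0, g17_1]
                  · linarith only [g16_0, g4_1, g5_0, g6_1, g8_1, h19, h25, h26, h28, h32, h35, h51, s2, s3]
                  · linarith only [g16_1, g5_0, h29, s3]
                · rcases kh16 with ⟨g20_0, g20_1⟩ | ⟨g20_0, g20_1⟩
                  · rcases kh79 with g21_0 | g21_0 | g21_0 | g21_0 | ⟨g21_0, g21_1⟩
                    · linarith only [g20_0, g21_0]
                    · linarith only [g21_0, g5_0, h25, h28, s3]
                    · rcases kh15 with ⟨g22_0, g22_1⟩ | ⟨g22_0, g22_1⟩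
                      · rcases kh41 with g23_0 | g23_0 | g23_0 | g23_0
                        · linarith only [g22_1, g23_0]
                        · rcases kh40 with g24_0 | g24_0 | g24_0 | g24_0 | g24_0 | g24_0
                          · linarith only [e0, g24_0]
                          · linarith only [e0, g21_0, g23_0, g24_0, g4_1, g8_1, h17, h20, h3, h32, h51, s1]
                          · linarith only [e0, g24_0, g4_1, g5_0, g6_1, h18, h19, h20, h3, h32, h5, s1]
                          · linarith only [g15_1, g20_0, g24_0, h12, h17]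
                          · linarith only [g23_0, g24_0, h35, s2]
                          · linarith only [g24_0, h38, s3]
                        · linarith only [g20_0, g21_0, g23_0, h3]
                        · linarith only [g21_0, g23_0, h17, h18, h19, h29, h38, s3]
                      · linarith only [g21_0, g22_1]
                    · linarith only [g21_0, g4_1, g5_0, g6_1, g8_1, h19, h25, h26, h28, h32, h35, h51, s2, s3]
                    · linarith only [g21_1, g5_0, h29, s3]
                  · rcases kh79 with g25_0 | g25_0 | g25_0 | g25_0 | ⟨g25_0, g25_1⟩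
                    · rcases kh82 with g26_0 | g26_0 | g26_0 | g26_0 | g26_0 | g26_0 | g26_0 | ⟨g26_0, g26_1⟩
                      · linarith only [e0, g25_0, g26_0, h13, h8]
                      · linarith only [g20_0, g25_0, g26_0, h9]
                      · linarith only [g26_0, g5_0, h25, h28, s3]
                      · linarith only [g26_0, h12, h17, h20, h31, s1]
                      · linarith only [g20_0, g26_0]
                      · linarith only [g26_0, g4_1, g5_0, g6_1, g8_1, h19, h26, h32, h35, h5, h51, s2]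
                      · linarith only [g26_0, g5_0, h29, s3]
                      · rcases kh69 with g27_0 | g27_0 | g27_0 | g27_0 | g27_0 | g27_0
                        · linarith only [e0, g25_0, g27_0, h13, h8]
                        · linarith only [e0, g27_0, g4_1, g5_0, g6_1, h18, h19, h20, h3, h32, h5, s1]
                        · linarith only [e0, g27_0, g4_1, h12, h17, h20, h32, s1]
                        · linarith only [g1_1, g25_0, g26_0, g27_0, h17, h21, s1]
                        · linarith only [g1_1, g25_0, g26_0, g27_0, g7_1, h17, h18, h25, h8, s2]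
                        · linarith only [g27_0, g2_1, g5_0, g6_1, h29, s3]
                    · linarith only [g25_0, g5_0, h25, h28, s3]
                    · rcases kh15 with ⟨g28_0, g28_1⟩ | ⟨g28_0, g28_1⟩
                      · rcases kh41 with g29_0 | g29_0 | g29_0 | g29_0
                        · linarith only [g28_1, g29_0]
                        · rcases kh40 with g30_0 | g30_0 | g30_0 | g30_0 | g30_0 | g30_0
                          · linarith only [e0, g30_0]
                          · linarith only [e0, g25_0, g29_0, g30_0, g4_1, h17, h18, h20, h25, h3, h32, h35, s1, s2]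
                          · linarith only [e0, g30_0, g4_1, g5_0, g6_1, h18, h19, h20, h3, h32, h5, s1]
                          · linarith only [g15_1, g20_0, g25_0, g29_0, g30_0, h18, h25, h35, s2]
                          · linarith only [g29_0, g30_0, h35, s2]
                          · linarith only [g30_0, h38, s3]
                        · linarith only [g20_0, g29_0]
                        · linarith only [g25_0, g29_0, h17, h18, h19, h29, h38, s3]
                      · linarith only [g25_0, g28_1]
                    · linarith only [g25_0, g4_1, g5_0, g6_1, g8_1, h19, h25, h26, h28, h32, h35, h51, s2, s3]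
                    · linarith only [g25_1, g5_0, h29, s3]
                · linarith only [g15_1, g4_1, g5_0, h20, h29, h32, s3]
            · rcases kh80 with g31_0 | g31_0 | g31_0 | g31_0 | g31_0
              · linarith only [e0, g31_0, h12]
              · linarith only [g31_0, g5_0, g7_1, h29, h4, h42, h45, s3]
              · linarith only [g31_0, h12, h17, h20, h31, s1]
              · rcases kh79 with g32_0 | g32_0 | g32_0 | g32_0 | ⟨g32_0, g32_1⟩
                · rcases kh16 with ⟨g33_0, g33_1⟩ | ⟨g33_0, g33_1⟩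
                  · linarith only [g32_0, g33_0]
                  · rcases kh40 with g34_0 | g34_0 | g34_0 | g34_0 | g34_0 | g34_0
                    · linarith only [e0, g34_0]
                    · linarith only [e0, g34_0, h12, h2]
                    · linarith only [e0, g34_0, g5_0, g6_1, h11, h12, h17, h18, h19, h2, h25, h3, h35, h4, s2]
                    · linarith only [g31_0, g33_1, g34_0, g5_0, g6_1, g7_1, h17, h18, h19, h32, h42, h45, s1]
                    · linarith only [g31_0, g34_0, g5_0, g6_1, g7_1, h17, h18, h19, h2, h28, h35, h42, h45, s2, s3]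
                    · linarith only [g34_0, h38, s3]
                · linarith only [g31_0, g32_0, g5_0, h11, h12, h2, h29, s3]
                · linarith only [g31_0, g32_0, g4_1, g5_0, g7_1, h1, h29, h32, h42, h45, s3]
                · linarith only [g31_0, g32_0, g5_0, g6_1, h12, h17, h19, h21, h26, h28, h32, h35, s1, s2, s3]
                · linarith only [g32_1, g5_0, h29, s3]
              · linarith only [g31_0, g5_0, h29, s3]
      · rcases kh64 with g35_0 | g35_0 | g35_0 | g35_0 | g35_0
        · linarith only [e0, g35_0]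
        · linarith only [e0, g35_0, h12, h2, h4]
        · linarith only [g35_0, g4_1, h12, h17, h21, h4, s1]
        · linarith only [g35_0, h25, s2]
        · rcases kh39 with ⟨g36_0, g36_1⟩ | ⟨g36_0, g36_1⟩
          · linarith only [g35_0, g36_1, h11, h19, h25, s2]
          · rcases kh16 with ⟨g37_0, g37_1⟩ | ⟨g37_0, g37_1⟩
            · rcases kh79 with g38_0 | g38_0 | g38_0 | g38_0 | ⟨g38_0, g38_1⟩
              · linarith only [g37_0, g38_0]
              · linarith only [g35_0, g38_0, h11, h13, h29, s3]
              · rcases kh15 with ⟨g39_0, g39_1⟩ | ⟨g39_0, g39_1⟩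
                · rcases kh41 with g40_0 | g40_0 | g40_0 | g40_0
                  · linarith only [g39_1, g40_0]
                  · rcases kh40 with g41_0 | g41_0 | g41_0 | g41_0 | g41_0 | g41_0
                    · linarith only [e0, g41_0]
                    · linarith only [e0, g38_0, g41_0, h13, h2, h3]
                    · linarith only [e0, g35_0, g36_1, g41_0, h11, h18, h19, h21, h25, h3, h32, h35, s1, s2]
                    · linarith only [g38_0, g40_0, g41_0, h18, h24, h35, s2]
                    · linarith only [g40_0, g41_0, h35, s2]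
                    · linarith only [g41_0, h38, s3]
                  · linarith only [g37_0, g38_0, g40_0, h3]
                  · linarith only [g38_0, g40_0, h17, h18, h19, h29, h38, s3]
                · linarith only [g38_0, g39_1]
              · linarith only [g35_0, g36_1, g38_0, h11, h19, h25, h35, s2]
              · linarith only [g35_0, g38_1, h29, s3]
            · rcases kh36 with ⟨g42_0, g42_1⟩ | ⟨g42_0, g42_1⟩
              · linarith only [g37_0, g42_1, g4_1, h35, h9]
              · rcases kh56 with ⟨g43_0, g43_1⟩ | ⟨g43_0, g43_1⟩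
                · rcases kh53 with ⟨g44_0, g44_1⟩ | ⟨g44_0, g44_1⟩
                  · linarith only [g43_1, g44_1, g4_1, h12, h17, h18, h2, h20, h25, h3, h31, h35, h55, s1, s2]
                  · linarith only [g37_0, g43_1, g44_1, h55, h9]
                · rcases kh23 with ⟨g45_0, g45_1⟩ | ⟨g45_0, g45_1⟩ | ⟨g45_0, g45_1⟩
                  · rcases kh40 with g46_0 | g46_0 | g46_0 | g46_0 | g46_0 | g46_0
                    · linarith only [e0, g46_0]
                    · linarith only [e0, g45_1, g46_0, h21, h7]
                    · linarith only [e0, g35_0, g36_1, g46_0, h11, h12, h17, h18, h19, h21, h24, h32, h35, h4, s1, s2]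
                    · linarith only [g45_1, g46_0, h12, h17, h31, s1]
                    · linarith only [g45_1, g46_0, g4_1, h21, h31, h35, s2]
                    · linarith only [g46_0, h38, s3]
                  · rcases kh79 with g47_0 | g47_0 | g47_0 | g47_0 | ⟨g47_0, g47_1⟩
                    · rcases kh53 with ⟨g48_0, g48_1⟩ | ⟨g48_0, g48_1⟩
                      · linarith only [g47_0, g48_1, h1, h13, h52]
                      · rcases kh82 with g49_0 | g49_0 | g49_0 | g49_0 | g49_0 | g49_0 | g49_0 | ⟨g49_0, g49_1⟩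
                        · linarith only [e0, g49_0, h12]
                        · linarith only [g37_0, g47_0, g49_0, h9]
                        · linarith only [g35_0, g49_0, h11, h13, h29, s3]
                        · linarith only [g49_0, h12, h17, h20, h31, s1]
                        · linarith only [g37_0, g49_0]
                        · linarith only [g35_0, g36_1, g49_0, h11, h19, h25, h35, s2]
                        · linarith only [g35_0, g49_0, h29, s3]
                        · rcases kh73 with g50_0 | g50_0 | g50_0 | g50_0 | g50_0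
                          · linarith only [e0, g49_1, g50_0, h12, h2]
                          · linarith only [e0, g50_0, h12, h2, h4]
                          · linarith only [g48_1, g49_0, g49_1, g50_0, h17, h21, s1]
                          · linarith only [g37_0, g42_1, g43_1, g47_0, g49_0, g50_0, h17, h21, h32, s1]
                          · linarith only [g35_0, g36_1, g43_1, g50_0, h11, h29, h57, s3]
                    · linarith only [g35_0, g47_0, h11, h13, h29, s3]
                    · rcases kh15 with ⟨g51_0, g51_1⟩ | ⟨g51_0, g51_1⟩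
                      · rcases kh41 with g52_0 | g52_0 | g52_0 | g52_0
                        · linarith only [g51_1, g52_0]
                        · rcases kh40 with g53_0 | g53_0 | g53_0 | g53_0 | g53_0 | g53_0
                          · linarith only [e0, g53_0]
                          · linarith only [e0, g47_0, g53_0, h13, h2, h3]
                          · linarith only [e0, g35_0, g36_1, g53_0, h11, h18, h19, h21, h25, h3, h32, h35, s1, s2]
                          · linarith only [g37_0, g45_1, g47_0, g52_0, g53_0, h18, h25, h35, s2]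
                          · linarith only [g52_0, g53_0, h35, s2]
                          · linarith only [g53_0, h38, s3]
                        · linarith only [g37_0, g52_0]
                        · linarith only [g47_0, g52_0, h17, h18, h19, h29, h38, s3]
                      · linarith only [g47_0, g51_1]
                    · linarith only [g35_0, g36_1, g47_0, h11, h19, h25, h35, s2]
                    · linarith only [g35_0, g47_1, h29, s3]
                  · linarith only [g35_0, g45_1, h21, h29, h4, s3]
  · linarith only [g1_1, h14, h2, h4, h42]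

end Pool.Agent.Helper28.TQ
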