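import Pool.Agent.Helper89.TQ.Ctx

set_option autoImplicit false
set_option linter.all false

namespace Pool.Agent.Helper28.TQ
open Pool.Agent.Helper89.TQ

theorem c0_11_23_33_k3 {n1 n2 n3 A1 A2 A3 B1 B2 B3 m11_1 m11_2 m11_3 m13_1 m13_2 m13_3 m22_1 m22_2 m22_3 m23_1 m23_2 m23_3 m33_1 m33_2 m33_3 : ℤ}
    (C : Ctx0 n1 n2 n3 A1 A2 A3 B1 B2 B3 m11_1 m11_2 m11_3 m13_1 m13_2 m13_3 m22_1 m22_2 m22_3 m23_1 m23_2 m23_3 m33_1 m33_2 m33_3)
    (e0 : 0 < B1)
    (e1 : 0 < A2)
    (e2 : 0 < B3)
    (e3 : 0 < A3)
    (s1 : 3 * A1 + 0 * B1 ≤ m11_1 + m23_1 + m33_1)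
    (s2 : 3 * A2 + 0 * B2 ≤ m11_2 + m23_2 + m33_2)
    (s3 : 3 * A3 + 0 * B3 ≤ m11_3 + m23_3 + m33_3) : F1 n1 n2 n3 A1 A2 A3 B1 B2 B3 ∨ F2 n1 n2 n3 A1 A2 A3 B1 B2 B3 := by
  by_contra hcon
  unfold F1 F2 at hcon
  have h0 := C.a0
  have h2 := C.a2
  have h3 := C.a3
  have h4 := C.a4
  have h5 := C.a5
  have h7 := C.b1
  have h8 := C.b2
  have h9 := C.b3
  have h10 := C.b4
  have h11 := C.b5
  have h12 := C.o0
  have h13 := C.o1
  have h14 := C.o2
  have h17 := C.f11_0
  have h18 := C.f11_1
  have h19 := C.f11_2
  have h20 := C.f23_0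
  have h21 := C.f23_1
  have h22 := C.f23_2
  have h24 := C.f23_4
  have h25 := C.f23_5
  have h26 := C.f23_6
  have h28 := C.f23_8
  have h29 := C.f23_9
  have h31 := C.f33_0
  have h32 := C.f33_1
  have h34 := C.f33_3
  have h35 := C.f33_4
  have h38 := C.f33_7
  have h40 := C.f13_0
  have h46 := C.f13_6
  have h47 := C.f13_7
  have h50 := C.f22_1
  have h53 := C.f22_4
  have h55 := C.f22_6
  have kh27 : (-n2 - m23_1 + m23_2 ≤ 0 ∧ n2 + m23_1 - m23_2 ≤ 0) ∨ (-A2 + m23_2 ≤ -1 ∧ A2 - m23_2 ≤ 1) ∨ (-B3 + m23_2 ≤ -1 ∧ B3 - m23_2 ≤ 1) := by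
    have q := C.f23_7
    clear * - q
    omega
  have kh30 : (-n3 - m23_2 + m23_3 ≤ 0 ∧ n3 + m23_2 - m23_3 ≤ 0) ∨ (-B3 + m23_3 ≤ -1 ∧ B3 - m23_3 ≤ 1) := by
    have q := C.f23_10
    clear * - q
    omega
  have kh33 : (-n1 + m33_1 ≤ 0 ∧ n1 - m33_1 ≤ 0) ∨ (-A3 + m33_1 ≤ -1 ∧ A3 - m33_1 ≤ 1) := by
    have q := C.f33_2
    clear * - q
    omega
  have kh36 : (-n2 - m33_1 + m33_2 ≤ 0 ∧ n2 + m33_1 - m33_2 ≤ 0) ∨ (-A3 + m33_2 ≤ -1 ∧ A3 - m33_2 ≤ 1) := by
    have q := C.f33_5
    clear * - q
    omega
  have kh39 : (-n3 - m33_2 + m33_3 ≤ 0 ∧ n3 + m33_2 - m33_3 ≤ 0) ∨ (-A3 + m33_3 ≤ -1 ∧ A3 - m33_3 ≤ 1) := by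
    have q := C.f33_8
    clear * - q
    omega
  have kh42 : (-A1 + m13_1 ≤ -1 ∧ A1 - m13_1 ≤ 1) ∨ (-B3 + m13_1 ≤ -1 ∧ B3 - m13_1 ≤ 1) := by
    have q := C.f13_2
    clear * - q
    omega
  have kh45 : (-n2 - m13_1 + m13_2 ≤ 0 ∧ n2 + m13_1 - m13_2 ≤ 0) ∨ (-B3 + m13_2 ≤ -1 ∧ B3 - m13_2 ≤ 1) := by
    have q := C.f13_5
    clear * - q
    omega
  have kh48 : (-n3 - m13_2 + m13_3 ≤ 0 ∧ n3 + m13_2 - m13_3 ≤ 0) ∨ (-B3 + m13_3 ≤ -1 ∧ B3 - m13_3 ≤ 1) := by
    have q := C.f13_8
    clear * - q
    omega
  have kh51 : (-n1 + m22_1 ≤ 0 ∧ n1 - m22_1 ≤ 0) ∨ (-B2 + m22_1 ≤ -1 ∧ B2 - m22_1 ≤ 1) := by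
    have q := C.f22_2
    clear * - q
    omega
  have kh54 : (-n2 - m22_1 + m22_2 ≤ 0 ∧ n2 + m22_1 - m22_2 ≤ 0) ∨ (-B2 + m22_2 ≤ -1 ∧ B2 - m22_2 ≤ 1) := by
    have q := C.f22_5
    clear * - q
    omega
  have kh56 : (B1 ≤ 0) ∨ (A2 ≤ 0) ∨ (B3 ≤ 0) ∨ (-2 * B1 + m11_1 + m23_1 ≤ -1) ∨ (-2 * B2 + m11_2 + m23_2 ≤ -1) ∨ (-2 * B3 + m11_3 + m23_3 ≤ -1) := by
    have q := C.p11_23B
    clear * - q
    omega
  have kh57 : (B1 ≤ 0) ∨ (A3 ≤ 0) ∨ (-2 * A1 + m11_1 + m33_1 ≤ -1) ∨ (-2 * A2 + m11_2 + m33_2 ≤ -1) ∨ (-2 * A3 + m11_3 + m33_3 ≤ -1) := by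
    have q := C.p11_33A
    clear * - q
    omega
  have kh58 : (A2 ≤ 0) ∨ (B3 ≤ 0) ∨ (A3 ≤ 0) ∨ (-2 * A1 + m23_1 + m33_1 ≤ -1) ∨ (-2 * A2 + m23_2 + m33_2 ≤ -1) ∨ (-2 * A3 + m23_3 + m33_3 ≤ -1) := by
    have q := C.p23_33A
    clear * - q
    omega
  have kh59 : (n2 + A1 - A2 ≤ 0) ∨ (-A2 + A3 ≤ 1) ∨ (-B1 + B2 ≤ 0) ∨ (n3 + B2 - B3 ≤ 1) := by
    have q := C.tzmp
    clear * - q
    omega
  have kh61 : (A1 ≤ 0) ∨ (B3 ≤ 0) ∨ (A2 ≤ 0) ∨ (-2 * A1 + m13_1 + m23_1 ≤ -1) ∨ (-2 * A2 + m13_2 + m23_2 ≤ -1) ∨ (-2 * A3 + m13_3 + m23_3 ≤ -1) := by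
    have q := C.p13_23A
    clear * - q
    omega
  have kh62 : (B2 ≤ 0) ∨ (A3 ≤ 0) ∨ (-2 * A1 + m22_1 + m33_1 ≤ -1) ∨ (-2 * A2 + m22_2 + m33_2 ≤ -1) ∨ (-2 * A3 + m22_3 + m33_3 ≤ -1) := by
    have q := C.p22_33A
    clear * - q
    omega
  have kF1 : (n1 - A1 ≤ 0) ∨ (-n1 + 2 * A1 ≤ 0) ∨ (n2 ≤ 2) ∨ (-2 * n1 + n3 + 2 * A1 ≤ 2) ∨ (-n2 - A1 + A2 ≤ -2) ∨ (n2 + A1 - A2 ≤ 0) ∨ (n1 - n3 - A1 - A2 + A3 ≤ -2) ∨ (-n1 + n3 + A1 + A2 - A3 ≤ 0) ∨ (n1 - 2 * A1 + B1 ≤ -1) ∨ (-n1 + 2 * A1 - B1 ≤ -1) ∨ (-n2 - B1 + B2 ≤ -2) ∨ (n2 + B1 - B2 ≤ 0) ∨ (-n3 - B2 + B3 ≤ -1) ∨ (n3 + B2 - B3 ≤ -1) := by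
    clear * - hcon
    omega
  clear C
  rcases kh42 with ⟨g1_0, g1_1⟩ | ⟨g1_0, g1_1⟩
  · rcases kh39 with ⟨g2_0, g2_1⟩ | ⟨g2_0, g2_1⟩
    · rcases kh36 with ⟨g3_0, g3_1⟩ | ⟨g3_0, g3_1⟩
      · rcases kh33 with ⟨g4_0, g4_1⟩ | ⟨g4_0, g4_1⟩
        · linarith only [g2_1, g3_1, g4_1, h11, h14, h38, h7, h9]
        · linarith only [g2_1, g3_1, g4_1, h11, h12, h14, h17, h22, h38, h9, s1]
      · linarith only [g2_1, g3_1, h11, h13, h14, h38, h4]
    · rcases kh57 with g5_0 | g5_0 | g5_0 | g5_0 | g5_0
      · linarith only [e0, g5_0]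
      · linarith only [e0, g5_0, h13, h4, h8]
      · rcases kh27 with ⟨g6_0, g6_1⟩ | ⟨g6_0, g6_1⟩ | ⟨g6_0, g6_1⟩
        · linarith only [g5_0, g6_1, h25, h3, s1]
        · rcases kh51 with ⟨g7_0, g7_1⟩ | ⟨g7_0, g7_1⟩
          · rcases kh54 with ⟨g8_0, g8_1⟩ | ⟨g8_0, g8_1⟩
            · linarith only [g5_0, g7_1, g8_1, h13, h18, h20, h24, h34, h53, s1, s2]
            · rcases kh48 with ⟨g9_0, g9_1⟩ | ⟨g9_0, g9_1⟩
              · rcases kh45 with ⟨g10_0, g10_1⟩ | ⟨g10_0, g10_1⟩
                · linarith only [g10_1, g1_1, g5_0, g9_1, h11, h13, h18, h25, h34, h47, s2]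
                · linarith only [g10_1, g9_1, h11, h13, h14, h4, h47]
              · rcases kh33 with ⟨g11_0, g11_1⟩ | ⟨g11_0, g11_1⟩
                · rcases kh61 with g12_0 | g12_0 | g12_0 | g12_0 | g12_0 | g12_0
                  · linarith only [e0, g11_1, g12_0, g5_0, h17, h20, s1]
                  · linarith only [e0, g12_0, g7_1, h10, h50, h7]
                  · linarith only [e0, g11_1, g12_0, g5_0, h17, h2, h7]
                  · linarith only [g12_0, g1_1, g5_0, s1]
                  · rcases kh45 with ⟨g13_0, g13_1⟩ | ⟨g13_0, g13_1⟩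
                    · rcases kh59 with g14_0 | g14_0 | g14_0 | g14_0
                      · linarith only [g12_0, g13_1, g14_0, g1_1, g5_0, h18, h34, s2]
                      · linarith only [g11_1, g12_0, g13_1, g14_0, g1_1, g5_0, h18, h20, h35, s1, s2]
                      · linarith only [g11_1, g14_0, g5_0, g7_1, h17, h20, h50, s1]
                      · rcases kh58 with g15_0 | g15_0 | g15_0 | g15_0 | g15_0 | g15_0
                        · linarith only [e0, g11_1, g15_0, g5_0, h17, h21, h7, s1]
                        · linarith only [e0, g11_1, g15_0, g5_0, g6_1, h17, h21, h26, h7, s1]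
                        · linarith only [e0, g11_1, g15_0, g5_0, h17, h21, h4, h7, s1]
                        · linarith only [g15_0, h12, h17, s1]
                        · linarith only [g12_0, g13_1, g15_0, g1_1, g6_1, h12, h17, h18, s2]
                        · rcases kh30 with ⟨g16_0, g16_1⟩ | ⟨g16_0, g16_1⟩
                          · linarith only [g11_1, g12_0, g13_1, g15_0, g16_1, g1_1, g2_1, g5_0, g6_1, h18, h19, h20, s1, s3]
                          · rcases kh62 with g17_0 | g17_0 | g17_0 | g17_0 | g17_0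
                            · linarith only [e0, g17_0, g5_0, g7_1, h12, h20, h50, s1]
                            · linarith only [e0, g11_1, g12_0, g13_1, g14_0, g15_0, g16_1, g17_0, g1_1, g2_1, g5_0, h17, h18, h19, h28, h35, h7, h8, s2, s3]
                            · linarith only [g17_0, g7_1, h12, h17, h20, s1]
                            · rcases kh56 with g18_0 | g18_0 | g18_0 | g18_0 | g18_0 | g18_0
                              · linarith only [e0, g18_0]
                              · linarith only [e0, g11_1, g18_0, g5_0, h17, h21, h7, s1]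
                              · linarith only [e0, g12_0, g14_0, g16_1, g18_0, g9_1, h14, h28, h4, h46, h8]
                              · linarith only [g11_1, g18_0, g5_0, h17, h7, s1]
                              · linarith only [g12_0, g13_1, g17_0, g18_0, g1_1, g8_1, h12, h17, h18, s2]
                              · linarith only [g16_1, g17_0, g18_0, g8_1, h11, h19, h25, s2]
                            · rcases kh56 with g19_0 | g19_0 | g19_0 | g19_0 | g19_0 | g19_0
                              · linarith only [e0, g19_0]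
                              · linarith only [e0, g11_1, g12_0, g13_1, g17_0, g19_0, g1_1, g2_1, g5_0, g8_1, h18, h19, h21, h28, h55, h7, h8, s1, s3]
                              · linarith only [e0, g12_0, g14_0, g16_1, g19_0, g9_1, h14, h28, h4, h46, h8]
                              · linarith only [g11_1, g19_0, g5_0, h17, h7, s1]
                              · linarith only [g12_0, g13_1, g17_0, g19_0, g1_1, g2_1, g6_1, g8_1, h11, h12, h17, h18, h19, h29, h55, s3]
                              · rcases kF1 with g20_0 | g20_0 | g20_0 | g20_0 | g20_0 | g20_0 | g20_0 | g20_0 | g20_0 | g20_0 | g20_0 | g20_0 | g20_0 | g20_0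
                                · linarith only [g16_1, g19_0, g20_0, h11, h12, h18, h19, h20, h31, h9, s1]
                                · linarith only [e0, g11_1, g20_0, g5_0, h17]
                                · linarith only [g20_0, g7_1, h12, h17, h20, h31, h50, h9, s1]
                                · linarith only [g11_1, g12_0, g13_1, g1_1, g20_0, g5_0, g6_1, h11, h17, h18, h19, h29, h35, h38, h9, s2, s3]
                                · linarith only [g12_0, g13_1, g1_1, g20_0, g6_1]
                                · linarith only [g16_1, g19_0, g20_0, g5_0, h11, h17, h19, h25, h34, h9, s2]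
                                · linarith only [g12_0, g13_1, g15_0, g16_1, g19_0, g1_1, g20_0, g2_1, h19, h31, h34, s2]
                                · linarith only [g11_1, g12_0, g13_1, g15_0, g1_1, g20_0, g5_0, g6_1, h18, h19, s3]
                                · linarith only [g12_0, g13_1, g1_1, g20_0, g6_1, h17, h18, h31, h34, s2]
                                · linarith only [g11_1, g20_0, g5_0, h17]
                                · linarith only [g16_1, g19_0, g20_0, h11, h17, h18, h19]
                                · linarith only [g15_0, g17_0, g20_0, g2_1, g8_1, h17, h18, h19, h55, s3]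
                                · linarith only [g17_0, g19_0, g20_0, g2_1, g8_1, h55, s3]
                                · linarith only [g20_0, h11]
                    · rcases kh56 with g21_0 | g21_0 | g21_0 | g21_0 | g21_0 | g21_0
                      · linarith only [e0, g21_0]
                      · linarith only [e0, g21_0, g5_0, h12, h21, s1]
                      · linarith only [e0, g21_0, g7_1, h10, h50, h7]
                      · linarith only [g11_1, g21_0, g5_0, h17, h7, s1]
                      · linarith only [g12_0, g13_1, g21_0, g6_1, h13, h14, h35, s2]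
                      · rcases kh30 with ⟨g22_0, g22_1⟩ | ⟨g22_0, g22_1⟩
                        · linarith only [g12_0, g13_1, g21_0, g22_1, g6_1, h11, h13, h19, h35, h5, s2]
                        · linarith only [g12_0, g13_1, g21_0, g22_1, h19, h35, h5, s2]
                  · rcases kh30 with ⟨g23_0, g23_1⟩ | ⟨g23_0, g23_1⟩
                    · linarith only [g12_0, g23_1, g6_1, g9_1, h11, h13, h14]
                    · linarith only [g12_0, g23_1, g9_1, h14]
                · rcases kh56 with g24_0 | g24_0 | g24_0 | g24_0 | g24_0 | g24_0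
                  · linarith only [e0, g24_0]
                  · linarith only [e0, e3, g11_1, g24_0, g5_0, h17, h2]
                  · linarith only [e3, g11_1, g24_0, g7_1, h10, h31, h50]
                  · linarith only [g24_0, g5_0, h12, h17, s1]
                  · linarith only [g11_1, g24_0, g7_1, h13, h31, h35, h50, s2]
                  · rcases kh30 with ⟨g25_0, g25_1⟩ | ⟨g25_0, g25_1⟩
                    · linarith only [g11_1, g24_0, g25_1, g7_1, h11, h13, h19, h31, h35, h50, s2]
                    · linarith only [g11_1, g24_0, g25_1, g7_1, h11, h13, h19, h25, h31, h35, h50, s2]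
          · rcases kh54 with ⟨g26_0, g26_1⟩ | ⟨g26_0, g26_1⟩
            · linarith only [g26_1, g5_0, g7_1, h21, h3, h53, s1]
            · rcases kh48 with ⟨g27_0, g27_1⟩ | ⟨g27_0, g27_1⟩
              · rcases kh45 with ⟨g28_0, g28_1⟩ | ⟨g28_0, g28_1⟩
                · linarith only [g1_1, g27_1, g28_1, g5_0, h11, h13, h18, h25, h34, h47, s2]
                · linarith only [g27_1, g28_1, h11, h13, h14, h4, h47]
              · rcases kh30 with ⟨g29_0, g29_1⟩ | ⟨g29_0, g29_1⟩
                · rcases kh61 with g30_0 | g30_0 | g30_0 | g30_0 | g30_0 | g30_0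
                  · linarith only [e0, g30_0, h12]
                  · linarith only [e0, g30_0, h10, h8]
                  · linarith only [g30_0, g5_0, h0, h21, s1]
                  · linarith only [g1_1, g30_0, g5_0, s1]
                  · rcases kh45 with ⟨g31_0, g31_1⟩ | ⟨g31_0, g31_1⟩
                    · rcases kh58 with g32_0 | g32_0 | g32_0 | g32_0 | g32_0 | g32_0
                      · linarith only [e0, g32_0, g5_0, h12, h21, s1]
                      · linarith only [e3, g1_1, g29_1, g30_0, g31_1, g32_0, g6_1, h0, h10, h17, h18, h19, h29, h38, h8, s3]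
                      · linarith only [e0, g32_0, h13, h4, h8]
                      · linarith only [g32_0, h12, h17, s1]
                      · linarith only [g1_1, g30_0, g31_1, g32_0, g6_1, h12, h17, h18, s2]
                      · linarith only [g1_1, g29_1, g2_1, g30_0, g31_1, g32_0, g6_1, h12, h17, h18, h19, s3]
                    · rcases kh56 with g33_0 | g33_0 | g33_0 | g33_0 | g33_0 | g33_0
                      · linarith only [e0, g33_0]
                      · linarith only [e0, g33_0, g5_0, h12, h21, s1]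
                      · linarith only [e0, g29_1, g33_0, g5_0, g6_1, h10, h11, h12, h21, h29, s1]
                      · linarith only [g33_0, g5_0, h12, h17, s1]
                      · linarith only [g30_0, g31_1, g33_0, g6_1, h13, h14, h35, s2]
                      · linarith only [g29_1, g30_0, g31_1, g33_0, g6_1, h11, h13, h19, h35, h5, s2]
                  · linarith only [g27_1, g29_1, g30_0, g6_1, h11, h13, h14]
                · rcases kh61 with g34_0 | g34_0 | g34_0 | g34_0 | g34_0 | g34_0
                  · linarith only [e0, g34_0, h12]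
                  · linarith only [e0, g34_0, h10, h8]
                  · linarith only [e0, g34_0, h13, h8]
                  · linarith only [g1_1, g34_0, g5_0, s1]
                  · rcases kh56 with g35_0 | g35_0 | g35_0 | g35_0 | g35_0 | g35_0
                    · linarith only [e0, g35_0]
                    · linarith only [e0, g35_0, g5_0, h12, h21, s1]
                    · linarith only [e0, g35_0, h10, h8]
                    · linarith only [g35_0, g5_0, h12, h17, s1]
                    · rcases kh45 with ⟨g36_0, g36_1⟩ | ⟨g36_0, g36_1⟩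
                      · rcases kh62 with g37_0 | g37_0 | g37_0 | g37_0 | g37_0
                        · linarith only [e0, g35_0, g37_0, g5_0, g6_1, h12, h17, h18, h21, h3, s1]
                        · linarith only [e0, g37_0, g5_0, h12, h21, h4, s1]
                        · linarith only [g35_0, g37_0, g6_1, g7_1, h12, h17, h18, h21, h3, s1]
                        · linarith only [g1_1, g26_1, g34_0, g35_0, g36_1, g37_0, h12, h17, h18, s2]
                        · linarith only [g1_1, g26_1, g2_1, g34_0, g35_0, g36_1, g37_0, g6_1, h11, h12, h17, h18, h19, h29, h55, s3]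
                      · linarith only [g34_0, g35_0, g36_1, g6_1, h13, h14, h35, s2]
                    · rcases kh45 with ⟨g38_0, g38_1⟩ | ⟨g38_0, g38_1⟩
                      · rcases kh33 with ⟨g39_0, g39_1⟩ | ⟨g39_0, g39_1⟩
                        · rcases kh62 with g40_0 | g40_0 | g40_0 | g40_0 | g40_0
                          · linarith only [e0, g29_1, g35_0, g40_0, g5_0, h11, h17, h18, h19, h21, h3, s1]
                          · linarith only [e0, g27_1, g29_1, g34_0, g35_0, g40_0, h17, h18, h19, h21, h28, h3, h32, h4, h46, s1]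
                          · linarith only [g29_1, g35_0, g40_0, g7_1, h11, h18, h19, h21, h3, s1]
                          · linarith only [g26_1, g29_1, g35_0, g40_0, h11, h19, h25, s2]
                          · rcases kF1 with g41_0 | g41_0 | g41_0 | g41_0 | g41_0 | g41_0 | g41_0 | g41_0 | g41_0 | g41_0 | g41_0 | g41_0 | g41_0 | g41_0
                            · linarith only [g41_0, h12, h17, h20, h31, s1]
                            · linarith only [e0, g39_1, g41_0, g5_0, h17]
                            · linarith only [g29_1, g35_0, g41_0, g5_0, h11, h17, h19, h21, h25, h34, h9, s1, s2]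
                            · linarith only [g1_1, g34_0, g38_1, g39_1, g41_0, g5_0, g6_1, h11, h17, h18, h19, h29, h35, h38, h9, s2, s3]
                            · linarith only [g1_1, g34_0, g38_1, g41_0, g6_1]
                            · linarith only [g29_1, g35_0, g41_0, g5_0, h11, h17, h19, h25, h34, h9, s2]
                            · linarith only [g1_1, g26_1, g29_1, g2_1, g34_0, g35_0, g38_1, g40_0, g41_0, h11, h19, h31, h34, h55, s2]
                            · linarith only [g1_1, g34_0, g38_1, g39_1, g41_0, g5_0, g6_1, h11, h17, h18, h19, h29, h38, h9, s3]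
                            · linarith only [g1_1, g34_0, g38_1, g41_0, g6_1, h17, h18, h31, h34, s2]
                            · linarith only [g39_1, g41_0, g5_0, h17]
                            · linarith only [g29_1, g35_0, g41_0, h11, h17, h18, h19]
                            · linarith only [g26_1, g2_1, g40_0, g41_0, h11, h17, h18, h19, h29, h55, s3]
                            · linarith only [g26_1, g2_1, g35_0, g40_0, g41_0, h55, s3]
                            · linarith only [g41_0, h11]
                        · linarith only [g1_1, g29_1, g34_0, g35_0, g38_1, g39_1, g5_0, h11, h17, h19, h21, h35, h9, s1, s2]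
                      · linarith only [g29_1, g34_0, g35_0, g38_1, h11, h13, h19, h35, h38, s2, s3]
                  · linarith only [g27_1, g29_1, g34_0, h14]
        · linarith only [g6_1, h14, h25, h4]
      · linarith only [g5_0, h25, s2]
      · linarith only [g2_1, g5_0, h11, h17, h18, h19, h29, h9, s3]
  · linarith only [g1_1, h10, h14, h17, h22, h32, h40, h8, s1]

end Pool.Agent.Helper28.TQ
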