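import Pool.Agent.Helper89.TQ.Ctx

set_option autoImplicit false
set_option linter.all false

namespace Pool.Agent.Helper28.TQ
open Pool.Agent.Helper89.TQ

theorem c0_11_33_33_k2 {n1 n2 n3 A1 A2 A3 B1 B2 B3 m11_1 m11_2 m11_3 m13_1 m13_2 m13_3 m22_1 m22_2 m22_3 m23_1 m23_2 m23_3 m33_1 m33_2 m33_3 : ℤ}
    (C : Ctx0 n1 n2 n3 A1 A2 A3 B1 B2 B3 m11_1 m11_2 m11_3 m13_1 m13_2 m13_3 m22_1 m22_2 m22_3 m23_1 m23_2 m23_3 m33_1 m33_2 m33_3)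
    (e0 : 0 < B1)
    (e1 : 0 < A3)
    (s1 : 2 * A1 + 1 * B1 ≤ m11_1 + m33_1 + m33_1)
    (s2 : 2 * A2 + 1 * B2 ≤ m11_2 + m33_2 + m33_2)
    (s3 : 2 * A3 + 1 * B3 ≤ m11_3 + m33_3 + m33_3) : False := by
  have h2 := C.a2
  have h3 := C.a3
  have h4 := C.a4
  have h8 := C.b2
  have h9 := C.b3
  have h11 := C.b5
  have h12 := C.o0
  have h13 := C.o1
  have h14 := C.o2
  have h17 := C.f11_0
  have h18 := C.f11_1
  have h19 := C.f11_2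
  have h21 := C.f33_1
  have h24 := C.f33_4
  have h27 := C.f33_7
  have h29 := C.f13_0
  have h35 := C.f13_6
  have h36 := C.f13_7
  have kh28 : (-n3 - m33_2 + m33_3 ≤ 0 ∧ n3 + m33_2 - m33_3 ≤ 0) ∨ (-A3 + m33_3 ≤ -1 ∧ A3 - m33_3 ≤ 1) := by
    have q := C.f33_8
    clear * - q
    omega
  have kh31 : (-A1 + m13_1 ≤ -1 ∧ A1 - m13_1 ≤ 1) ∨ (-B3 + m13_1 ≤ -1 ∧ B3 - m13_1 ≤ 1) := by
    have q := C.f13_2
    clear * - q
    omega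
  have kh34 : (-n2 - m13_1 + m13_2 ≤ 0 ∧ n2 + m13_1 - m13_2 ≤ 0) ∨ (-B3 + m13_2 ≤ -1 ∧ B3 - m13_2 ≤ 1) := by
    have q := C.f13_5
    clear * - q
    omega
  have kh37 : (-n3 - m13_2 + m13_3 ≤ 0 ∧ n3 + m13_2 - m13_3 ≤ 0) ∨ (-B3 + m13_3 ≤ -1 ∧ B3 - m13_3 ≤ 1) := by
    have q := C.f13_8
    clear * - q
    omega
  have kh38 : (B1 ≤ 0) ∨ (A3 ≤ 0) ∨ (-2 * B1 + m11_1 + m33_1 ≤ -1) ∨ (-2 * B2 + m11_2 + m33_2 ≤ -1) ∨ (-2 * B3 + m11_3 + m33_3 ≤ -1) := by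
    have q := C.p11_33B
    clear * - q
    omega
  have kh39 : (-A1 + A2 ≤ 0) ∨ (n3 + A2 - A3 ≤ 1) ∨ (n2 + B1 - B2 ≤ 0) ∨ (-B2 + B3 ≤ 1) ∨ (-A2 + B2 ≤ -1 ∧ -A3 + B3 ≤ 1) := by
    have q := C.tzpm
    clear * - q
    omega
  have kh43 : (A1 ≤ 0) ∨ (B3 ≤ 0) ∨ (A3 ≤ 0) ∨ (-2 * A1 + m13_1 + m33_1 ≤ -1) ∨ (-2 * A2 + m13_2 + m33_2 ≤ -1) ∨ (-2 * A3 + m13_3 + m33_3 ≤ -1) := by
    have q := C.p13_33A
    clear * - q
    omega
  clear C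
  rcases kh31 with ⟨g1_0, g1_1⟩ | ⟨g1_0, g1_1⟩
  · rcases kh38 with g2_0 | g2_0 | g2_0 | g2_0 | g2_0
    · linarith only [e0, g2_0]
    · linarith only [e0, g2_0, h13, h4, h8]
    · linarith only [g2_0, h12, h17, s1]
    · linarith only [g2_0, h13, h17, h18, h9, s2]
    · rcases kh28 with ⟨g3_0, g3_1⟩ | ⟨g3_0, g3_1⟩
      · linarith only [g2_0, g3_1, h11, h13, h17, h18, h19, h9, s2]
      · rcases kh37 with ⟨g4_0, g4_1⟩ | ⟨g4_0, g4_1⟩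
        · rcases kh34 with ⟨g5_0, g5_1⟩ | ⟨g5_0, g5_1⟩
          · linarith only [g1_1, g4_1, g5_1, h12, h17, h18, h19, h27, h36, s3]
          · linarith only [g2_0, g4_1, g5_1, h11, h13, h17, h18, h19, h36, h4, h9, s3]
        · rcases kh43 with g6_0 | g6_0 | g6_0 | g6_0 | g6_0 | g6_0
          · linarith only [e0, g6_0, h12]
          · linarith only [e0, g2_0, g6_0, h11, h13, h17, h18, h19, h21, h3, h4, h8, s1, s3]
          · linarith only [e0, g6_0, h13, h4, h8]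
          · linarith only [g1_1, g6_0, h17, s1]
          · rcases kh34 with ⟨g7_0, g7_1⟩ | ⟨g7_0, g7_1⟩
            · rcases kh39 with g8_0 | g8_0 | g8_0 | g8_0 | ⟨g8_0, g8_1⟩
              · linarith only [g1_1, g6_0, g7_1, g8_0, h17, h18, h3, h8, s2]
              · linarith only [g1_1, g2_0, g4_1, g6_0, g7_1, g8_0, h11, h12, h17, h18, h27, h35, s2, s3]
              · linarith only [g1_1, g6_0, g7_1, g8_0, h17, h18, h3, s2]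
              · linarith only [g1_1, g2_0, g4_1, g6_0, g7_1, g8_0, h12, h19, h35, h4, h9, s2, s3]
              · linarith only [g2_0, g8_1, h27, s3]
            · linarith only [g2_0, g3_1, g6_0, g7_1, h11, h19, h24, s2]
          · linarith only [g2_0, g4_1, g6_0, s3]
  · linarith only [g1_1, h14, h2, h29, h4]

end Pool.Agent.Helper28.TQ
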