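import Pool.Agent.Helper89.TQ.Ctx

set_option autoImplicit false
set_option linter.all false

namespace Pool.Agent.Helper28.TQ
open Pool.Agent.Helper89.TQ

theorem c0_11_33_33_k3 {n1 n2 n3 A1 A2 A3 B1 B2 B3 m11_1 m11_2 m11_3 m13_1 m13_2 m13_3 m22_1 m22_2 m22_3 m23_1 m23_2 m23_3 m33_1 m33_2 m33_3 : ℤ}
    (C : Ctx0 n1 n2 n3 A1 A2 A3 B1 B2 B3 m11_1 m11_2 m11_3 m13_1 m13_2 m13_3 m22_1 m22_2 m22_3 m23_1 m23_2 m23_3 m33_1 m33_2 m33_3)
    (e0 : 0 < B1)
    (e1 : 0 < A3)
    (s1 : 3 * A1 + 0 * B1 ≤ m11_1 + m33_1 + m33_1)
    (s2 : 3 * A2 + 0 * B2 ≤ m11_2 + m33_2 + m33_2)
    (s3 : 3 * A3 + 0 * B3 ≤ m11_3 + m33_3 + m33_3) : False := by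
  have h0 := C.a0
  have h2 := C.a2
  have h3 := C.a3
  have h4 := C.a4
  have h5 := C.a5
  have h7 := C.b1
  have h8 := C.b2
  have h9 := C.b3
  have h10 := C.b4
  have h11 := C.b5
  have h12 := C.o0
  have h13 := C.o1
  have h14 := C.o2
  have h17 := C.f11_0
  have h18 := C.f11_1
  have h19 := C.f11_2
  have h20 := C.f33_0
  have h21 := C.f33_1
  have h23 := C.f33_3
  have h24 := C.f33_4
  have h26 := C.f33_6
  have h27 := C.f33_7
  have h29 := C.f13_0
  have h32 := C.f13_3
  have h33 := C.f13_4
  have h35 := C.f13_6
  have h36 := C.f13_7
  have h38 := C.f22_0
  have h39 := C.f22_1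
  have h41 := C.f22_3
  have h42 := C.f22_4
  have h44 := C.f22_6
  have h46 := C.f23_1
  have h50 := C.f23_5
  have h53 := C.f23_8
  have h54 := C.f23_9
  have kh15 : (-A1 ≤ -1 ∧ -n2 - A1 + A2 ≤ -1) ∨ (-B1 ≤ -1 ∧ -n2 - B1 + B2 ≤ -1) := by
    have q := C.t12
    clear * - q
    omega
  have kh16 : (A1 - A2 ≤ -1 ∧ -n3 - A2 + A3 ≤ -1) ∨ (B1 - B2 ≤ -1 ∧ -n3 - B2 + B3 ≤ -1) := by
    have q := C.t23
    clear * - q
    omega
  have kh22 : (-n1 + m33_1 ≤ 0 ∧ n1 - m33_1 ≤ 0) ∨ (-A3 + m33_1 ≤ -1 ∧ A3 - m33_1 ≤ 1) := by
    have q := C.f33_2
    clear * - q
    omega
  have kh25 : (-n2 - m33_1 + m33_2 ≤ 0 ∧ n2 + m33_1 - m33_2 ≤ 0) ∨ (-A3 + m33_2 ≤ -1 ∧ A3 - m33_2 ≤ 1) := by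
    have q := C.f33_5
    clear * - q
    omega
  have kh28 : (-n3 - m33_2 + m33_3 ≤ 0 ∧ n3 + m33_2 - m33_3 ≤ 0) ∨ (-A3 + m33_3 ≤ -1 ∧ A3 - m33_3 ≤ 1) := by
    have q := C.f33_8
    clear * - q
    omega
  have kh31 : (-A1 + m13_1 ≤ -1 ∧ A1 - m13_1 ≤ 1) ∨ (-B3 + m13_1 ≤ -1 ∧ B3 - m13_1 ≤ 1) := by
    have q := C.f13_2
    clear * - q
    omega
  have kh34 : (-n2 - m13_1 + m13_2 ≤ 0 ∧ n2 + m13_1 - m13_2 ≤ 0) ∨ (-B3 + m13_2 ≤ -1 ∧ B3 - m13_2 ≤ 1) := by
    have q := C.f13_5
    clear * - q
    omega
  have kh37 : (-n3 - m13_2 + m13_3 ≤ 0 ∧ n3 + m13_2 - m13_3 ≤ 0) ∨ (-B3 + m13_3 ≤ -1 ∧ B3 - m13_3 ≤ 1) := by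
    have q := C.f13_8
    clear * - q
    omega
  have kh40 : (-n1 + m22_1 ≤ 0 ∧ n1 - m22_1 ≤ 0) ∨ (-B2 + m22_1 ≤ -1 ∧ B2 - m22_1 ≤ 1) := by
    have q := C.f22_2
    clear * - q
    omega
  have kh43 : (-n2 - m22_1 + m22_2 ≤ 0 ∧ n2 + m22_1 - m22_2 ≤ 0) ∨ (-B2 + m22_2 ≤ -1 ∧ B2 - m22_2 ≤ 1) := by
    have q := C.f22_5
    clear * - q
    omega
  have kh48 : (-n1 + m23_1 ≤ 0 ∧ n1 - m23_1 ≤ 0) ∨ (-A2 + m23_1 ≤ -1 ∧ A2 - m23_1 ≤ 1) ∨ (-B3 + m23_1 ≤ -1 ∧ B3 - m23_1 ≤ 1) := by
    have q := C.f23_3
    clear * - q
    omega
  have kh52 : (-n2 - m23_1 + m23_2 ≤ 0 ∧ n2 + m23_1 - m23_2 ≤ 0) ∨ (-A2 + m23_2 ≤ -1 ∧ A2 - m23_2 ≤ 1) ∨ (-B3 + m23_2 ≤ -1 ∧ B3 - m23_2 ≤ 1) := by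
    have q := C.f23_7
    clear * - q
    omega
  have kh55 : (-n3 - m23_2 + m23_3 ≤ 0 ∧ n3 + m23_2 - m23_3 ≤ 0) ∨ (-B3 + m23_3 ≤ -1 ∧ B3 - m23_3 ≤ 1) := by
    have q := C.f23_10
    clear * - q
    omega
  have kh56 : (B1 ≤ 0) ∨ (A3 ≤ 0) ∨ (-2 * B1 + m11_1 + m33_1 ≤ -1) ∨ (-2 * B2 + m11_2 + m33_2 ≤ -1) ∨ (-2 * B3 + m11_3 + m33_3 ≤ -1) := by
    have q := C.p11_33B
    clear * - q
    omega
  have kh57 : (B1 ≤ 0) ∨ (A3 ≤ 0) ∨ (-2 * A1 + m11_1 + m33_1 ≤ -1) ∨ (-2 * A2 + m11_2 + m33_2 ≤ -1) ∨ (-2 * A3 + m11_3 + m33_3 ≤ -1) := by
    have q := C.p11_33A
    clear * - q
    omega
  have kh58 : (-A1 + A2 ≤ 0) ∨ (n3 + A2 - A3 ≤ 1) ∨ (n2 + B1 - B2 ≤ 0) ∨ (-B2 + B3 ≤ 1) ∨ (-A2 + B2 ≤ -1 ∧ -A3 + B3 ≤ 1) := by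
    have q := C.tzpm
    clear * - q
    omega
  have kh59 : (A1 ≤ 0) ∨ (n2 + A1 - A2 ≤ 1) ∨ (-A2 + A3 ≤ 0) ∨ (n1 - B1 ≤ 0) ∨ (-B1 + B2 ≤ 1) ∨ (n3 + B2 - B3 ≤ 0) := by
    have q := C.tpmz
    clear * - q
    omega
  have kh60 : (A1 ≤ 0) ∨ (n2 + A1 - A2 ≤ 0) ∨ (n3 + A2 - A3 ≤ 0) ∨ (n1 - B1 ≤ 0) ∨ (-B1 + B2 ≤ 0) ∨ (-B2 + B3 ≤ 0) ∨ (-A3 + B3 ≤ 1) ∨ (A1 - B1 ≤ 1 ∧ A2 - B2 ≤ 0) := by
    have q := C.tpzm
    clear * - q
    omega
  have kh61 : (n1 - A1 ≤ 0) ∨ (-A1 + A2 ≤ 1) ∨ (B1 ≤ 0) ∨ (n2 + B1 - B2 ≤ 1) := by
    have q := C.tmpp
    clear * - q
    omega
  have kh62 : (n2 + A1 - A2 ≤ 0) ∨ (-A2 + A3 ≤ 1) ∨ (-B1 + B2 ≤ 0) ∨ (n3 + B2 - B3 ≤ 1) := by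
    have q := C.tzmp
    clear * - q
    omega
  have kh63 : (n1 - A1 ≤ 0) ∨ (-A1 + A2 ≤ 0) ∨ (-A2 + A3 ≤ 0) ∨ (B1 ≤ 0) ∨ (n2 + B1 - B2 ≤ 0) ∨ (n3 + B2 - B3 ≤ 0) := by
    have q := C.tmzp
    clear * - q
    omega
  have kh64 : (B1 ≤ 0) ∨ (A1 ≤ 0) ∨ (B3 ≤ 0) ∨ (-2 * B1 + m11_1 + m13_1 ≤ -1) ∨ (-2 * B2 + m11_2 + m13_2 ≤ -1) ∨ (-2 * B3 + m11_3 + m13_3 ≤ -1) := by
    have q := C.p11_13B
    clear * - q
    omega
  have kh65 : (B2 ≤ 0) ∨ (A3 ≤ 0) ∨ (-2 * A1 + m22_1 + m33_1 ≤ -1) ∨ (-2 * A2 + m22_2 + m33_2 ≤ -1) ∨ (-2 * A3 + m22_3 + m33_3 ≤ -1) := by
    have q := C.p22_33A
    clear * - q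
    omega
  have kh66 : (B1 ≤ 0) ∨ (B2 ≤ 0) ∨ (-2 * B1 + m11_1 + m22_1 ≤ -1) ∨ (-2 * B2 + m11_2 + m22_2 ≤ -1) ∨ (-2 * B3 + m11_3 + m22_3 ≤ -1) := by
    have q := C.p11_22B
    clear * - q
    omega
  have kh67 : (B1 ≤ 0) ∨ (A2 ≤ 0) ∨ (B3 ≤ 0) ∨ (-2 * B1 + m11_1 + m23_1 ≤ -1) ∨ (-2 * B2 + m11_2 + m23_2 ≤ -1) ∨ (-2 * B3 + m11_3 + m23_3 ≤ -1) := by
    have q := C.p11_23B
    clear * - q
    omega
  clear C
  rcases kh31 with ⟨g1_0, g1_1⟩ | ⟨g1_0, g1_1⟩
  · rcases kh56 with g2_0 | g2_0 | g2_0 | g2_0 | g2_0
    · linarith only [e0, g2_0]
    · linarith only [e0, g2_0, h12, h17, h21, s1]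
    · linarith only [g2_0, h12, h17, s1]
    · linarith only [g2_0, h13, h17, h18, h9, s2]
    · rcases kh28 with ⟨g3_0, g3_1⟩ | ⟨g3_0, g3_1⟩
      · linarith only [g2_0, g3_1, h11, h13, h17, h18, h19, h9, s2]
      · rcases kh34 with ⟨g4_0, g4_1⟩ | ⟨g4_0, g4_1⟩
        · rcases kh37 with ⟨g5_0, g5_1⟩ | ⟨g5_0, g5_1⟩
          · linarith only [g1_1, g4_1, g5_1, h11, h12, h36, h9]
          · rcases kh16 with ⟨g6_0, g6_1⟩ | ⟨g6_0, g6_1⟩
            · rcases kh40 with ⟨g7_0, g7_1⟩ | ⟨g7_0, g7_1⟩
              · rcases kh43 with ⟨g8_0, g8_1⟩ | ⟨g8_0, g8_1⟩
                · linarith only [g7_1, g8_1, h13, h17, h18, h20, h23, h42, h7, s2]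
                · rcases kh61 with g9_0 | g9_0 | g9_0 | g9_0
                  · linarith only [g9_0, h17, h20, h7, s1]
                  · linarith only [g7_1, g9_0, h13, h17, h20, h39, h7, s1]
                  · linarith only [e0, g9_0]
                  · rcases kh22 with ⟨g10_0, g10_1⟩ | ⟨g10_0, g10_1⟩
                    · rcases kh65 with g11_0 | g11_0 | g11_0 | g11_0 | g11_0
                      · linarith only [e0, g11_0, g7_1, h12, h17, h20, h39, s1]
                      · linarith only [g10_1, g11_0, g8_1, g9_0, h0, h17, h21, h38, h41, s1]
                      · linarith only [g11_0, g7_1, g9_0, h13, h17, h20, h3, s1]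
                      · rcases kh58 with g12_0 | g12_0 | g12_0 | g12_0 | ⟨g12_0, g12_1⟩
                        · linarith only [g11_0, g12_0, g7_1, g8_1, g9_0, h17, h18, h20, h39, h8, s1, s2]
                        · linarith only [g11_0, g12_0, g8_1, g9_0, h17, h18, h19, h27, s2, s3]
                        · rcases kh15 with ⟨g13_0, g13_1⟩ | ⟨g13_0, g13_1⟩
                          · rcases kh62 with g14_0 | g14_0 | g14_0 | g14_0
                            · linarith only [g13_1, g14_0]
                            · linarith only [g11_0, g12_0, g14_0, g8_1, h17, h18, h24, s2]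
                            · linarith only [g14_0, g7_1, h12, h17, h20, h39, s1]
                            · rcases kh60 with g15_0 | g15_0 | g15_0 | g15_0 | g15_0 | g15_0 | g15_0 | ⟨g15_0, g15_1⟩
                              · linarith only [e0, g15_0, h12]
                              · linarith only [g13_1, g15_0]
                              · linarith only [g11_0, g15_0, g2_0, g8_1, g9_0, h11, h17, h18, h19, s2, s3]
                              · linarith only [g15_0, h12, h17, h20, s1]
                              · linarith only [g15_0, g7_1, h12, h17, h20, h39, s1]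
                              · linarith only [g11_0, g15_0, g1_1, g2_0, g4_1, g8_1, h11, h12, h17, h18, h19, h33, h4, s2, s3]
                              · linarith only [g12_0, g14_0, g15_0, h17, h18, h19, h27, s3]
                              · linarith only [g11_0, g12_0, g15_1, g8_1, h17, h18, s2]
                          · linarith only [g12_0, g13_1]
                        · linarith only [g11_0, g12_0, g1_1, g2_0, g4_1, g8_1, h11, h12, h17, h18, h19, h33, h4, s2, s3]
                        · rcases kh59 with g16_0 | g16_0 | g16_0 | g16_0 | g16_0 | g16_0
                          · linarith only [e0, g16_0, h12]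
                          · rcases kh63 with g17_0 | g17_0 | g17_0 | g17_0 | g17_0 | g17_0
                            · linarith only [g17_0, h12, h17, h20, s1]
                            · linarith only [g11_0, g12_1, g17_0, g2_0, g3_1, g7_1, g8_1, h11, h12, h17, h19, h20, h39, s1, s2]
                            · linarith only [g12_1, g17_0, g1_1, g4_1, h12, h17, h18, h24, h33, s2]
                            · linarith only [e0, g17_0]
                            · rcases kh15 with ⟨g18_0, g18_1⟩ | ⟨g18_0, g18_1⟩
                              · rcases kh62 with g19_0 | g19_0 | g19_0 | g19_0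
                                · linarith only [g18_1, g19_0]
                                · linarith only [g16_0, g19_0, h12, h17, h18, h24, s2]
                                · linarith only [g11_0, g12_1, g19_0, g2_0, g7_1, g8_1, h11, h12, h18, h19, h20, h26, h3, h39, s1, s3]
                                · linarith only [g12_1, g17_0, g19_0, h17, h18, h19, h27, s3]
                              · linarith only [g17_0, g18_1]
                            · linarith only [g12_1, g17_0, g9_0, h17, h18, h19, h27, s3]
                          · linarith only [g12_1, g16_0, g1_1, g4_1, h12, h17, h18, h24, h33, s2]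
                          · linarith only [g16_0, h12, h17, h20, s1]
                          · linarith only [g16_0, g7_1, h12, h17, h20, h39, s1]
                          · linarith only [g12_1, g16_0, g9_0, h17, h18, h19, h27, s3]
                      · linarith only [g11_0, g2_0, g8_1, g9_0, h11, h17, h18, h19, h44, s3]
                    · linarith only [g10_1, g7_1, g9_0, h13, h17, h18, h20, h24, h39, s2]
              · rcases kh43 with ⟨g20_0, g20_1⟩ | ⟨g20_0, g20_1⟩
                · linarith only [g20_1, g6_0, g7_1, h3, h42]
                · rcases kh61 with g21_0 | g21_0 | g21_0 | g21_0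
                  · linarith only [g21_0, h12, h17, h20, s1]
                  · rcases kh48 with ⟨g22_0, g22_1⟩ | ⟨g22_0, g22_1⟩ | ⟨g22_0, g22_1⟩
                    · linarith only [g21_0, g22_1, h12, h17, h20, h46, s1]
                    · rcases kh52 with ⟨g23_0, g23_1⟩ | ⟨g23_0, g23_1⟩ | ⟨g23_0, g23_1⟩
                      · linarith only [g22_1, g23_1, g6_0, h3, h50]
                      · rcases kh15 with ⟨g24_0, g24_1⟩ | ⟨g24_0, g24_1⟩
                        · rcases kh55 with ⟨g25_0, g25_1⟩ | ⟨g25_0, g25_1⟩
                          · rcases kh57 with g26_0 | g26_0 | g26_0 | g26_0 | g26_0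
                            · linarith only [e0, g26_0]
                            · linarith only [e0, g21_0, g26_0, h13, h17, h21, h8, s1]
                            · rcases kh58 with g27_0 | g27_0 | g27_0 | g27_0 | ⟨g27_0, g27_1⟩
                              · linarith only [g27_0, g6_0]
                              · rcases kh66 with g28_0 | g28_0 | g28_0 | g28_0 | g28_0
                                · linarith only [e0, g28_0]
                                · linarith only [e0, g26_0, g27_0, g28_0, g2_0, h11, h17, h18, h19, h2, h3, s1, s3]
                                · linarith only [g26_0, g27_0, g28_0, g2_0, g6_0, g7_1, h11, h17, h27, s1, s3]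
                                · linarith only [g20_1, g27_0, g28_0, h13, h19, h27, s3]
                                · linarith only [g20_1, g27_0, g28_0, h11, h13, h27, h44, s3]
                              · rcases kh65 with g29_0 | g29_0 | g29_0 | g29_0 | g29_0
                                · linarith only [e0, g27_0, g29_0, h2, h3]
                                · linarith only [e0, g21_0, g29_0, h13, h17, h21, h8, s1]
                                · linarith only [g23_1, g25_1, g27_0, g29_0, g7_1, h11, h17, h2, h3, h54, s1]
                                · linarith only [g20_1, g23_1, g25_1, g27_0, g29_0, h11, h17, h18, h54, s2]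
                                · linarith only [g20_1, g27_0, g29_0, g2_0, h11, h17, h18, h19, h44, s3]
                              · linarith only [g1_1, g27_0, g2_0, g4_1, h12, h13, h17, h18, h19, h24, h26, h33, s2, s3]
                              · linarith only [g23_1, g25_1, g27_0, h11, h54]
                            · linarith only [g23_1, g25_1, g26_0, h11, h17, h18, h54, h9, s2]
                            · linarith only [g26_0, g2_0, h11, h17, h18, h19, h9, s3]
                          · rcases kh67 with g30_0 | g30_0 | g30_0 | g30_0 | g30_0 | g30_0
                            · linarith only [e0, g30_0]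
                            · linarith only [e0, g30_0, h13, h8]
                            · linarith only [e0, e1, g2_0, g30_0, h17, h18, h19, h2, h24, h26, h3, s3]
                            · linarith only [g22_1, g30_0, g6_0, h12, h17]
                            · rcases kh65 with g31_0 | g31_0 | g31_0 | g31_0 | g31_0
                              · linarith only [e0, g23_1, g30_0, g31_0, h12, h17, h18, h2, h3]
                              · linarith only [e0, g23_1, g30_0, g31_0, h12, h13, h18, h21, h3, s1]
                              · linarith only [g23_1, g30_0, g31_0, g6_0, g7_1, h18, h3, s1]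
                              · rcases kh25 with ⟨g32_0, g32_1⟩ | ⟨g32_0, g32_1⟩
                                · linarith only [g20_1, g23_1, g24_1, g30_0, g31_0, g32_1, h18, s1]
                                · rcases kh58 with g33_0 | g33_0 | g33_0 | g33_0 | ⟨g33_0, g33_1⟩
                                  · linarith only [g33_0, g6_0]
                                  · linarith only [g1_1, g20_1, g25_1, g30_0, g31_0, g32_1, g33_0, g4_1, h12, h17, h18, h19, h27, h33, h53, s2, s3]
                                  · rcases kh62 with g34_0 | g34_0 | g34_0 | g34_0
                                    · linarith only [g24_1, g34_0]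
                                    · linarith only [g33_0, g34_0, h13, h17, h18, h24, s2]
                                    · linarith only [g23_1, g30_0, g34_0, g6_0, h12, h17, h18, h3]
                                    · rcases kh60 with g35_0 | g35_0 | g35_0 | g35_0 | g35_0 | g35_0 | g35_0 | ⟨g35_0, g35_1⟩
                                      · linarith only [e0, g35_0, h12]
                                      · linarith only [g24_1, g35_0]
                                      · linarith only [g20_1, g25_1, g2_0, g30_0, g31_0, g35_0, h27, h53, s2, s3]
                                      · linarith only [g20_1, g23_1, g30_0, g31_0, g32_1, g35_0, g7_1, h12, h18, h20, h21, h3, h38, s1]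
                                      · linarith only [g23_1, g30_0, g35_0, g6_0, h12, h17, h18, h3]
                                      · linarith only [g20_1, g21_0, g25_1, g2_0, g30_0, g31_0, g35_0, g3_1, h12, h17, h19, h21, h53, s1, s2, s3]
                                      · linarith only [g33_0, g34_0, g35_0, h17, h18, h19, h27, s3]
                                      · linarith only [g20_1, g24_1, g31_0, g33_0, g35_0, h17, h18, s2]
                                  · linarith only [g20_1, g21_0, g25_1, g2_0, g30_0, g31_0, g33_0, g3_1, h12, h17, h19, h21, h53, s1, s2, s3]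
                                  · rcases kh62 with g36_0 | g36_0 | g36_0 | g36_0
                                    · linarith only [g24_1, g36_0]
                                    · linarith only [g23_1, g30_0, g33_0, g36_0, h24, s2]
                                    · linarith only [g23_1, g30_0, g36_0, g6_0, h12, h17, h18, h3]
                                    · linarith only [g23_1, g30_0, g33_0, g33_1, g36_0, h19, h27, s3]
                              · linarith only [g20_1, g25_1, g2_0, g30_0, g31_0, h19, h27, h44, h53, s3]
                            · rcases kh58 with g37_0 | g37_0 | g37_0 | g37_0 | ⟨g37_0, g37_1⟩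
                              · linarith only [g37_0, g6_0]
                              · linarith only [g25_1, g30_0, g37_0, h27, h50, h53, s3]
                              · rcases kh60 with g38_0 | g38_0 | g38_0 | g38_0 | g38_0 | g38_0 | g38_0 | ⟨g38_0, g38_1⟩
                                · linarith only [e0, g38_0, h12]
                                · linarith only [g24_1, g38_0]
                                · linarith only [g25_1, g2_0, g38_0, h11, h17, h18, h19, h50, h53, h9, s3]
                                · linarith only [g25_1, g30_0, g38_0, g7_1, h11, h12, h18, h19, h2, h20, h3, h38, s1]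
                                · linarith only [g24_1, g25_1, g30_0, g38_0, g6_0, h11, h17, h18, h19]
                                · linarith only [g25_1, g2_0, g30_0, g38_0, h17, h18, h19, h24, h50, h53, h9, s2, s3]
                                · linarith only [g25_1, g30_0, g38_0, h27, s3]
                                · rcases kh65 with g39_0 | g39_0 | g39_0 | g39_0 | g39_0
                                  · linarith only [e0, g38_1, g39_0, h12, h2]
                                  · linarith only [e0, g25_1, g30_0, g39_0, h11, h12, h13, h18, h19, h21, h3, s1]
                                  · linarith only [g38_1, g39_0, g7_1, h12, h17, h2, s1]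
                                  · linarith only [g20_1, g37_0, g38_1, g39_0, h17, h18, s2]
                                  · linarith only [g20_1, g25_1, g2_0, g30_0, g39_0, h11, h44, s3]
                              · linarith only [g25_1, g2_0, g30_0, g37_0, h13, h19, h24, h50, h53, s2, s3]
                              · linarith only [g25_1, g30_0, g37_1, h27, s3]
                        · rcases kh58 with g40_0 | g40_0 | g40_0 | g40_0 | ⟨g40_0, g40_1⟩
                          · linarith only [g40_0, g6_0]
                          · rcases kh66 with g41_0 | g41_0 | g41_0 | g41_0 | g41_0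
                            · linarith only [e0, g41_0]
                            · linarith only [e0, g2_0, g40_0, g41_0, h11, h12, h17, h18, h19, h2, h3, s3]
                            · linarith only [g24_1, g2_0, g40_0, g41_0, g6_0, g7_1, h11, h12, h17, h18, h19, s3]
                            · linarith only [g20_1, g40_0, g41_0, h13, h19, h27, s3]
                            · linarith only [g20_1, g40_0, g41_0, h11, h13, h27, h44, s3]
                          · linarith only [g24_1, g40_0]
                          · linarith only [g1_1, g2_0, g40_0, g4_1, h12, h13, h17, h18, h19, h24, h26, h33, s2, s3]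
                          · rcases kh55 with ⟨g42_0, g42_1⟩ | ⟨g42_0, g42_1⟩
                            · linarith only [g23_1, g40_0, g42_1, h11, h54]
                            · rcases kh67 with g43_0 | g43_0 | g43_0 | g43_0 | g43_0 | g43_0
                              · linarith only [e0, g43_0]
                              · linarith only [e0, g43_0, h12, h2]
                              · linarith only [e0, e1, g2_0, g43_0, h17, h18, h19, h2, h24, h26, h3, s3]
                              · linarith only [g22_1, g43_0, g6_0, h12, h17]
                              · linarith only [g23_1, g24_1, g40_0, g43_0, h17, h18]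
                              · linarith only [g40_1, g42_1, g43_0, h27, s3]
                      · linarith only [g23_1, g2_0, g3_1, h19, h24, h26, h50, s2, s3]
                    · linarith only [g22_1, g2_0, g3_1, h19, h24, h26, h46, s2, s3]
                  · linarith only [e0, g21_0]
                  · rcases kh58 with g44_0 | g44_0 | g44_0 | g44_0 | ⟨g44_0, g44_1⟩
                    · linarith only [g44_0, g6_0]
                    · linarith only [g21_0, g44_0, h13, h17, h18, h19, h27, s3]
                    · rcases kh15 with ⟨g45_0, g45_1⟩ | ⟨g45_0, g45_1⟩
                      · rcases kh62 with g46_0 | g46_0 | g46_0 | g46_0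
                        · linarith only [g45_1, g46_0]
                        · linarith only [g44_0, g46_0, h13, h17, h18, h24, s2]
                        · linarith only [g44_0, g46_0, g6_0, h3]
                        · rcases kh60 with g47_0 | g47_0 | g47_0 | g47_0 | g47_0 | g47_0 | g47_0 | ⟨g47_0, g47_1⟩
                          · linarith only [e0, g47_0, h12]
                          · linarith only [g45_1, g47_0]
                          · linarith only [g2_0, g47_0, h11, h13, h27, s3]
                          · linarith only [g47_0, h12, h17, h20, s1]
                          · linarith only [g44_0, g47_0, g6_0, h3]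
                          · linarith only [g21_0, g2_0, g47_0, h13, h17, h18, h19, h24, h26, s2, s3]
                          · linarith only [g44_0, g46_0, g47_0, h17, h18, h19, h27, s3]
                          · rcases kh65 with g48_0 | g48_0 | g48_0 | g48_0 | g48_0
                            · linarith only [e0, g47_1, g48_0, h12, h2]
                            · linarith only [e0, g48_0, h13, h4, h8]
                            · linarith only [g47_1, g48_0, g7_1, h12, h17, h2, s1]
                            · linarith only [g20_1, g44_0, g47_1, g48_0, h17, h18, s2]
                            · linarith only [g20_1, g21_0, g2_0, g48_0, h11, h17, h18, h19, h44, s3]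
                      · linarith only [g44_0, g45_1]
                    · linarith only [g1_1, g2_0, g44_0, g4_1, h12, h13, h17, h18, h19, h24, h26, h33, s2, s3]
                    · rcases kh63 with g49_0 | g49_0 | g49_0 | g49_0 | g49_0 | g49_0
                      · linarith only [g49_0, h12, h17, h20, s1]
                      · linarith only [g49_0, g6_0]
                      · linarith only [g1_1, g44_1, g49_0, g4_1, h12, h17, h18, h24, h33, s2]
                      · linarith only [e0, g49_0]
                      · rcases kh15 with ⟨g50_0, g50_1⟩ | ⟨g50_0, g50_1⟩
                        · rcases kh62 with g51_0 | g51_0 | g51_0 | g51_0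
                          · linarith only [g50_1, g51_0]
                          · linarith only [g44_0, g49_0, g51_0, h17, h18, h24, s2]
                          · linarith only [g49_0, g51_0, g6_0, h3]
                          · linarith only [g44_1, g49_0, g51_0, h17, h18, h19, h27, s3]
                        · linarith only [g49_0, g50_1]
                      · linarith only [g21_0, g44_1, g49_0, h17, h18, h19, h27, s3]
            · rcases kh43 with ⟨g52_0, g52_1⟩ | ⟨g52_0, g52_1⟩
              · rcases kh40 with ⟨g53_0, g53_1⟩ | ⟨g53_0, g53_1⟩
                · linarith only [g52_1, g53_1, h13, h17, h18, h20, h23, h42, h7, s2]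
                · linarith only [g52_1, g53_1, g6_0, h42, h9]
              · rcases kh15 with ⟨g54_0, g54_1⟩ | ⟨g54_0, g54_1⟩
                · rcases kh61 with g55_0 | g55_0 | g55_0 | g55_0
                  · linarith only [g55_0, h17, h20, h7, s1]
                  · rcases kh40 with ⟨g56_0, g56_1⟩ | ⟨g56_0, g56_1⟩
                    · linarith only [g55_0, g56_1, h13, h17, h20, h39, h7, s1]
                    · rcases kh65 with g57_0 | g57_0 | g57_0 | g57_0 | g57_0
                      · linarith only [e0, g57_0, h8]
                      · linarith only [e0, g55_0, g57_0, h13, h17, h21, h8, s1]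
                      · rcases kh64 with g58_0 | g58_0 | g58_0 | g58_0 | g58_0 | g58_0
                        · linarith only [e0, g58_0]
                        · linarith only [e0, g56_1, g57_0, g58_0, h17, h8, s1]
                        · linarith only [e0, e1, g2_0, g58_0, h17, h18, h19, h2, h24, h26, h3, s3]
                        · linarith only [g1_1, g56_1, g57_0, g58_0, g6_0, s1]
                        · linarith only [g1_1, g4_1, g56_1, g57_0, g58_0, g6_0, h18, h9, s1]
                        · rcases kh60 with g59_0 | g59_0 | g59_0 | g59_0 | g59_0 | g59_0 | g59_0 | ⟨g59_0, g59_1⟩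
                          · linarith only [e0, g59_0, h12]
                          · linarith only [g54_1, g59_0]
                          · linarith only [g2_0, g56_1, g57_0, g58_0, g59_0, g5_1, h11, h18, h19, h2, h3, s1, s3]
                          · linarith only [g56_1, g58_0, g59_0, g5_1, h11, h12, h18, h19, h2, h20, h3, h38, s1]
                          · linarith only [g59_0, g6_0]
                          · linarith only [g2_0, g56_1, g57_0, g58_0, g59_0, g5_1, h11, h18, h19, h2, h21, h3, s1, s3]
                          · linarith only [g58_0, g59_0, g5_1, h27, s3]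
                          · linarith only [g56_1, g57_0, g59_0, g6_0, h17, s1]
                      · rcases kh64 with g60_0 | g60_0 | g60_0 | g60_0 | g60_0 | g60_0
                        · linarith only [e0, g60_0]
                        · linarith only [e0, g60_0, h12]
                        · linarith only [e0, e1, g2_0, g52_1, g57_0, g5_1, g60_0, h17, h18, h19, h21, h3, h33, h35, h8, s1, s2, s3]
                        · rcases kh25 with ⟨g61_0, g61_1⟩ | ⟨g61_0, g61_1⟩
                          · linarith only [g1_1, g52_1, g54_1, g55_0, g57_0, g60_0, g61_1, g6_0, s1]
                          · rcases kh63 with g62_0 | g62_0 | g62_0 | g62_0 | g62_0 | g62_0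
                            · linarith only [g1_1, g60_0, g62_0, h12, h20, s1]
                            · linarith only [g1_1, g52_1, g57_0, g60_0, g61_1, g62_0, g6_0, h21, s1]
                            · linarith only [g1_1, g55_0, g60_0, g62_0, h12, h21, s1]
                            · linarith only [e0, g62_0]
                            · linarith only [g1_1, g52_1, g54_1, g57_0, g60_0, g62_0, h18, s2]
                            · linarith only [g62_0, g6_1]
                        · linarith only [g1_1, g4_1, g52_1, g54_1, g57_0, g60_0, s2]
                        · rcases kh60 with g63_0 | g63_0 | g63_0 | g63_0 | g63_0 | g63_0 | g63_0 | ⟨g63_0, g63_1⟩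
                          · linarith only [e0, g63_0, h12]
                          · linarith only [g54_1, g63_0]
                          · linarith only [g2_0, g52_1, g57_0, g5_1, g60_0, g63_0, h11, h19, s2, s3]
                          · linarith only [g52_1, g57_0, g5_1, g60_0, g63_0, h11, h12, h18, h19, h20, h3, s1, s2]
                          · linarith only [g63_0, g6_0]
                          · linarith only [g2_0, g52_1, g55_0, g57_0, g5_1, g60_0, g63_0, h11, h18, h19, h21, h3, s1, s2, s3]
                          · linarith only [g5_1, g60_0, g63_0, h27, s3]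
                          · linarith only [g52_1, g57_0, g5_1, g60_0, g63_1, g6_1, h19, s2]
                      · linarith only [g2_0, g3_1, g52_1, g57_0, g6_1, h44, s3]
                  · linarith only [e0, g55_0]
                  · rcases kh59 with g64_0 | g64_0 | g64_0 | g64_0 | g64_0 | g64_0
                    · linarith only [e0, g64_0, h12]
                    · rcases kh62 with g65_0 | g65_0 | g65_0 | g65_0
                      · linarith only [g54_1, g65_0]
                      · linarith only [g64_0, g65_0, h12, h17, h18, h24, s2]
                      · linarith only [g65_0, g6_0]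
                      · rcases kh60 with g66_0 | g66_0 | g66_0 | g66_0 | g66_0 | g66_0 | g66_0 | ⟨g66_0, g66_1⟩
                        · linarith only [e0, g66_0, h12]
                        · linarith only [g54_1, g66_0]
                        · linarith only [g64_0, g66_0, h12, h17, h18, h19, h27, s3]
                        · linarith only [g66_0, h12, h17, h20, s1]
                        · linarith only [g66_0, g6_0]
                        · linarith only [g2_0, g5_1, g64_0, g65_0, g66_0, h12, h17, h18, h24, h27, h29, h32, h35, s2, s3]
                        · rcases kh63 with g67_0 | g67_0 | g67_0 | g67_0 | g67_0 | g67_0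
                          · linarith only [g67_0, h12, h17, h20, s1]
                          · linarith only [g64_0, g65_0, g66_0, g67_0, g6_0, h17, h18, h19, h27, s3]
                          · linarith only [g64_0, g67_0, h12, h17, h18, h24, s2]
                          · linarith only [e0, g67_0]
                          · linarith only [g65_0, g66_0, g67_0, h17, h18, h19, h27, s3]
                          · linarith only [g67_0, g6_1]
                        · rcases kh57 with g68_0 | g68_0 | g68_0 | g68_0 | g68_0
                          · linarith only [e0, g68_0]
                          · linarith only [e0, g68_0, h13, h4, h8]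
                          · rcases kh65 with g69_0 | g69_0 | g69_0 | g69_0 | g69_0
                            · linarith only [e0, g66_1, g69_0, h12, h2]
                            · linarith only [e0, g69_0, h13, h4, h8]
                            · rcases kh40 with ⟨g70_0, g70_1⟩ | ⟨g70_0, g70_1⟩
                              · linarith only [g69_0, g70_1, h12, h17, h20, s1]
                              · linarith only [g66_0, g69_0, g6_0, g70_1, h17, s1]
                            · linarith only [g52_1, g64_0, g66_1, g68_0, g69_0, h18, s1, s2]
                            · linarith only [g2_0, g52_1, g64_0, g66_1, g68_0, g69_0, g6_1, h18, h19, h44, s1, s3]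
                          · linarith only [g66_1, g68_0, h17, h18, h9, s2]
                          · linarith only [g2_0, g68_0, g6_1, h17, h18, h19, h9, s3]
                    · linarith only [g55_0, g64_0, h13, h17, h18, h24, s2]
                    · linarith only [g64_0, h12, h17, h20, s1]
                    · rcases kh40 with ⟨g71_0, g71_1⟩ | ⟨g71_0, g71_1⟩
                      · linarith only [g64_0, g71_1, h12, h17, h20, h39, s1]
                      · rcases kh62 with g72_0 | g72_0 | g72_0 | g72_0
                        · linarith only [g54_1, g72_0]
                        · linarith only [g55_0, g64_0, g72_0, h12, h17, h18, h21, h24, s1, s2]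
                        · linarith only [g6_0, g72_0]
                        · rcases kh60 with g73_0 | g73_0 | g73_0 | g73_0 | g73_0 | g73_0 | g73_0 | ⟨g73_0, g73_1⟩
                          · linarith only [e0, g73_0, h12]
                          · linarith only [g54_1, g73_0]
                          · linarith only [g2_0, g64_0, g73_0, h11, h12, h2, h27, s3]
                          · linarith only [g73_0, h12, h17, h20, s1]
                          · linarith only [g6_0, g73_0]
                          · linarith only [g2_0, g64_0, g73_0, h12, h17, h18, h19, h21, h3, h5, s1, s3]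
                          · rcases kh63 with g74_0 | g74_0 | g74_0 | g74_0 | g74_0 | g74_0
                            · linarith only [g74_0, h12, h17, h20, s1]
                            · rcases kh64 with g75_0 | g75_0 | g75_0 | g75_0 | g75_0 | g75_0
                              · linarith only [e0, g75_0]
                              · linarith only [e0, g75_0, h12]
                              · linarith only [e1, g2_0, g64_0, g75_0, h11, h17, h18, h19, h2, h3, s3]
                              · rcases kh57 with g76_0 | g76_0 | g76_0 | g76_0 | g76_0
                                · linarith only [e0, g76_0]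
                                · linarith only [g2_0, g6_1, g73_0, g76_0, h0, h10, h18, h19, h2, h21, h3, s1, s3]
                                · rcases kh65 with g77_0 | g77_0 | g77_0 | g77_0 | g77_0
                                  · linarith only [e0, g6_0, g77_0]
                                  · linarith only [g54_0, g76_0, g77_0, h21, s1]
                                  · linarith only [g1_1, g6_0, g71_1, g75_0, g77_0, s1]
                                  · rcases kh25 with ⟨g78_0, g78_1⟩ | ⟨g78_0, g78_1⟩
                                    · linarith only [g1_1, g52_1, g6_0, g74_0, g75_0, g77_0, g78_1, h18, s1, s2]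
                                    · linarith only [g1_1, g52_1, g6_0, g74_0, g75_0, g77_0, g78_1, h21, s1]
                                  · linarith only [g1_1, g2_0, g52_1, g55_0, g6_1, g75_0, g76_0, g77_0, h18, h19, h44, s1, s3]
                                · linarith only [g1_1, g6_0, g72_0, g73_0, g74_0, g75_0, g76_0, h17, h19, h27, s2, s3]
                                · linarith only [g2_0, g6_1, g76_0, h17, h18, h19, h9, s3]
                              · linarith only [g1_1, g4_1, g54_1, g64_0, g72_0, g73_0, g75_0, h12, h19, h2, h27, s3]
                              · linarith only [g5_1, g73_0, g75_0, h27, s3]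
                            · linarith only [g2_0, g3_1, g64_0, g73_0, g74_0, h11, h12, h19, h2, h24, s2]
                            · linarith only [e0, g74_0]
                            · linarith only [g72_0, g73_0, g74_0, h17, h18, h19, h27, s3]
                            · linarith only [g6_1, g74_0]
                          · rcases kh57 with g79_0 | g79_0 | g79_0 | g79_0 | g79_0
                            · linarith only [e0, g79_0]
                            · linarith only [g79_0, h0, h12, h17, h21, s1]
                            · rcases kh65 with g80_0 | g80_0 | g80_0 | g80_0 | g80_0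
                              · linarith only [e0, g73_1, g79_0, g80_0, h17, h2, s1]
                              · linarith only [e0, g79_0, g80_0, h17, h2, h4, s1]
                              · linarith only [g71_1, g73_1, g79_0, g80_0, h2, s1]
                              · rcases kh25 with ⟨g81_0, g81_1⟩ | ⟨g81_0, g81_1⟩
                                · linarith only [g52_1, g73_1, g80_0, g81_1, h12, h17, h3, s1]
                                · linarith only [g52_1, g64_0, g73_1, g80_0, g81_1, h12, h17, h21, s1]
                              · linarith only [g2_0, g52_1, g55_0, g64_0, g6_1, g73_1, g79_0, g80_0, h18, h19, h2, h44, s1, s3]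
                            · linarith only [g54_1, g64_0, g73_1, g79_0, h17, h18, h2, s2]
                            · linarith only [g79_0, h27, s3]
                    · linarith only [g64_0, g6_1]
                · rcases kh64 with g82_0 | g82_0 | g82_0 | g82_0 | g82_0 | g82_0
                  · linarith only [e0, g82_0]
                  · linarith only [e0, g82_0, h12]
                  · linarith only [e0, e1, g2_0, g82_0, h17, h18, h19, h2, h24, h26, h3, s3]
                  · rcases kh58 with g83_0 | g83_0 | g83_0 | g83_0 | ⟨g83_0, g83_1⟩
                    · rcases kh40 with ⟨g84_0, g84_1⟩ | ⟨g84_0, g84_1⟩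
                      · linarith only [g1_1, g82_0, g83_0, g84_1, h13, h20, h39, h7, s1]
                      · rcases kh57 with g85_0 | g85_0 | g85_0 | g85_0 | g85_0
                        · linarith only [e0, g85_0]
                        · linarith only [g1_1, g82_0, g85_0, h0, h13, h21, h4, h8, s1]
                        · rcases kh65 with g86_0 | g86_0 | g86_0 | g86_0 | g86_0
                          · linarith only [e0, g86_0, h8]
                          · linarith only [e0, g85_0, g86_0, h17, h2, h4, s1]
                          · linarith only [g1_1, g6_0, g82_0, g84_1, g86_0, s1]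
                          · rcases kh25 with ⟨g87_0, g87_1⟩ | ⟨g87_0, g87_1⟩
                            · linarith only [g1_1, g52_1, g6_0, g82_0, g83_0, g86_0, g87_1, h18, s1, s2]
                            · linarith only [g1_1, g52_1, g6_0, g82_0, g83_0, g86_0, g87_1, h21, s1]
                          · linarith only [g2_0, g3_1, g52_1, g6_1, g86_0, h44, s3]
                        · linarith only [g1_1, g54_1, g6_0, g82_0, g83_0, g85_0, h17, h18, s2]
                        · linarith only [g2_0, g54_1, g6_1, g85_0, h17, h18, h19, s3]
                    · linarith only [g2_0, g54_1, g6_1, g83_0, h13, h17, h18, h19, s3]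
                    · linarith only [g54_1, g83_0]
                    · linarith only [g2_0, g83_0, h11, h13, h19, h24, h4, s2, s3]
                    · rcases kh63 with g88_0 | g88_0 | g88_0 | g88_0 | g88_0 | g88_0
                      · linarith only [g1_1, g82_0, g88_0, h12, h20, s1]
                      · linarith only [g1_1, g6_0, g82_0, g83_0, g88_0, h17]
                      · linarith only [g2_0, g6_1, g83_0, g83_1, g88_0, h19, h24, s2, s3]
                      · linarith only [e0, g88_0]
                      · linarith only [g54_1, g88_0]
                      · linarith only [g6_1, g88_0]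
                  · linarith only [g1_1, g4_1, g54_1, g82_0, h12, h17, h18]
                  · linarith only [g54_1, g5_1, g6_1, g82_0, h17, h18, h19]
        · rcases kh25 with ⟨g89_0, g89_1⟩ | ⟨g89_0, g89_1⟩
          · linarith only [g2_0, g3_1, g4_1, g89_1, h11, h12, h18, h19, h24, h29, h32, h9, s1, s3]
          · rcases kh37 with ⟨g90_0, g90_1⟩ | ⟨g90_0, g90_1⟩
            · linarith only [g2_0, g3_1, g4_1, g90_1, h11, h13, h19, h24, h36, s2, s3]
            · rcases kh61 with g91_0 | g91_0 | g91_0 | g91_0
              · linarith only [g91_0, h12, h17, h20, s1]
              · rcases kh40 with ⟨g92_0, g92_1⟩ | ⟨g92_0, g92_1⟩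
                · linarith only [g91_0, g92_1, h13, h17, h20, h39, h7, s1]
                · rcases kh43 with ⟨g93_0, g93_1⟩ | ⟨g93_0, g93_1⟩
                  · linarith only [g2_0, g4_1, g90_1, g92_1, g93_1, h12, h17, h18, h19, h21, h29, h32, h35, h42, s1, s3]
                  · rcases kh48 with ⟨g94_0, g94_1⟩ | ⟨g94_0, g94_1⟩ | ⟨g94_0, g94_1⟩
                    · linarith only [g91_0, g94_1, h12, h17, h20, h46, s1]
                    · rcases kh52 with ⟨g95_0, g95_1⟩ | ⟨g95_0, g95_1⟩ | ⟨g95_0, g95_1⟩
                      · linarith only [g2_0, g4_1, g90_1, g94_1, g95_1, h12, h17, h18, h19, h21, h29, h32, h35, h50, s1, s3]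
                      · rcases kh57 with g96_0 | g96_0 | g96_0 | g96_0 | g96_0
                        · linarith only [e0, g96_0]
                        · linarith only [e0, g2_0, g3_1, g4_1, g91_0, g96_0, h11, h13, h17, h18, h19, h21, h29, h32, s1]
                        · rcases kh65 with g97_0 | g97_0 | g97_0 | g97_0 | g97_0
                          · linarith only [e0, e1, g2_0, g3_1, g4_1, g97_0, h11, h17, h18, h19, h21, h29, h32, s1]
                          · linarith only [e0, g2_0, g3_1, g4_1, g91_0, g97_0, h11, h13, h17, h18, h19, h21, h29, h32, s1]
                          · linarith only [g2_0, g3_1, g4_1, g92_1, g97_0, h11, h18, h19, h21, h29, h32, s1]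
                          · rcases kh63 with g98_0 | g98_0 | g98_0 | g98_0 | g98_0 | g98_0
                            · linarith only [g98_0, h12, h17, h20, s1]
                            · linarith only [g2_0, g3_1, g4_1, g89_1, g93_1, g97_0, g98_0, h11, h18, h19, h21, h29, h32, s1]
                            · linarith only [g91_0, g98_0, h12, h17, h21, s1]
                            · linarith only [e0, g98_0]
                            · linarith only [g2_0, g4_1, g89_1, g91_0, g93_1, g97_0, g98_0, h11, h17, h18, h19, h21, h29, h32, s1, s3]
                            · rcases kh66 with g99_0 | g99_0 | g99_0 | g99_0 | g99_0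
                              · linarith only [e0, g99_0]
                              · linarith only [e0, g2_0, g3_1, g4_1, g99_0, h11, h12, h17, h18, h19, h21, h29, h32, s1]
                              · rcases kh55 with ⟨g100_0, g100_1⟩ | ⟨g100_0, g100_1⟩
                                · linarith only [g100_1, g89_1, g92_1, g93_1, g95_1, g97_0, g99_0, h11, h12, h17, h21, h54, s1]
                                · rcases kh67 with g101_0 | g101_0 | g101_0 | g101_0 | g101_0 | g101_0
                                  · linarith only [e0, g101_0]
                                  · linarith only [e0, g101_0, g2_0, g3_1, g4_1, g89_1, g93_1, g97_0, h11, h12, h18, h19, h21, h29, h32, s1]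
                                  · linarith only [e0, e1, g101_0, g2_0, g89_1, g92_1, g93_1, g97_0, g99_0, h11, h17, h18, h19, h21, h3, s1, s3]
                                  · linarith only [g101_0, g2_0, g3_1, g4_1, g89_1, g93_1, g94_1, g97_0, h11, h12, h17, h18, h19, h21, h29, h32, s1]
                                  · linarith only [g100_1, g101_0, g2_0, g3_1, g4_1, g92_1, g99_0, h12, h17, h18, h19, h21, h29, h32, h53, s1, s3]
                                  · linarith only [g100_1, g101_0, g2_0, g4_1, g92_1, g99_0, h11, h12, h17, h18, h19, h21, h29, h32, s1, s3]
                              · linarith only [g4_1, g89_1, g91_0, g93_1, g97_0, g98_0, g99_0, h18, h19, h21, h27, h29, h32, s1, s3]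
                              · linarith only [g4_1, g89_1, g91_0, g93_1, g97_0, g99_0, h11, h18, h19, h21, h27, h29, h32, h44, s1, s3]
                          · rcases kh16 with ⟨g102_0, g102_1⟩ | ⟨g102_0, g102_1⟩
                            · rcases kh66 with g103_0 | g103_0 | g103_0 | g103_0 | g103_0
                              · linarith only [e0, g103_0]
                              · linarith only [e0, g103_0, g2_0, g3_1, g4_1, h11, h12, h17, h18, h19, h21, h29, h32, s1]
                              · rcases kh55 with ⟨g104_0, g104_1⟩ | ⟨g104_0, g104_1⟩
                                · linarith only [g102_0, g103_0, g104_1, g92_1, g95_1, g96_0, h11, h17, h54, s1]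
                                · rcases kh67 with g105_0 | g105_0 | g105_0 | g105_0 | g105_0 | g105_0
                                  · linarith only [e0, g105_0]
                                  · linarith only [e0, g105_0, g96_0, h17, h2, s1]
                                  · linarith only [e1, g103_0, g105_0, g2_0, g92_1, h11, h17, h18, h19, h2, h3, s3]
                                  · linarith only [g102_0, g105_0, g94_1, h12, h17]
                                  · linarith only [g103_0, g104_1, g105_0, g2_0, g4_1, g92_1, g93_1, g96_0, g97_0, h17, h18, h19, h2, h24, h29, h32, h44, h53, s1, s2, s3]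
                                  · linarith only [g102_0, g103_0, g104_1, g105_0, g2_0, g4_1, g92_1, h11, h12, h17, h18, h19, h24, h29, h32, s2, s3]
                              · linarith only [g103_0, g93_1, g97_0, h19, h27, h44, s3]
                              · linarith only [g103_0, g2_0, g93_1, g97_0, h11, h44, s3]
                            · linarith only [g102_1, g2_0, g3_1, g93_1, g97_0, h44, s3]
                        · linarith only [g2_0, g4_1, g89_1, g91_0, g96_0, h11, h17, h18, h19, h21, h29, h32, h9, s1, s3]
                        · linarith only [g2_0, g96_0, h11, h17, h18, h19, h9, s3]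
                      · linarith only [g2_0, g3_1, g95_1, h19, h24, h26, h50, s2, s3]
                    · linarith only [g2_0, g3_1, g94_1, h19, h24, h26, h46, s2, s3]
              · linarith only [e0, g91_0]
              · rcases kh59 with g106_0 | g106_0 | g106_0 | g106_0 | g106_0 | g106_0
                · linarith only [e0, g106_0, h12]
                · linarith only [g106_0, g2_0, g4_1, g90_1, g91_0, h10, h17, h18, h19, h24, h29, h32, h35, s2, s3]
                · linarith only [g106_0, g91_0, h13, h17, h18, h24, s2]
                · linarith only [g106_0, g2_0, g3_1, g4_1, g91_0, h11, h13, h18, h19, h20, h24, h29, h32, s1, s2, s3]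
                · linarith only [g106_0, g2_0, g3_1, g4_1, g91_0, h11, h12, h18, h19, h21, h29, h32, s1, s3]
                · rcases kh60 with g107_0 | g107_0 | g107_0 | g107_0 | g107_0 | g107_0 | g107_0 | ⟨g107_0, g107_1⟩
                  · linarith only [e0, g107_0, h12]
                  · linarith only [g107_0, g2_0, g4_1, g90_1, h12, h17, h18, h19, h24, h29, h32, h35, s2, s3]
                  · linarith only [g107_0, g2_0, h11, h13, h17, h18, h19, h9, s3]
                  · linarith only [g107_0, g2_0, g3_1, g4_1, g91_0, h11, h13, h18, h19, h20, h24, h29, h32, s1, s2, s3]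
                  · linarith only [g107_0, g2_0, g3_1, g4_1, g91_0, h18, h19, h21, h24, h26, h29, h32, s1, s3]
                  · linarith only [g107_0, g2_0, g91_0, h13, h17, h18, h19, h24, h26, s2, s3]
                  · linarith only [g106_0, g107_0, g91_0, h17, h18, h19, h27, s3]
                  · linarith only [g106_0, g107_0, g4_1, g91_0, h13, h17, h18, h19, h24, h27, h29, h32, s2, s3]
  · linarith only [g1_1, h10, h14, h17, h21, h29, h8, s1]

end Pool.Agent.Helper28.TQ
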