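import Pool.Agent.Helper89.TQ.Ctx

set_option autoImplicit false
set_option linter.all false

namespace Pool.Agent.Helper28.TQ
open Pool.Agent.Helper89.TQ

theorem c0_13_22_33_k2 {n1 n2 n3 A1 A2 A3 B1 B2 B3 m11_1 m11_2 m11_3 m13_1 m13_2 m13_3 m22_1 m22_2 m22_3 m23_1 m23_2 m23_3 m33_1 m33_2 m33_3 : ℤ}
    (C : Ctx0 n1 n2 n3 A1 A2 A3 B1 B2 B3 m11_1 m11_2 m11_3 m13_1 m13_2 m13_3 m22_1 m22_2 m22_3 m23_1 m23_2 m23_3 m33_1 m33_2 m33_3)
    (e0 : 0 < A1)
    (e1 : 0 < B3)
    (e2 : 0 < B2)
    (e3 : 0 < A3)
    (s1 : 2 * A1 + 1 * B1 ≤ m13_1 + m22_1 + m33_1)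
    (s2 : 2 * A2 + 1 * B2 ≤ m13_2 + m22_2 + m33_2)
    (s3 : 2 * A3 + 1 * B3 ≤ m13_3 + m22_3 + m33_3) : False := by
  have h1 := C.a1
  have h2 := C.a2
  have h3 := C.a3
  have h4 := C.a4
  have h5 := C.a5
  have h6 := C.b0
  have h8 := C.b2
  have h9 := C.b3
  have h10 := C.b4
  have h11 := C.b5
  have h12 := C.o0
  have h13 := C.o1
  have h14 := C.o2
  have h17 := C.f13_0
  have h18 := C.f13_1
  have h20 := C.f13_3
  have h21 := C.f13_4
  have h23 := C.f13_6
  have h24 := C.f13_7
  have h26 := C.f22_0
  have h27 := C.f22_1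
  have h29 := C.f22_3
  have h30 := C.f22_4
  have h32 := C.f22_6
  have h33 := C.f33_0
  have h34 := C.f33_1
  have h36 := C.f33_3
  have h37 := C.f33_4
  have h40 := C.f33_7
  have kh16 : (A1 - A2 ≤ -1 ∧ -n3 - A2 + A3 ≤ -1) ∨ (B1 - B2 ≤ -1 ∧ -n3 - B2 + B3 ≤ -1) := by
    have q := C.t23
    clear * - q
    omega
  have kh19 : (-A1 + m13_1 ≤ -1 ∧ A1 - m13_1 ≤ 1) ∨ (-B3 + m13_1 ≤ -1 ∧ B3 - m13_1 ≤ 1) := by
    have q := C.f13_2
    clear * - q
    omega
  have kh22 : (-n2 - m13_1 + m13_2 ≤ 0 ∧ n2 + m13_1 - m13_2 ≤ 0) ∨ (-B3 + m13_2 ≤ -1 ∧ B3 - m13_2 ≤ 1) := by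
    have q := C.f13_5
    clear * - q
    omega
  have kh25 : (-n3 - m13_2 + m13_3 ≤ 0 ∧ n3 + m13_2 - m13_3 ≤ 0) ∨ (-B3 + m13_3 ≤ -1 ∧ B3 - m13_3 ≤ 1) := by
    have q := C.f13_8
    clear * - q
    omega
  have kh28 : (-n1 + m22_1 ≤ 0 ∧ n1 - m22_1 ≤ 0) ∨ (-B2 + m22_1 ≤ -1 ∧ B2 - m22_1 ≤ 1) := by
    have q := C.f22_2
    clear * - q
    omega
  have kh31 : (-n2 - m22_1 + m22_2 ≤ 0 ∧ n2 + m22_1 - m22_2 ≤ 0) ∨ (-B2 + m22_2 ≤ -1 ∧ B2 - m22_2 ≤ 1) := by
    have q := C.f22_5
    clear * - q
    omega
  have kh35 : (-n1 + m33_1 ≤ 0 ∧ n1 - m33_1 ≤ 0) ∨ (-A3 + m33_1 ≤ -1 ∧ A3 - m33_1 ≤ 1) := by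
    have q := C.f33_2
    clear * - q
    omega
  have kh41 : (-n3 - m33_2 + m33_3 ≤ 0 ∧ n3 + m33_2 - m33_3 ≤ 0) ∨ (-A3 + m33_3 ≤ -1 ∧ A3 - m33_3 ≤ 1) := by
    have q := C.f33_8
    clear * - q
    omega
  have kh42 : (A1 ≤ 0) ∨ (B3 ≤ 0) ∨ (B2 ≤ 0) ∨ (-2 * B1 + m13_1 + m22_1 ≤ -1) ∨ (-2 * B2 + m13_2 + m22_2 ≤ -1) ∨ (-2 * B3 + m13_3 + m22_3 ≤ -1) := by
    have q := C.p13_22B
    clear * - q
    omega
  have kh43 : (A1 ≤ 0) ∨ (B3 ≤ 0) ∨ (A3 ≤ 0) ∨ (-2 * A1 + m13_1 + m33_1 ≤ -1) ∨ (-2 * A2 + m13_2 + m33_2 ≤ -1) ∨ (-2 * A3 + m13_3 + m33_3 ≤ -1) := by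
    have q := C.p13_33A
    clear * - q
    omega
  have kh44 : (A1 ≤ 0) ∨ (n2 + A1 - A2 ≤ 1) ∨ (n1 - B1 ≤ 0) ∨ (-B1 + B2 ≤ 1) ∨ (-A3 + B3 ≤ 1) := by
    have q := C.tpmm
    clear * - q
    omega
  have kh45 : (B2 ≤ 0) ∨ (A3 ≤ 0) ∨ (-2 * A1 + m22_1 + m33_1 ≤ -1) ∨ (-2 * A2 + m22_2 + m33_2 ≤ -1) ∨ (-2 * A3 + m22_3 + m33_3 ≤ -1) := by
    have q := C.p22_33A
    clear * - q
    omega
  have kh46 : (n1 - A1 ≤ 0) ∨ (-A1 + A2 ≤ 0) ∨ (-A2 + A3 ≤ 0) ∨ (B1 ≤ 0) ∨ (n2 + B1 - B2 ≤ 0) ∨ (n3 + B2 - B3 ≤ 0) := by
    have q := C.tmzp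
    clear * - q
    omega
  have kh47 : (A1 ≤ 0) ∨ (n2 + A1 - A2 ≤ 0) ∨ (n3 + A2 - A3 ≤ 0) ∨ (n1 - B1 ≤ 0) ∨ (-B1 + B2 ≤ 0) ∨ (-B2 + B3 ≤ 0) ∨ (-A3 + B3 ≤ 1) ∨ (A1 - B1 ≤ 1 ∧ A2 - B2 ≤ 0) := by
    have q := C.tpzm
    clear * - q
    omega
  clear C
  rcases kh19 with ⟨g1_0, g1_1⟩ | ⟨g1_0, g1_1⟩
  · rcases kh25 with ⟨g2_0, g2_1⟩ | ⟨g2_0, g2_1⟩
    · rcases kh22 with ⟨g3_0, g3_1⟩ | ⟨g3_0, g3_1⟩
      · linarith only [g1_1, g2_1, g3_1, h11, h12, h24, h9]
      · linarith only [g2_1, g3_1, h11, h13, h24, h30, h37, h5, s2]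
    · rcases kh28 with ⟨g4_0, g4_1⟩ | ⟨g4_0, g4_1⟩
      · rcases kh31 with ⟨g5_0, g5_1⟩ | ⟨g5_0, g5_1⟩
        · linarith only [g4_1, g5_1, h1, h13, h3, h30]
        · rcases kh44 with g6_0 | g6_0 | g6_0 | g6_0 | g6_0
          · linarith only [g6_0, h12, h6]
          · rcases kh35 with ⟨g7_0, g7_1⟩ | ⟨g7_0, g7_1⟩
            · rcases kh45 with g8_0 | g8_0 | g8_0 | g8_0 | g8_0
              · linarith only [g4_1, g8_0, h12, h17, h27, h33, h6, s1]
              · linarith only [g7_1, g8_0, h12, h17, h26, h34, h6, s1]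
              · linarith only [g4_1, g6_0, g8_0, h1, h17, h20, h30, h36, s2]
              · rcases kh42 with g9_0 | g9_0 | g9_0 | g9_0 | g9_0 | g9_0
                · linarith only [g9_0, h12, h6]
                · linarith only [g6_0, g8_0, g9_0, h14, h17, h20, h4, h6, h8, s2]
                · linarith only [g4_1, g9_0, h12, h17, h27, h33, h6, s1]
                · linarith only [g1_1, g4_1, g9_0, h12, h33, s1]
                · linarith only [g5_1, g8_0, g9_0, s2]
                · rcases kh43 with g10_0 | g10_0 | g10_0 | g10_0 | g10_0 | g10_0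
                  · linarith only [g10_0, h12, h6]
                  · linarith only [e0, g10_0, g2_1, g4_1, g5_1, g9_0, h18, h27, h32, h33, h4, h5, h6, s1]
                  · linarith only [g10_0, g2_1, g5_1, g6_0, g9_0, h12, h17, h20, h23, h27, h32, h34, h4, h6, s1]
                  · rcases kh47 with g11_0 | g11_0 | g11_0 | g11_0 | g11_0 | g11_0 | g11_0 | ⟨g11_0, g11_1⟩
                    · linarith only [g10_0, g11_0, g1_1, g7_1, h26, h6, s1]
                    · linarith only [g10_0, g11_0, g2_1, g9_0, h11, h20, h32, h36, s2]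
                    · linarith only [g10_0, g11_0, g2_1, g6_0, g7_1, g9_0, h1, h20, h23, h40, s3]
                    · linarith only [g10_0, g11_0, h26, s1]
                    · linarith only [g11_0, g4_1, h1, h12, h27]
                    · linarith only [g11_0, g8_0, h21, s2]
                    · linarith only [g11_0, g9_0, h40, s3]
                    · linarith only [g10_0, g11_0, g11_1, g6_0, g7_1, g8_0, h20, h26, s1, s2]
                  · linarith only [g10_0, g2_1, g9_0, h11, h32, s2]
                  · linarith only [g10_0, g2_1, g9_0, s3]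
              · linarith only [g8_0, h24, s3]
            · linarith only [g4_1, g6_0, g7_1, h12, h17, h20, h27, h30, h33, h37, h9, s2]
          · linarith only [g6_0, h12, h17, h26, h33, s1]
          · linarith only [g4_1, g6_0, h1, h12, h27]
          · rcases kh35 with ⟨g12_0, g12_1⟩ | ⟨g12_0, g12_1⟩
            · rcases kh45 with g13_0 | g13_0 | g13_0 | g13_0 | g13_0
              · linarith only [g13_0, g4_1, h1, h12, h27, h6]
              · linarith only [g12_1, g13_0, h12, h17, h26, h34, h6, s1]
              · linarith only [g12_1, g13_0, g4_1, h1]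
              · rcases kh42 with g14_0 | g14_0 | g14_0 | g14_0 | g14_0 | g14_0
                · linarith only [g14_0, h12, h6]
                · linarith only [g13_0, g14_0, h12, h14, h17, h21, h27, h34, h6, s1, s2]
                · linarith only [g14_0, g4_1, h1, h12, h27, h6]
                · linarith only [g14_0, g1_1, g4_1, h1, h12]
                · linarith only [g13_0, g14_0, g5_1, s2]
                · linarith only [g14_0, g6_0, h40, s3]
              · linarith only [g13_0, h24, s3]
            · linarith only [g12_1, g4_1, g6_0, h13, h21, h27, h30, h33, h37, s2]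
      · rcases kh16 with ⟨g15_0, g15_1⟩ | ⟨g15_0, g15_1⟩
        · rcases kh31 with ⟨g16_0, g16_1⟩ | ⟨g16_0, g16_1⟩
          · linarith only [g15_0, g16_1, g4_1, h3, h30]
          · rcases kh43 with g17_0 | g17_0 | g17_0 | g17_0 | g17_0 | g17_0
            · linarith only [g17_0, h12, h6]
            · linarith only [g17_0, h12, h14, h2, h4, h6]
            · linarith only [g17_0, h12, h2, h4, h6]
            · rcases kh44 with g18_0 | g18_0 | g18_0 | g18_0 | g18_0
              · linarith only [g18_0, h12, h6]
              · rcases kh35 with ⟨g19_0, g19_1⟩ | ⟨g19_0, g19_1⟩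
                · rcases kh41 with ⟨g20_0, g20_1⟩ | ⟨g20_0, g20_1⟩
                  · linarith only [g17_0, g18_0, g19_1, g20_1, g2_1, h1, h14, h20, h23, h30, h40, s2]
                  · rcases kh47 with g21_0 | g21_0 | g21_0 | g21_0 | g21_0 | g21_0 | g21_0 | ⟨g21_0, g21_1⟩
                    · linarith only [g17_0, g19_1, g1_1, g21_0, h26, h6, s1]
                    · linarith only [g17_0, g21_0, h20, h30, h36, s2]
                    · linarith only [g17_0, g18_0, g19_1, g21_0, h1, h12, h14, h20, h23, h30, h32, h40, h9, s3]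
                    · linarith only [g17_0, g21_0, h26, s1]
                    · linarith only [g17_0, g21_0, h27, s1]
                    · linarith only [g15_0, g17_0, g19_1, g1_1, g21_0, g4_1, h14, h26, h4]
                    · rcases kh42 with g22_0 | g22_0 | g22_0 | g22_0 | g22_0 | g22_0
                      · linarith only [g17_0, g19_1, g1_1, g22_0, h26, h6, s1]
                      · linarith only [g15_0, g17_0, g18_0, g19_1, g22_0, h14, h20, h26, h30, h37, h6, s1, s2]
                      · linarith only [g17_0, g22_0, h27, h6, s1]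
                      · linarith only [g17_0, g19_1, g1_1, g22_0, h26, s1]
                      · rcases kh45 with g23_0 | g23_0 | g23_0 | g23_0 | g23_0
                        · linarith only [e0, g17_0, g18_0, g1_1, g22_0, g23_0, h27, h36, h9, s1, s2]
                        · linarith only [g15_0, g17_0, g18_0, g19_1, g1_1, g22_0, g23_0, h26, h37, h6, h9, s1, s2]
                        · linarith only [g17_0, g18_0, g22_0, g23_0, h36, h9, s1, s2]
                        · linarith only [g16_1, g22_0, g23_0, s2]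
                        · linarith only [g23_0, h24, s3]
                      · linarith only [g21_0, g22_0, h40, s3]
                    · rcases kh45 with g24_0 | g24_0 | g24_0 | g24_0 | g24_0
                      · linarith only [e0, g17_0, g21_0, g24_0, h27, s1]
                      · linarith only [e0, g15_0, g17_0, g18_0, g19_1, g21_0, g24_0, h20, h26, h30, h37, s1, s2]
                      · linarith only [g17_0, g19_1, g21_0, g24_0, h26, s1]
                      · linarith only [g17_0, g18_0, g19_1, g21_0, g21_1, g24_0, h20, h26, s1, s2]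
                      · linarith only [g16_1, g17_0, g18_0, g19_1, g20_1, g21_0, g21_1, g24_0, h14, h20, h23, h26, h32, s1, s3]
                · linarith only [g17_0, g18_0, g19_1, h20, h27, h30, h37, h9, s1, s2]
              · linarith only [g17_0, g18_0, h26, s1]
              · linarith only [g17_0, g18_0, h27, s1]
              · rcases kh35 with ⟨g25_0, g25_1⟩ | ⟨g25_0, g25_1⟩
                · rcases kh42 with g26_0 | g26_0 | g26_0 | g26_0 | g26_0 | g26_0
                  · linarith only [g17_0, g1_1, g25_1, g26_0, h26, h6, s1]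
                  · linarith only [g17_0, g1_1, g25_1, g26_0, h14, h2, h26, h4, h6, s1]
                  · linarith only [g17_0, g26_0, h27, h6, s1]
                  · linarith only [g17_0, g1_1, g25_1, g26_0, h26, s1]
                  · rcases kh22 with ⟨g27_0, g27_1⟩ | ⟨g27_0, g27_1⟩
                    · rcases kh45 with g28_0 | g28_0 | g28_0 | g28_0 | g28_0
                      · linarith only [g16_1, g17_0, g1_1, g26_0, g27_1, g28_0, h12, h2, h36, h6, s2]
                      · linarith only [g17_0, g1_1, g25_1, g26_0, g28_0, g4_1, h12, h2, h26, h37, h6, s2]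
                      · linarith only [g16_1, g26_0, g27_1, g28_0, h9, s1]
                      · linarith only [g16_1, g26_0, g28_0, s2]
                      · linarith only [g28_0, h24, s3]
                    · linarith only [g16_1, g26_0, g27_1, h13, h14, h37, s2]
                  · linarith only [g18_0, g26_0, h40, s3]
                · linarith only [g15_0, g17_0, g18_0, g1_1, g25_1, h21, h30, h37, s2]
            · linarith only [g17_0, h30, s2]
            · rcases kh42 with g29_0 | g29_0 | g29_0 | g29_0 | g29_0 | g29_0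
              · linarith only [g29_0, h12, h6]
              · linarith only [e0, g29_0, h10, h14, h17, h27, h34, h6, s1]
              · linarith only [e2, g29_0]
              · rcases kh45 with g30_0 | g30_0 | g30_0 | g30_0 | g30_0
                · linarith only [e2, g30_0]
                · linarith only [e0, g29_0, g30_0, h13, h34, h4, h8, s1]
                · linarith only [g29_0, g30_0, g4_1, h8, s1]
                · rcases kh46 with g31_0 | g31_0 | g31_0 | g31_0 | g31_0 | g31_0
                  · linarith only [g29_0, g31_0, h17, h26, h33, s1]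
                  · linarith only [g15_0, g31_0]
                  · rcases kh41 with ⟨g32_0, g32_1⟩ | ⟨g32_0, g32_1⟩
                    · linarith only [g17_0, g1_1, g29_0, g2_1, g31_0, g32_1, g4_1, h12, h14, h21, h30, h32, h34, s1, s2, s3]
                    · linarith only [g17_0, g2_1, g31_0, g32_1, h21, h30, h37, s2]
                  · linarith only [e0, e2, g1_1, g29_0, g31_0, g4_1]
                  · linarith only [g16_1, g29_0, g30_0, g31_0, h20, h29, s2]
                  · linarith only [g17_0, g31_0, h30, h32, s3]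
                · linarith only [g30_0, h24, s3]
              · rcases kh22 with ⟨g33_0, g33_1⟩ | ⟨g33_0, g33_1⟩
                · rcases kh45 with g34_0 | g34_0 | g34_0 | g34_0 | g34_0
                  · linarith only [e2, g34_0]
                  · linarith only [g16_1, g29_0, g33_1, g34_0, h12, h13, h27, h34, h4, h6, h9, s1]
                  · linarith only [g16_1, g29_0, g33_1, g34_0, h9, s1]
                  · linarith only [g16_1, g29_0, g34_0, s2]
                  · linarith only [g34_0, h24, s3]
                · linarith only [g16_1, g29_0, g33_1, h13, h14, h37, s2]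
              · linarith only [g17_0, g29_0, g2_1, s3]
        · rcases kh31 with ⟨g35_0, g35_1⟩ | ⟨g35_0, g35_1⟩
          · linarith only [g15_0, g35_1, g4_1, h30, h9]
          · rcases kh42 with g36_0 | g36_0 | g36_0 | g36_0 | g36_0 | g36_0
            · linarith only [g36_0, h12, h6]
            · linarith only [g36_0, h12, h14, h2, h4, h6]
            · linarith only [e2, g36_0]
            · linarith only [g15_0, g1_1, g36_0, g4_1, h12]
            · rcases kh22 with ⟨g37_0, g37_1⟩ | ⟨g37_0, g37_1⟩
              · rcases kh45 with g38_0 | g38_0 | g38_0 | g38_0 | g38_0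
                · linarith only [e2, g38_0]
                · linarith only [e0, g36_0, g38_0, h13, h2, h37, s2]
                · linarith only [g35_1, g36_0, g37_1, g38_0, h9, s1]
                · linarith only [g35_1, g36_0, g38_0, s2]
                · linarith only [g38_0, h24, s3]
              · linarith only [g35_1, g36_0, g37_1, h13, h14, h37, s2]
            · rcases kh43 with g39_0 | g39_0 | g39_0 | g39_0 | g39_0 | g39_0
              · linarith only [g39_0, h12, h6]
              · linarith only [g2_1, g35_1, g36_0, g39_0, h12, h14, h18, h27, h32, h34, h4, h5, h6, s1]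
              · linarith only [g39_0, h12, h2, h4, h6]
              · rcases kh44 with g40_0 | g40_0 | g40_0 | g40_0 | g40_0
                · linarith only [g40_0, h12, h6]
                · rcases kh35 with ⟨g41_0, g41_1⟩ | ⟨g41_0, g41_1⟩
                  · rcases kh41 with ⟨g42_0, g42_1⟩ | ⟨g42_0, g42_1⟩
                    · linarith only [g2_1, g36_0, g39_0, g40_0, g41_1, g42_1, h1, h11, h20, h23, h32, h40, s2, s3]
                    · rcases kh47 with g43_0 | g43_0 | g43_0 | g43_0 | g43_0 | g43_0 | g43_0 | ⟨g43_0, g43_1⟩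
                      · linarith only [g1_1, g39_0, g41_1, g43_0, h26, h6, s1]
                      · linarith only [g15_1, g2_1, g36_0, g39_0, g43_0, h20, h32, h36, s2]
                      · linarith only [g2_1, g36_0, g39_0, g40_0, g41_1, g43_0, h1, h20, h23, h40, s3]
                      · linarith only [g39_0, g43_0, h26, s1]
                      · linarith only [g39_0, g43_0, h27, s1]
                      · linarith only [g36_0, g43_0, h13, h4, h40, s3]
                      · linarith only [g36_0, g43_0, h40, s3]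
                      · rcases kh45 with g44_0 | g44_0 | g44_0 | g44_0 | g44_0
                        · linarith only [e0, g39_0, g43_0, g44_0, h27, s1]
                        · linarith only [e0, g2_1, g36_0, g39_0, g40_0, g41_1, g43_0, g44_0, h20, h23, h26, h27, h32, h37, s1, s2]
                        · linarith only [g39_0, g41_1, g43_0, g44_0, h26, s1]
                        · linarith only [g39_0, g40_0, g41_1, g43_0, g43_1, g44_0, h20, h26, s1, s2]
                        · linarith only [g35_1, g39_0, g40_0, g41_1, g42_1, g43_0, g43_1, g44_0, h14, h20, h23, h26, h32, s1, s3]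
                  · linarith only [g39_0, g40_0, g41_1, h20, h27, h30, h37, h9, s1, s2]
                · linarith only [g39_0, g40_0, h26, s1]
                · linarith only [g39_0, g40_0, h27, s1]
                · linarith only [g36_0, g40_0, h40, s3]
              · linarith only [g39_0, h30, s2]
              · linarith only [g2_1, g36_0, g39_0, s3]
  · linarith only [g1_1, h14, h17, h2, h4]

end Pool.Agent.Helper28.TQ
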