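import Pool.Agent.Helper89.TQ.Ctx

set_option autoImplicit false
set_option linter.all false

namespace Pool.Agent.Helper28.TQ
open Pool.Agent.Helper89.TQ

theorem c0_13_22_33_k3 {n1 n2 n3 A1 A2 A3 B1 B2 B3 m11_1 m11_2 m11_3 m13_1 m13_2 m13_3 m22_1 m22_2 m22_3 m23_1 m23_2 m23_3 m33_1 m33_2 m33_3 : ℤ}
    (C : Ctx0 n1 n2 n3 A1 A2 A3 B1 B2 B3 m11_1 m11_2 m11_3 m13_1 m13_2 m13_3 m22_1 m22_2 m22_3 m23_1 m23_2 m23_3 m33_1 m33_2 m33_3)
    (e0 : 0 < A1)
    (e1 : 0 < B3)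
    (e2 : 0 < B2)
    (e3 : 0 < A3)
    (s1 : 3 * A1 + 0 * B1 ≤ m13_1 + m22_1 + m33_1)
    (s2 : 3 * A2 + 0 * B2 ≤ m13_2 + m22_2 + m33_2)
    (s3 : 3 * A3 + 0 * B3 ≤ m13_3 + m22_3 + m33_3) : F1 n1 n2 n3 A1 A2 A3 B1 B2 B3 ∨ F2 n1 n2 n3 A1 A2 A3 B1 B2 B3 := by
  by_contra hcon
  unfold F1 F2 at hcon
  have h2 := C.a2
  have h4 := C.a4
  have h5 := C.a5
  have h6 := C.b0
  have h7 := C.b1
  have h8 := C.b2
  have h9 := C.b3
  have h10 := C.b4
  have h11 := C.b5
  have h12 := C.o0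
  have h13 := C.o1
  have h14 := C.o2
  have h17 := C.f13_0
  have h18 := C.f13_1
  have h20 := C.f13_3
  have h21 := C.f13_4
  have h24 := C.f13_7
  have h26 := C.f22_0
  have h27 := C.f22_1
  have h29 := C.f22_3
  have h30 := C.f22_4
  have h32 := C.f22_6
  have h33 := C.f33_0
  have h34 := C.f33_1
  have h36 := C.f33_3
  have h37 := C.f33_4
  have h40 := C.f33_7
  have h43 := C.f23_1
  have h47 := C.f23_5
  have h48 := C.f23_6
  have h51 := C.f23_9
  have kh15 : (-A1 ≤ -1 ∧ -n2 - A1 + A2 ≤ -1) ∨ (-B1 ≤ -1 ∧ -n2 - B1 + B2 ≤ -1) := by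
    have q := C.t12
    clear * - q
    omega
  have kh19 : (-A1 + m13_1 ≤ -1 ∧ A1 - m13_1 ≤ 1) ∨ (-B3 + m13_1 ≤ -1 ∧ B3 - m13_1 ≤ 1) := by
    have q := C.f13_2
    clear * - q
    omega
  have kh22 : (-n2 - m13_1 + m13_2 ≤ 0 ∧ n2 + m13_1 - m13_2 ≤ 0) ∨ (-B3 + m13_2 ≤ -1 ∧ B3 - m13_2 ≤ 1) := by
    have q := C.f13_5
    clear * - q
    omega
  have kh25 : (-n3 - m13_2 + m13_3 ≤ 0 ∧ n3 + m13_2 - m13_3 ≤ 0) ∨ (-B3 + m13_3 ≤ -1 ∧ B3 - m13_3 ≤ 1) := by
    have q := C.f13_8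
    clear * - q
    omega
  have kh28 : (-n1 + m22_1 ≤ 0 ∧ n1 - m22_1 ≤ 0) ∨ (-B2 + m22_1 ≤ -1 ∧ B2 - m22_1 ≤ 1) := by
    have q := C.f22_2
    clear * - q
    omega
  have kh31 : (-n2 - m22_1 + m22_2 ≤ 0 ∧ n2 + m22_1 - m22_2 ≤ 0) ∨ (-B2 + m22_2 ≤ -1 ∧ B2 - m22_2 ≤ 1) := by
    have q := C.f22_5
    clear * - q
    omega
  have kh35 : (-n1 + m33_1 ≤ 0 ∧ n1 - m33_1 ≤ 0) ∨ (-A3 + m33_1 ≤ -1 ∧ A3 - m33_1 ≤ 1) := by
    have q := C.f33_2
    clear * - q
    omega
  have kh38 : (-n2 - m33_1 + m33_2 ≤ 0 ∧ n2 + m33_1 - m33_2 ≤ 0) ∨ (-A3 + m33_2 ≤ -1 ∧ A3 - m33_2 ≤ 1) := by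
    have q := C.f33_5
    clear * - q
    omega
  have kh41 : (-n3 - m33_2 + m33_3 ≤ 0 ∧ n3 + m33_2 - m33_3 ≤ 0) ∨ (-A3 + m33_3 ≤ -1 ∧ A3 - m33_3 ≤ 1) := by
    have q := C.f33_8
    clear * - q
    omega
  have kh45 : (-n1 + m23_1 ≤ 0 ∧ n1 - m23_1 ≤ 0) ∨ (-A2 + m23_1 ≤ -1 ∧ A2 - m23_1 ≤ 1) ∨ (-B3 + m23_1 ≤ -1 ∧ B3 - m23_1 ≤ 1) := by
    have q := C.f23_3
    clear * - q
    omega
  have kh49 : (-n2 - m23_1 + m23_2 ≤ 0 ∧ n2 + m23_1 - m23_2 ≤ 0) ∨ (-A2 + m23_2 ≤ -1 ∧ A2 - m23_2 ≤ 1) ∨ (-B3 + m23_2 ≤ -1 ∧ B3 - m23_2 ≤ 1) := by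
    have q := C.f23_7
    clear * - q
    omega
  have kh52 : (-n3 - m23_2 + m23_3 ≤ 0 ∧ n3 + m23_2 - m23_3 ≤ 0) ∨ (-B3 + m23_3 ≤ -1 ∧ B3 - m23_3 ≤ 1) := by
    have q := C.f23_10
    clear * - q
    omega
  have kh53 : (A1 ≤ 0) ∨ (B3 ≤ 0) ∨ (A3 ≤ 0) ∨ (-2 * A1 + m13_1 + m33_1 ≤ -1) ∨ (-2 * A2 + m13_2 + m33_2 ≤ -1) ∨ (-2 * A3 + m13_3 + m33_3 ≤ -1) := by
    have q := C.p13_33A
    clear * - q
    omega
  have kh54 : (A1 ≤ 0) ∨ (B3 ≤ 0) ∨ (B2 ≤ 0) ∨ (-2 * B1 + m13_1 + m22_1 ≤ -1) ∨ (-2 * B2 + m13_2 + m22_2 ≤ -1) ∨ (-2 * B3 + m13_3 + m22_3 ≤ -1) := by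
    have q := C.p13_22B
    clear * - q
    omega
  have kh55 : (B2 ≤ 0) ∨ (A3 ≤ 0) ∨ (-2 * A1 + m22_1 + m33_1 ≤ -1) ∨ (-2 * A2 + m22_2 + m33_2 ≤ -1) ∨ (-2 * A3 + m22_3 + m33_3 ≤ -1) := by
    have q := C.p22_33A
    clear * - q
    omega
  have kh56 : (n1 - A1 ≤ 0) ∨ (-A1 + A2 ≤ 0) ∨ (-A2 + A3 ≤ 0) ∨ (B1 ≤ 0) ∨ (n2 + B1 - B2 ≤ 0) ∨ (n3 + B2 - B3 ≤ 0) := by
    have q := C.tmzp
    clear * - q
    omega
  have kh57 : (A1 ≤ 0) ∨ (n2 + A1 - A2 ≤ 1) ∨ (-A2 + A3 ≤ 0) ∨ (n1 - B1 ≤ 0) ∨ (-B1 + B2 ≤ 1) ∨ (n3 + B2 - B3 ≤ 0) := by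
    have q := C.tpmz
    clear * - q
    omega
  have kh58 : (A1 ≤ 0) ∨ (B3 ≤ 0) ∨ (A2 ≤ 0) ∨ (-2 * A1 + m13_1 + m23_1 ≤ -1) ∨ (-2 * A2 + m13_2 + m23_2 ≤ -1) ∨ (-2 * A3 + m13_3 + m23_3 ≤ -1) := by
    have q := C.p13_23A
    clear * - q
    omega
  have kF2 : (A1 ≤ 0) ∨ (n1 - 2 * A1 ≤ 0) ∨ (n2 ≤ 2) ∨ (n3 - 2 * A1 ≤ 2) ∨ (-n3 + 2 * A1 ≤ -4) ∨ (-A1 + A2 ≤ 0) ∨ (A1 - A2 ≤ -2) ∨ (-A1 - A2 + A3 ≤ 0) ∨ (A1 + A2 - A3 ≤ -2) ∨ (B1 ≤ -1) ∨ (-B1 ≤ -1) ∨ (-B1 + B2 ≤ 0) ∨ (B1 - B2 ≤ -2) ∨ (-2 * A1 - B2 + B3 ≤ 1) ∨ (2 * A1 + B2 - B3 ≤ -3) := by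
    clear * - hcon
    omega
  clear C
  rcases kh19 with ⟨g1_0, g1_1⟩ | ⟨g1_0, g1_1⟩
  · rcases kh25 with ⟨g2_0, g2_1⟩ | ⟨g2_0, g2_1⟩
    · rcases kh22 with ⟨g3_0, g3_1⟩ | ⟨g3_0, g3_1⟩
      · linarith only [g1_1, g2_1, g3_1, h11, h12, h24, h9]
      · linarith only [g2_1, g3_1, h11, h13, h24, h30, h37, h5, s2]
    · rcases kh41 with ⟨g4_0, g4_1⟩ | ⟨g4_0, g4_1⟩
      · rcases kh38 with ⟨g5_0, g5_1⟩ | ⟨g5_0, g5_1⟩
        · rcases kh35 with ⟨g6_0, g6_1⟩ | ⟨g6_0, g6_1⟩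
          · linarith only [g4_1, g5_1, g6_1, h11, h24, h30, h32, h40, h7, h9, s3]
          · linarith only [g4_1, g5_1, g6_1, h11, h13, h21, h27, h29, h40, h5, s2]
        · linarith only [g4_1, g5_1, h11, h13, h21, h30, h40, h5, s2]
      · rcases kh31 with ⟨g7_0, g7_1⟩ | ⟨g7_0, g7_1⟩
        · rcases kh28 with ⟨g8_0, g8_1⟩ | ⟨g8_0, g8_1⟩
          · linarith only [g7_1, g8_1, h30, h7, h9]
          · rcases kh15 with ⟨g9_0, g9_1⟩ | ⟨g9_0, g9_1⟩
            · linarith only [g7_1, g8_1, g9_1, h2, h30]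
            · linarith only [g7_1, g8_1, g9_1, h30, h8]
        · rcases kh55 with g10_0 | g10_0 | g10_0 | g10_0 | g10_0
          · linarith only [e2, g10_0]
          · linarith only [g10_0, h12, h13, h17, h27, h34, h4, h6, s1]
          · linarith only [g10_0, h17, s1]
          · rcases kh49 with ⟨g11_0, g11_1⟩ | ⟨g11_0, g11_1⟩ | ⟨g11_0, g11_1⟩
            · rcases kh45 with ⟨g12_0, g12_1⟩ | ⟨g12_0, g12_1⟩ | ⟨g12_0, g12_1⟩
              · linarith only [g11_1, g12_1, h17, h20, h26, h29, h33, h36, h47, s1, s2]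
              · linarith only [g10_0, g11_1, g12_1, h17, h2, h20, h47, s2]
              · linarith only [g11_1, g12_1, h12, h14, h18, h21, h27, h29, h34, h36, h43, h48, h9, s1, s2]
            · rcases kh53 with g13_0 | g13_0 | g13_0 | g13_0 | g13_0 | g13_0
              · linarith only [g13_0, h12, h6]
              · linarith only [g10_0, g13_0, h13, h21, h6, h8, s2]
              · linarith only [g13_0, h12, h13, h17, h27, h34, h4, h6, s1]
              · rcases kh35 with ⟨g14_0, g14_1⟩ | ⟨g14_0, g14_1⟩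
                · linarith only [g13_0, g14_1, g1_1, h26, s1]
                · linarith only [g13_0, g14_1, g1_1, h13, h27, h4, s1]
              · linarith only [g13_0, h13, h30, s2]
              · rcases kh52 with ⟨g15_0, g15_1⟩ | ⟨g15_0, g15_1⟩
                · linarith only [g11_1, g13_0, g15_1, g2_1, g4_1, h13, h30, h32, h51, s3]
                · rcases kh57 with g16_0 | g16_0 | g16_0 | g16_0 | g16_0 | g16_0
                  · linarith only [e0, g16_0]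
                  · linarith only [g10_0, g16_0, h17, h20, s2]
                  · linarith only [g13_0, g16_0, g2_1, g4_1, h13, h21, h30, h37, s2]
                  · linarith only [g16_0, h12, h17, h26, h33, s1]
                  · rcases kh58 with g17_0 | g17_0 | g17_0 | g17_0 | g17_0 | g17_0
                    · linarith only [e0, g17_0]
                    · linarith only [e0, g17_0, h10, h14, h18, h27, h34, s1]
                    · linarith only [g17_0, h12, h2, h6]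
                    · rcases kh45 with ⟨g18_0, g18_1⟩ | ⟨g18_0, g18_1⟩ | ⟨g18_0, g18_1⟩
                      · linarith only [g16_0, g17_0, g18_1, g1_1, h27, h33, h7, s1]
                      · rcases kh38 with ⟨g19_0, g19_1⟩ | ⟨g19_0, g19_1⟩
                        · linarith only [g10_0, g17_0, g18_1, g19_1, g7_1, h20, h27, h29, s1, s2]
                        · rcases kh56 with g20_0 | g20_0 | g20_0 | g20_0 | g20_0 | g20_0
                          · linarith only [g10_0, g13_0, g17_0, g18_1, g19_1, g20_0, g2_1, g4_1, g7_1, h21, h27, h33, s1, s2]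
                          · linarith only [g10_0, g17_0, g18_1, g19_1, g20_0, g7_1, h27, h34, s1]
                          · linarith only [g16_0, g17_0, g18_1, g20_0, h12, h27, h34, s1]
                          · rcases kh54 with g21_0 | g21_0 | g21_0 | g21_0 | g21_0 | g21_0
                            · linarith only [e0, g21_0]
                            · linarith only [g10_0, g13_0, g19_1, g21_0, g2_1, g4_1, g7_1, h21, h6, h8, s2]
                            · linarith only [e2, g21_0]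
                            · linarith only [e0, e2, g10_0, g17_0, g18_1, g19_1, g1_1, g20_0, g21_0, g7_1, h34, s1]
                            · linarith only [e0, g10_0, g16_0, g19_1, g20_0, g21_0, g7_1, h17, h27, h34, s1, s2]
                            · rcases kF2 with g22_0 | g22_0 | g22_0 | g22_0 | g22_0 | g22_0 | g22_0 | g22_0 | g22_0 | g22_0 | g22_0 | g22_0 | g22_0 | g22_0 | g22_0
                              · linarith only [e0, g22_0]
                              · linarith only [g16_0, g20_0, g22_0, h17, h27, h33, s1]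
                              · linarith only [g10_0, g19_1, g22_0, g7_1, h17, h20, h27, h34, s1, s2]
                              · linarith only [g13_0, g16_0, g20_0, g22_0, h17, h27, h30, h32, h34, s1, s3]
                              · linarith only [e2, g10_0, g13_0, g17_0, g18_1, g19_1, g1_1, g21_0, g22_0, g2_1, g4_1, g7_1, h32]
                              · linarith only [g10_0, g19_1, g22_0, g7_1, h17, h27, h34, s1]
                              · linarith only [g17_0, g18_1, g1_1, g22_0]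
                              · linarith only [g16_0, g17_0, g18_1, g20_0, g22_0, h27, h34, s1]
                              · linarith only [e2, g10_0, g17_0, g18_1, g19_1, g1_1, g22_0, g7_1]
                              · linarith only [e2, g16_0, g22_0]
                              · linarith only [g20_0, g22_0]
                              · linarith only [e2, g20_0, g22_0]
                              · linarith only [g16_0, g22_0]
                              · linarith only [g13_0, g16_0, g20_0, g21_0, g22_0, g2_1, h17, h27, h34, s1, s3]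
                              · linarith only [e2, g10_0, g13_0, g17_0, g18_1, g19_1, g1_1, g22_0, g2_1, g4_1, g7_1]
                          · linarith only [g10_0, g16_0, g19_1, g20_0, g7_1, h17, h20, h27, h34, s1, s2]
                          · linarith only [g10_0, g13_0, g17_0, g18_1, g19_1, g1_1, g20_0, g2_1, g4_1, h27, h32, h34, s1, s3]
                      · linarith only [g17_0, g18_1, g1_1, h10, h14, h27, h34, s1]
                    · linarith only [g10_0, g11_1, g17_0, s2]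
                    · linarith only [g15_1, g17_0, g2_1, h14]
                  · linarith only [g13_0, g16_0, g2_1, g4_1, h30, h32, s3]
            · linarith only [g10_0, g11_1, h21, h47, s2]
          · linarith only [g10_0, g4_1, g7_1, h11, h24, h32, s3]
  · linarith only [g1_1, h10, h14, h17, h27, h34, s1]

end Pool.Agent.Helper28.TQ
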