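import Pool.Agent.Helper89.TQ.Ctx

set_option autoImplicit false
set_option linter.all false

namespace Pool.Agent.Helper28.TQ
open Pool.Agent.Helper89.TQ

theorem c0_13_23_33_k2 {n1 n2 n3 A1 A2 A3 B1 B2 B3 m11_1 m11_2 m11_3 m13_1 m13_2 m13_3 m22_1 m22_2 m22_3 m23_1 m23_2 m23_3 m33_1 m33_2 m33_3 : ℤ}
    (C : Ctx0 n1 n2 n3 A1 A2 A3 B1 B2 B3 m11_1 m11_2 m11_3 m13_1 m13_2 m13_3 m22_1 m22_2 m22_3 m23_1 m23_2 m23_3 m33_1 m33_2 m33_3)
    (e0 : 0 < A1)
    (e1 : 0 < B3)
    (e2 : 0 < A2)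
    (e3 : 0 < A3)
    (s1 : 2 * A1 + 1 * B1 ≤ m13_1 + m23_1 + m33_1)
    (s2 : 2 * A2 + 1 * B2 ≤ m13_2 + m23_2 + m33_2)
    (s3 : 2 * A3 + 1 * B3 ≤ m13_3 + m23_3 + m33_3) : False := by
  have h1 := C.a1
  have h2 := C.a2
  have h3 := C.a3
  have h4 := C.a4
  have h6 := C.b0
  have h8 := C.b2
  have h10 := C.b4
  have h11 := C.b5
  have h12 := C.o0
  have h13 := C.o1
  have h14 := C.o2
  have h17 := C.f13_0
  have h18 := C.f13_1
  have h20 := C.f13_3
  have h21 := C.f13_4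
  have h23 := C.f13_6
  have h24 := C.f13_7
  have h26 := C.f23_0
  have h27 := C.f23_1
  have h28 := C.f23_2
  have h30 := C.f23_4
  have h31 := C.f23_5
  have h32 := C.f23_6
  have h34 := C.f23_8
  have h35 := C.f23_9
  have h37 := C.f33_0
  have h38 := C.f33_1
  have h40 := C.f33_3
  have h41 := C.f33_4
  have h44 := C.f33_7
  have h49 := C.f11_0
  have h50 := C.f11_1
  have h51 := C.f11_2
  have kh15 : (-A1 ≤ -1 ∧ -n2 - A1 + A2 ≤ -1) ∨ (-B1 ≤ -1 ∧ -n2 - B1 + B2 ≤ -1) := by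
    have q := C.t12
    clear * - q
    omega
  have kh16 : (A1 - A2 ≤ -1 ∧ -n3 - A2 + A3 ≤ -1) ∨ (B1 - B2 ≤ -1 ∧ -n3 - B2 + B3 ≤ -1) := by
    have q := C.t23
    clear * - q
    omega
  have kh45 : (-n3 - m33_2 + m33_3 ≤ 0 ∧ n3 + m33_2 - m33_3 ≤ 0) ∨ (-A3 + m33_3 ≤ -1 ∧ A3 - m33_3 ≤ 1) := by
    have q := C.f33_8
    clear * - q
    omega
  have kh46 : (A1 ≤ 0) ∨ (B3 ≤ 0) ∨ (A3 ≤ 0) ∨ (-2 * A1 + m13_1 + m33_1 ≤ -1) ∨ (-2 * A2 + m13_2 + m33_2 ≤ -1) ∨ (-2 * A3 + m13_3 + m33_3 ≤ -1) := by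
    have q := C.p13_33A
    clear * - q
    omega
  have kh47 : (A1 ≤ 0) ∨ (n2 + A1 - A2 ≤ 0) ∨ (n3 + A2 - A3 ≤ 0) ∨ (n1 - B1 ≤ 0) ∨ (-B1 + B2 ≤ 0) ∨ (-B2 + B3 ≤ 0) ∨ (-A3 + B3 ≤ 1) ∨ (A1 - B1 ≤ 1 ∧ A2 - B2 ≤ 0) := by
    have q := C.tpzm
    clear * - q
    omega
  have kh48 : (-A1 + A2 ≤ 0) ∨ (n3 + A2 - A3 ≤ 1) ∨ (n2 + B1 - B2 ≤ 0) ∨ (-B2 + B3 ≤ 1) ∨ (-A2 + B2 ≤ -1 ∧ -A3 + B3 ≤ 1) := by
    have q := C.tzpm
    clear * - q
    omega
  have kh66 : (B1 ≤ 0) ∨ (A3 ≤ 0) ∨ (-2 * B1 + m11_1 + m33_1 ≤ -1) ∨ (-2 * B2 + m11_2 + m33_2 ≤ -1) ∨ (-2 * B3 + m11_3 + m33_3 ≤ -1) := by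
    have q := C.p11_33B
    clear * - q
    omega
  have kh76 : (A2 ≤ 0) ∨ (B3 ≤ 0) ∨ (A3 ≤ 0) ∨ (-2 * A1 + m23_1 + m33_1 ≤ -1) ∨ (-2 * A2 + m23_2 + m33_2 ≤ -1) ∨ (-2 * A3 + m23_3 + m33_3 ≤ -1) := by
    have q := C.p23_33A
    clear * - q
    omega
  have kh81 : (A1 ≤ 0) ∨ (n2 + A1 - A2 ≤ 1) ∨ (n1 - B1 ≤ 0) ∨ (-B1 + B2 ≤ 1) ∨ (-A3 + B3 ≤ 1) := by
    have q := C.tpmm
    clear * - q
    omega
  clear C
  rcases kh15 with ⟨g1_0, g1_1⟩ | ⟨g1_0, g1_1⟩
  · rcases kh16 with ⟨g2_0, g2_1⟩ | ⟨g2_0, g2_1⟩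
    · rcases kh48 with g3_0 | g3_0 | g3_0 | g3_0 | ⟨g3_0, g3_1⟩
      · linarith only [g2_0, g3_0]
      · linarith only [g3_0, h24, h31, h34, h44, s3]
      · rcases kh81 with g4_0 | g4_0 | g4_0 | g4_0 | g4_0
        · linarith only [e0, g4_0]
        · rcases kh47 with g5_0 | g5_0 | g5_0 | g5_0 | g5_0 | g5_0 | g5_0 | ⟨g5_0, g5_1⟩
          · linarith only [e0, g5_0]
          · linarith only [g1_1, g5_0]
          · linarith only [g4_0, g5_0, h14, h17, h20, h23, h31, h34, h44, s3]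
          · linarith only [g3_0, g5_0, h1, h13, h17, h20, h31, h37, h40, s2]
          · linarith only [g1_1, g3_0, g5_0, h2]
          · linarith only [g4_0, g5_0, h14, h17, h20, h31, h41, s2]
          · linarith only [g5_0, h24, h35, h44, s3]
          · rcases kh76 with g6_0 | g6_0 | g6_0 | g6_0 | g6_0 | g6_0
            · linarith only [e0, g2_0, g6_0]
            · linarith only [e0, g5_0, g6_0, h14, h17, h28, h38, s1]
            · linarith only [e0, g3_0, g5_0, g6_0, h17, h20, h27, h31, h38, h41, s1, s2]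
            · linarith only [g5_0, g6_0, h17, s1]
            · linarith only [g3_0, g5_0, g6_0, h17, h20, s2]
            · linarith only [g6_0, h24, s3]
        · linarith only [g3_0, g4_0, h1, h13, h17, h20, h31, h37, h40, s2]
        · linarith only [g1_1, g2_0, g3_0, g4_0]
        · linarith only [g4_0, h24, h35, h44, s3]
      · linarith only [g3_0, h13, h14, h21, h31, h41, s2]
      · linarith only [g3_1, h24, h35, h44, s3]
    · rcases kh47 with g7_0 | g7_0 | g7_0 | g7_0 | g7_0 | g7_0 | g7_0 | ⟨g7_0, g7_1⟩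
      · linarith only [g7_0, h12, h6]
      · linarith only [g1_1, g7_0]
      · linarith only [g7_0, h11, h13, h14]
      · linarith only [g7_0, h1, h12]
      · linarith only [g2_0, g7_0]
      · linarith only [g7_0, h13, h14, h21, h31, h41, s2]
      · linarith only [g7_0, h24, h35, h44, s3]
      · rcases kh46 with g8_0 | g8_0 | g8_0 | g8_0 | g8_0 | g8_0
        · linarith only [e0, g8_0]
        · linarith only [e0, g7_0, g8_0, h14, h17, h28, h38, s1]
        · linarith only [e0, g7_0, g8_0, h17, h27, h38, h4, s1]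
        · rcases kh48 with g9_0 | g9_0 | g9_0 | g9_0 | ⟨g9_0, g9_1⟩
          · linarith only [g7_0, g8_0, g9_0, h27, s1]
          · linarith only [g9_0, h11, h13, h24, h35, h44, s3]
          · rcases kh76 with g10_0 | g10_0 | g10_0 | g10_0 | g10_0 | g10_0
            · linarith only [e0, g10_0, g7_0, g8_0, h27, s1]
            · linarith only [e0, g10_0, g7_0, g9_0, h10, h14, h18, h2, h20, h28, h30, h41, s2]
            · linarith only [e0, g10_0, g7_0, g8_0, h27, h4, s1]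
            · linarith only [g10_0, g7_0, h17, s1]
            · linarith only [g10_0, g7_0, g9_0, h17, h20, s2]
            · linarith only [g10_0, h24, s3]
          · linarith only [g9_0, h13, h24, h35, h4, h44, s3]
          · linarith only [g9_1, h24, h35, h44, s3]
        · linarith only [g7_1, g8_0, h31, s2]
        · linarith only [g8_0, h35, s3]
  · rcases kh48 with g11_0 | g11_0 | g11_0 | g11_0 | ⟨g11_0, g11_1⟩
    · rcases kh16 with ⟨g12_0, g12_1⟩ | ⟨g12_0, g12_1⟩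
      · linarith only [g11_0, g12_0]
      · rcases kh81 with g13_0 | g13_0 | g13_0 | g13_0 | g13_0
        · linarith only [g13_0, h12, h6]
        · linarith only [g11_0, g12_0, g13_0, g1_1]
        · linarith only [g13_0, h1, h12]
        · rcases kh66 with g14_0 | g14_0 | g14_0 | g14_0 | g14_0
          · linarith only [g14_0, g1_0]
          · linarith only [e0, g14_0, h2, h4]
          · linarith only [g11_0, g14_0, h17, h27, h49, s1]
          · linarith only [g13_0, g14_0, h17, h2, h20, h31, h49, h50, s2]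
          · rcases kh45 with ⟨g15_0, g15_1⟩ | ⟨g15_0, g15_1⟩
            · linarith only [g13_0, g14_0, g15_1, h11, h17, h2, h20, h31, h49, h50, h51, s2]
            · rcases kh47 with g16_0 | g16_0 | g16_0 | g16_0 | g16_0 | g16_0 | g16_0 | ⟨g16_0, g16_1⟩
              · linarith only [g16_0, h12, h6]
              · linarith only [g11_0, g16_0, g1_1, h8]
              · linarith only [g13_0, g14_0, g16_0, h11, h12, h2, h24, h3, h35, h49, h50, h51, s3]
              · linarith only [g16_0, h12, h17, h26, h37, s1]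
              · linarith only [g12_0, g16_0]
              · linarith only [g13_0, g14_0, g15_1, g16_0, h17, h2, h20, h23, h27, h3, h31, h34, h38, h4, h49, h50, h51, s1, s3]
              · linarith only [g16_0, h24, h35, h44, s3]
              · rcases kh46 with g17_0 | g17_0 | g17_0 | g17_0 | g17_0 | g17_0
                · linarith only [g17_0, g1_0, h12]
                · linarith only [e0, g13_0, g14_0, g15_1, g16_1, g17_0, h2, h21, h23, h3, h32, h34, h41, h49, h50, h51, s2, s3]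
                · linarith only [e0, g13_0, g16_1, g17_0, h17, h27, h38, s1]
                · linarith only [g13_0, g16_1, g17_0, h27, s1]
                · linarith only [g16_1, g17_0, h31, s2]
                · linarith only [g17_0, h35, s3]
        · linarith only [g13_0, h24, h35, h44, s3]
    · linarith only [g11_0, h24, h31, h34, h44, s3]
    · linarith only [g11_0, g1_1]
    · linarith only [g11_0, h13, h14, h21, h31, h41, s2]
    · linarith only [g11_1, h24, h35, h44, s3]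

end Pool.Agent.Helper28.TQ
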