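import Pool.Agent.Helper89.TQ.Ctx

set_option autoImplicit false
set_option linter.all false

namespace Pool.Agent.Helper28.TQ
open Pool.Agent.Helper89.TQ

theorem c0_22_23_33_k3 {n1 n2 n3 A1 A2 A3 B1 B2 B3 m11_1 m11_2 m11_3 m13_1 m13_2 m13_3 m22_1 m22_2 m22_3 m23_1 m23_2 m23_3 m33_1 m33_2 m33_3 : ℤ}
    (C : Ctx0 n1 n2 n3 A1 A2 A3 B1 B2 B3 m11_1 m11_2 m11_3 m13_1 m13_2 m13_3 m22_1 m22_2 m22_3 m23_1 m23_2 m23_3 m33_1 m33_2 m33_3)
    (e0 : 0 < B2)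
    (e1 : 0 < A2)
    (e2 : 0 < B3)
    (e3 : 0 < A3)
    (s1 : 3 * A1 + 0 * B1 ≤ m22_1 + m23_1 + m33_1)
    (s2 : 3 * A2 + 0 * B2 ≤ m22_2 + m23_2 + m33_2)
    (s3 : 3 * A3 + 0 * B3 ≤ m22_3 + m23_3 + m33_3) : False := by
  have h2 := C.a2
  have h3 := C.a3
  have h4 := C.a4
  have h5 := C.a5
  have h6 := C.b0
  have h7 := C.b1
  have h8 := C.b2
  have h9 := C.b3
  have h10 := C.b4
  have h11 := C.b5
  have h12 := C.o0
  have h13 := C.o1
  have h14 := C.o2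
  have h17 := C.f22_0
  have h18 := C.f22_1
  have h20 := C.f22_3
  have h21 := C.f22_4
  have h23 := C.f22_6
  have h24 := C.f23_0
  have h25 := C.f23_1
  have h26 := C.f23_2
  have h29 := C.f23_5
  have h30 := C.f23_6
  have h33 := C.f23_9
  have h35 := C.f33_0
  have h36 := C.f33_1
  have h38 := C.f33_3
  have h39 := C.f33_4
  have h42 := C.f33_7
  have h44 := C.f13_0
  have h51 := C.f13_7
  have kh15 : (-A1 ≤ -1 ∧ -n2 - A1 + A2 ≤ -1) ∨ (-B1 ≤ -1 ∧ -n2 - B1 + B2 ≤ -1) := by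
    have q := C.t12
    clear * - q
    omega
  have kh19 : (-n1 + m22_1 ≤ 0 ∧ n1 - m22_1 ≤ 0) ∨ (-B2 + m22_1 ≤ -1 ∧ B2 - m22_1 ≤ 1) := by
    have q := C.f22_2
    clear * - q
    omega
  have kh22 : (-n2 - m22_1 + m22_2 ≤ 0 ∧ n2 + m22_1 - m22_2 ≤ 0) ∨ (-B2 + m22_2 ≤ -1 ∧ B2 - m22_2 ≤ 1) := by
    have q := C.f22_5
    clear * - q
    omega
  have kh31 : (-n2 - m23_1 + m23_2 ≤ 0 ∧ n2 + m23_1 - m23_2 ≤ 0) ∨ (-A2 + m23_2 ≤ -1 ∧ A2 - m23_2 ≤ 1) ∨ (-B3 + m23_2 ≤ -1 ∧ B3 - m23_2 ≤ 1) := by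
    have q := C.f23_7
    clear * - q
    omega
  have kh34 : (-n3 - m23_2 + m23_3 ≤ 0 ∧ n3 + m23_2 - m23_3 ≤ 0) ∨ (-B3 + m23_3 ≤ -1 ∧ B3 - m23_3 ≤ 1) := by
    have q := C.f23_10
    clear * - q
    omega
  have kh37 : (-n1 + m33_1 ≤ 0 ∧ n1 - m33_1 ≤ 0) ∨ (-A3 + m33_1 ≤ -1 ∧ A3 - m33_1 ≤ 1) := by
    have q := C.f33_2
    clear * - q
    omega
  have kh43 : (-n3 - m33_2 + m33_3 ≤ 0 ∧ n3 + m33_2 - m33_3 ≤ 0) ∨ (-A3 + m33_3 ≤ -1 ∧ A3 - m33_3 ≤ 1) := by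
    have q := C.f33_8
    clear * - q
    omega
  have kh46 : (-A1 + m13_1 ≤ -1 ∧ A1 - m13_1 ≤ 1) ∨ (-B3 + m13_1 ≤ -1 ∧ B3 - m13_1 ≤ 1) := by
    have q := C.f13_2
    clear * - q
    omega
  have kh49 : (-n2 - m13_1 + m13_2 ≤ 0 ∧ n2 + m13_1 - m13_2 ≤ 0) ∨ (-B3 + m13_2 ≤ -1 ∧ B3 - m13_2 ≤ 1) := by
    have q := C.f13_5
    clear * - q
    omega
  have kh52 : (-n3 - m13_2 + m13_3 ≤ 0 ∧ n3 + m13_2 - m13_3 ≤ 0) ∨ (-B3 + m13_3 ≤ -1 ∧ B3 - m13_3 ≤ 1) := by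
    have q := C.f13_8
    clear * - q
    omega
  have kh53 : (B2 ≤ 0) ∨ (A3 ≤ 0) ∨ (-2 * A1 + m22_1 + m33_1 ≤ -1) ∨ (-2 * A2 + m22_2 + m33_2 ≤ -1) ∨ (-2 * A3 + m22_3 + m33_3 ≤ -1) := by
    have q := C.p22_33A
    clear * - q
    omega
  have kh54 : (A2 ≤ 0) ∨ (B3 ≤ 0) ∨ (A3 ≤ 0) ∨ (-2 * A1 + m23_1 + m33_1 ≤ -1) ∨ (-2 * A2 + m23_2 + m33_2 ≤ -1) ∨ (-2 * A3 + m23_3 + m33_3 ≤ -1) := by
    have q := C.p23_33A
    clear * - q
    omega
  have kh56 : (A1 ≤ 0) ∨ (B3 ≤ 0) ∨ (A2 ≤ 0) ∨ (-2 * A1 + m13_1 + m23_1 ≤ -1) ∨ (-2 * A2 + m13_2 + m23_2 ≤ -1) ∨ (-2 * A3 + m13_3 + m23_3 ≤ -1) := by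
    have q := C.p13_23A
    clear * - q
    omega
  clear C
  rcases kh43 with ⟨g1_0, g1_1⟩ | ⟨g1_0, g1_1⟩
  · linarith only [g1_1, h13, h21, h29, h42, h5, s2]
  · rcases kh46 with ⟨g2_0, g2_1⟩ | ⟨g2_0, g2_1⟩
    · rcases kh22 with ⟨g3_0, g3_1⟩ | ⟨g3_0, g3_1⟩
      · rcases kh19 with ⟨g4_0, g4_1⟩ | ⟨g4_0, g4_1⟩
        · linarith only [g3_1, g4_1, h13, h21, h24, h3, h35, s1]
        · rcases kh15 with ⟨g5_0, g5_1⟩ | ⟨g5_0, g5_1⟩
          · linarith only [g3_1, g4_1, g5_1, h2, h21]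
          · linarith only [g3_1, g4_1, g5_1, h21, h8]
      · rcases kh53 with g6_0 | g6_0 | g6_0 | g6_0 | g6_0
        · linarith only [e0, g6_0]
        · linarith only [g6_0, h12, h13, h18, h25, h36, h4, h6, s1]
        · rcases kh31 with ⟨g7_0, g7_1⟩ | ⟨g7_0, g7_1⟩ | ⟨g7_0, g7_1⟩
          · linarith only [g6_0, g7_1, h20, h29, h38, s1, s2]
          · rcases kh37 with ⟨g8_0, g8_1⟩ | ⟨g8_0, g8_1⟩
            · rcases kh19 with ⟨g9_0, g9_1⟩ | ⟨g9_0, g9_1⟩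
              · linarith only [g6_0, g8_1, g9_1, h24, s1]
              · rcases kh34 with ⟨g10_0, g10_1⟩ | ⟨g10_0, g10_1⟩
                · linarith only [g10_1, g6_0, g7_1, g8_1, g9_1, h11, h17, h25, h33, s1]
                · rcases kh54 with g11_0 | g11_0 | g11_0 | g11_0 | g11_0 | g11_0
                  · linarith only [g11_0, g6_0, g8_1, g9_1, h2, h24, h6, h8, s1]
                  · linarith only [g11_0, g6_0, g8_1, g9_1, h17, h26, h6, h8, s1]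
                  · linarith only [g11_0, g6_0, g8_1, g9_1, h17, h2, h21, h29, h39, h6, h8, s2]
                  · linarith only [g11_0, g6_0, g8_1, h17, s1]
                  · linarith only [g11_0, g6_0, g8_1, g9_1, h21, h24, h25, s1, s2]
                  · rcases kh52 with ⟨g12_0, g12_1⟩ | ⟨g12_0, g12_1⟩
                    · rcases kh49 with ⟨g13_0, g13_1⟩ | ⟨g13_0, g13_1⟩
                      · linarith only [g10_1, g11_0, g12_1, g13_1, g1_1, g2_1, g6_0, g8_1, h20, h21, h23, h51, h7, h9, s3]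
                      · linarith only [g10_1, g11_0, g12_1, g13_1, g1_1, h10, h21, h30, h39, h5, h51, s2]
                    · rcases kh56 with g14_0 | g14_0 | g14_0 | g14_0 | g14_0 | g14_0
                      · linarith only [g14_0, g6_0, g8_1, g9_1, h24, h6, h8, s1]
                      · linarith only [e1, g14_0, h10, h14, h21, h30, h39, s2]
                      · linarith only [g14_0, g6_0, g8_1, g9_1, h2, h24, h6, h8, s1]
                      · linarith only [g14_0, g2_1, g6_0, s1]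
                      · rcases kh49 with ⟨g15_0, g15_1⟩ | ⟨g15_0, g15_1⟩
                        · linarith only [g14_0, g15_1, g2_1, g6_0, g9_1, h21, h25, h38, s1, s2]
                        · linarith only [g14_0, g15_1, h13, h14, h21, h39, s2]
                      · linarith only [g10_1, g12_1, g14_0, h14]
            · rcases kh19 with ⟨g16_0, g16_1⟩ | ⟨g16_0, g16_1⟩
              · linarith only [g16_1, g8_1, h13, h18, h21, h29, h35, h39, s2]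
              · linarith only [g16_1, g6_0, g8_1, h21, h25, h29, h39, s1, s2]
          · linarith only [g7_1, h10, h14, h21, h29, h39, s2]
        · linarith only [g6_0, h29, s2]
        · linarith only [g1_1, g3_1, g6_0, h11, h23, h33, s3]
    · linarith only [g2_1, h10, h14, h18, h26, h36, h44, s1]

end Pool.Agent.Helper28.TQ
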