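import Pool.Agent.Helper89.TQ.Ctx

set_option autoImplicit false
set_option linter.all false

namespace Pool.Agent.Helper28.TQ
open Pool.Agent.Helper89.TQ

theorem c2_11_13_22_k0 {n1 n2 n3 A1 A2 A3 B1 B2 B3 m11_1 m11_2 m11_3 m12_1 m12_2 m12_3 m13_1 m13_2 m13_3 m22_1 m22_2 m22_3 m33_1 m33_2 m33_3 : ℤ}
    (C : Ctx2 n1 n2 n3 A1 A2 A3 B1 B2 B3 m11_1 m11_2 m11_3 m12_1 m12_2 m12_3 m13_1 m13_2 m13_3 m22_1 m22_2 m22_3 m33_1 m33_2 m33_3)
    (e0 : 0 < B1)
    (e1 : 0 < A1)
    (e2 : 0 < B3)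
    (e3 : 0 < A2)
    (s1 : 0 * A1 + 3 * B1 ≤ m11_1 + m13_1 + m22_1)
    (s2 : 0 * A2 + 3 * B2 ≤ m11_2 + m13_2 + m22_2)
    (s3 : 0 * A3 + 3 * B3 ≤ m11_3 + m13_3 + m22_3) : False := by
  have h1 := C.a1
  have h2 := C.a2
  have h3 := C.a3
  have h4 := C.a4
  have h5 := C.a5
  have h9 := C.b3
  have h10 := C.b4
  have h11 := C.b5
  have h12 := C.o0
  have h13 := C.o1
  have h14 := C.o2
  have h17 := C.f11_0
  have h18 := C.f11_1
  have h19 := C.f11_2
  have h20 := C.f13_0
  have h23 := C.f13_3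
  have h24 := C.f13_4
  have h27 := C.f13_7
  have h29 := C.f22_0
  have h30 := C.f22_1
  have h32 := C.f22_3
  have h33 := C.f22_4
  have h35 := C.f22_6
  have h36 := C.f33_0
  have h43 := C.f33_7
  have kh22 : (-A1 + m13_1 ≤ -1 ∧ A1 - m13_1 ≤ 1) ∨ (-B3 + m13_1 ≤ -1 ∧ B3 - m13_1 ≤ 1) := by
    have q := C.f13_2
    clear * - q
    omega
  have kh28 : (-n3 - m13_2 + m13_3 ≤ 0 ∧ n3 + m13_2 - m13_3 ≤ 0) ∨ (-B3 + m13_3 ≤ -1 ∧ B3 - m13_3 ≤ 1) := by
    have q := C.f13_8
    clear * - q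
    omega
  have kh31 : (-n1 + m22_1 ≤ 0 ∧ n1 - m22_1 ≤ 0) ∨ (-A2 + m22_1 ≤ -1 ∧ A2 - m22_1 ≤ 1) := by
    have q := C.f22_2
    clear * - q
    omega
  have kh34 : (-n2 - m22_1 + m22_2 ≤ 0 ∧ n2 + m22_1 - m22_2 ≤ 0) ∨ (-A2 + m22_2 ≤ -1 ∧ A2 - m22_2 ≤ 1) := by
    have q := C.f22_5
    clear * - q
    omega
  have kh38 : (-n1 + m33_1 ≤ 0 ∧ n1 - m33_1 ≤ 0) ∨ (-A3 + m33_1 ≤ -1 ∧ A3 - m33_1 ≤ 1) := by
    have q := C.f33_2
    clear * - q
    omega
  have kh41 : (-n2 - m33_1 + m33_2 ≤ 0 ∧ n2 + m33_1 - m33_2 ≤ 0) ∨ (-A3 + m33_2 ≤ -1 ∧ A3 - m33_2 ≤ 1) := by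
    have q := C.f33_5
    clear * - q
    omega
  have kh44 : (-n3 - m33_2 + m33_3 ≤ 0 ∧ n3 + m33_2 - m33_3 ≤ 0) ∨ (-A3 + m33_3 ≤ -1 ∧ A3 - m33_3 ≤ 1) := by
    have q := C.f33_8
    clear * - q
    omega
  have kh45 : (B1 ≤ 0) ∨ (A1 ≤ 0) ∨ (B3 ≤ 0) ∨ (-2 * B1 + m11_1 + m13_1 ≤ -1) ∨ (-2 * B2 + m11_2 + m13_2 ≤ -1) ∨ (-2 * B3 + m11_3 + m13_3 ≤ -1) := by
    have q := C.p11_13B
    clear * - q
    omega
  have kh47 : (B1 ≤ 0) ∨ (A2 ≤ 0) ∨ (-2 * B1 + m11_1 + m22_1 ≤ -1) ∨ (-2 * B2 + m11_2 + m22_2 ≤ -1) ∨ (-2 * B3 + m11_3 + m22_3 ≤ -1) := by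
    have q := C.p11_22B
    clear * - q
    omega
  have kh48 : (n1 - A1 ≤ 0) ∨ (-A1 + A2 ≤ 0) ∨ (-A2 + A3 ≤ 0) ∨ (B1 ≤ 0) ∨ (n2 + B1 - B2 ≤ 0) ∨ (n3 + B2 - B3 ≤ 0) := by
    have q := C.tmzp
    clear * - q
    omega
  have kh49 : (-A1 + A2 ≤ 0) ∨ (n3 + A2 - A3 ≤ 1) ∨ (n2 + B1 - B2 ≤ 0) ∨ (-B2 + B3 ≤ 1) := by
    have q := C.tzpm
    clear * - q
    omega
  have kh51 : (B1 ≤ 0) ∨ (A3 ≤ 0) ∨ (-2 * B1 + m11_1 + m33_1 ≤ -1) ∨ (-2 * B2 + m11_2 + m33_2 ≤ -1) ∨ (-2 * B3 + m11_3 + m33_3 ≤ -1) := by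
    have q := C.p11_33B
    clear * - q
    omega
  clear C
  rcases kh22 with ⟨g1_0, g1_1⟩ | ⟨g1_0, g1_1⟩
  · rcases kh31 with ⟨g2_0, g2_1⟩ | ⟨g2_0, g2_1⟩
    · rcases kh34 with ⟨g3_0, g3_1⟩ | ⟨g3_0, g3_1⟩
      · linarith only [g2_1, g3_1, h1, h3, h33]
      · rcases kh47 with g4_0 | g4_0 | g4_0 | g4_0 | g4_0
        · linarith only [e0, g4_0]
        · linarith only [e1, g4_0, h2]
        · linarith only [g2_1, g4_0, h1, h17, h20, s1]
        · rcases kh28 with ⟨g5_0, g5_1⟩ | ⟨g5_0, g5_1⟩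
          · linarith only [g4_0, g5_1, h19, h27, h35, s2, s3]
          · rcases kh45 with g6_0 | g6_0 | g6_0 | g6_0 | g6_0 | g6_0
            · linarith only [e0, g6_0]
            · linarith only [e0, g6_0, h12]
            · linarith only [e0, g3_1, g4_0, g6_0, h10, h14, h18, h2, h20, h3, h30, h4, s1]
            · rcases kh49 with g7_0 | g7_0 | g7_0 | g7_0
              · linarith only [g1_1, g6_0, g7_0, h17, h30, s1]
              · rcases kh38 with ⟨g8_0, g8_1⟩ | ⟨g8_0, g8_1⟩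
                · rcases kh48 with g9_0 | g9_0 | g9_0 | g9_0 | g9_0 | g9_0
                  · rcases kh44 with ⟨g10_0, g10_1⟩ | ⟨g10_0, g10_1⟩
                    · rcases kh41 with ⟨g11_0, g11_1⟩ | ⟨g11_0, g11_1⟩
                      · linarith only [g10_1, g11_1, g7_0, g8_1, h1, h11, h14, h17, h18, h20, h23, h29, h33, h43, s1, s2]
                      · linarith only [g10_1, g11_1, g4_0, h11, h24, h43, s2]
                    · rcases kh51 with g12_0 | g12_0 | g12_0 | g12_0 | g12_0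
                      · linarith only [e0, g12_0]
                      · linarith only [e0, g12_0, g7_0, g9_0, h10, h11, h17, h2, h20, h29, s1]
                      · linarith only [g12_0, g8_1, h1, h17, h20, h29, s1]
                      · rcases kh41 with ⟨g13_0, g13_1⟩ | ⟨g13_0, g13_1⟩
                        · linarith only [g12_0, g13_1, g6_0, g8_1, h13, h17, h23, h29, h33, s1, s2]
                        · linarith only [g12_0, g13_1, g7_0, h11, h24, h33, s2]
                      · linarith only [g10_1, g12_0, g7_0, h27, h33, h35, s3]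
                  · linarith only [g1_1, g6_0, g9_0, h17, h30, s1]
                  · linarith only [g4_0, g7_0, g9_0, h11, h24, s2]
                  · linarith only [e0, g9_0]
                  · linarith only [g6_0, g9_0, h13, h18, h23, h33, s2]
                  · linarith only [g4_0, g9_0, h19, h27, h35, s3]
                · linarith only [g2_1, g4_0, g7_0, g8_1, h19, h24, h27, h30, h35, h36, s2, s3]
              · linarith only [g6_0, g7_0, h13, h18, h23, h33, s2]
              · linarith only [g4_0, g7_0, h24, s2]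
            · linarith only [g4_0, g6_0, h17, h18, h9, s2]
            · linarith only [g5_1, g6_0, h13, h17, h18, h19, h33, h35, h9, s3]
        · linarith only [g4_0, h27, s3]
    · rcases kh34 with ⟨g14_0, g14_1⟩ | ⟨g14_0, g14_1⟩
      · linarith only [g14_1, g2_1, h13, h17, h18, h2, h20, h23, h33, s1, s2]
      · rcases kh47 with g15_0 | g15_0 | g15_0 | g15_0 | g15_0
        · linarith only [e0, g15_0]
        · linarith only [e1, g15_0, h2]
        · linarith only [g15_0, g2_1, h17, h2, h20, s1]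
        · rcases kh28 with ⟨g16_0, g16_1⟩ | ⟨g16_0, g16_1⟩
          · linarith only [g15_0, g16_1, h19, h27, h35, s2, s3]
          · rcases kh45 with g17_0 | g17_0 | g17_0 | g17_0 | g17_0 | g17_0
            · linarith only [e0, g17_0]
            · linarith only [e0, g17_0, h12]
            · linarith only [e0, g14_1, g15_0, g17_0, h10, h14, h18, h2, h20, h3, h30, h4, s1]
            · rcases kh49 with g18_0 | g18_0 | g18_0 | g18_0
              · linarith only [g17_0, g18_0, g1_1, h17, h30, s1]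
              · rcases kh48 with g19_0 | g19_0 | g19_0 | g19_0 | g19_0 | g19_0
                · rcases kh38 with ⟨g20_0, g20_1⟩ | ⟨g20_0, g20_1⟩
                  · rcases kh44 with ⟨g21_0, g21_1⟩ | ⟨g21_0, g21_1⟩
                    · rcases kh41 with ⟨g22_0, g22_1⟩ | ⟨g22_0, g22_1⟩
                      · linarith only [g20_1, g21_1, g22_1, g2_1, h13, h17, h18, h2, h20, h23, h29, h32, h43, h5, s1, s2]
                      · linarith only [g15_0, g21_1, g22_1, h11, h24, h43, s2]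
                    · rcases kh51 with g23_0 | g23_0 | g23_0 | g23_0 | g23_0
                      · linarith only [e0, g23_0]
                      · linarith only [e0, g18_0, g19_0, g23_0, h10, h11, h17, h2, h20, h29, s1]
                      · linarith only [g20_1, g23_0, g2_1, h17, h2, h20, h29, s1]
                      · rcases kh41 with ⟨g24_0, g24_1⟩ | ⟨g24_0, g24_1⟩
                        · linarith only [g20_1, g23_0, g24_1, g2_1, h13, h2, h20, h23, h29, h33, s2]
                        · linarith only [g18_0, g23_0, g24_1, h11, h24, h33, s2]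
                      · linarith only [g18_0, g21_1, g23_0, h27, h33, h35, s3]
                  · linarith only [g15_0, g18_0, g19_0, g20_1, h19, h2, h24, h27, h35, h36, s2, s3]
                · linarith only [g17_0, g19_0, g1_1, h17, h30, s1]
                · linarith only [g15_0, g18_0, g19_0, h11, h24, s2]
                · linarith only [e0, g19_0]
                · linarith only [g17_0, g18_0, g19_0, h11, h14, h18, h23, h33, s2]
                · linarith only [g15_0, g19_0, h19, h27, h35, s3]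
              · linarith only [g17_0, g18_0, h13, h18, h23, h33, s2]
              · linarith only [g15_0, g18_0, h24, s2]
            · linarith only [g15_0, g17_0, h17, h18, h9, s2]
            · linarith only [g16_1, g17_0, h13, h17, h18, h19, h33, h35, h9, s3]
        · linarith only [g15_0, h27, s3]
  · linarith only [g1_1, h14, h2, h20, h4]

end Pool.Agent.Helper28.TQ
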