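import Pool.Agent.Helper89.TQ.Ctx

set_option autoImplicit false
set_option linter.all false

namespace Pool.Agent.Helper28.TQ
open Pool.Agent.Helper89.TQ

theorem c2_11_22_33_k3 {n1 n2 n3 A1 A2 A3 B1 B2 B3 m11_1 m11_2 m11_3 m12_1 m12_2 m12_3 m13_1 m13_2 m13_3 m22_1 m22_2 m22_3 m33_1 m33_2 m33_3 : ℤ}
    (C : Ctx2 n1 n2 n3 A1 A2 A3 B1 B2 B3 m11_1 m11_2 m11_3 m12_1 m12_2 m12_3 m13_1 m13_2 m13_3 m22_1 m22_2 m22_3 m33_1 m33_2 m33_3)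
    (e0 : 0 < B1)
    (e1 : 0 < A2)
    (e2 : 0 < A3)
    (s1 : 3 * A1 + 0 * B1 ≤ m11_1 + m22_1 + m33_1)
    (s2 : 3 * A2 + 0 * B2 ≤ m11_2 + m22_2 + m33_2)
    (s3 : 3 * A3 + 0 * B3 ≤ m11_3 + m22_3 + m33_3) : False := by
  have h2 := C.a2
  have h4 := C.a4
  have h7 := C.b1
  have h9 := C.b3
  have h12 := C.o0
  have h13 := C.o1
  have h17 := C.f11_0
  have h18 := C.f11_1
  have h19 := C.f11_2
  have h20 := C.f22_0
  have h21 := C.f22_1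
  have h24 := C.f22_4
  have h26 := C.f22_6
  have h27 := C.f33_0
  have h36 := C.f12_0
  have h40 := C.f12_4
  have h42 := C.f12_6
  have kh29 : (-n1 + m33_1 ≤ 0 ∧ n1 - m33_1 ≤ 0) ∨ (-A3 + m33_1 ≤ -1 ∧ A3 - m33_1 ≤ 1) := by
    have q := C.f33_2
    clear * - q
    omega
  have kh35 : (-n3 - m33_2 + m33_3 ≤ 0 ∧ n3 + m33_2 - m33_3 ≤ 0) ∨ (-A3 + m33_3 ≤ -1 ∧ A3 - m33_3 ≤ 1) := by
    have q := C.f33_8
    clear * - q
    omega
  have kh38 : (-A1 + m12_1 ≤ -1 ∧ A1 - m12_1 ≤ 1) ∨ (-B2 + m12_1 ≤ -1 ∧ B2 - m12_1 ≤ 1) := by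
    have q := C.f12_2
    clear * - q
    omega
  have kh41 : (-n2 - m12_1 + m12_2 ≤ 0 ∧ n2 + m12_1 - m12_2 ≤ 0) ∨ (-B2 + m12_2 ≤ -1 ∧ B2 - m12_2 ≤ 1) := by
    have q := C.f12_5
    clear * - q
    omega
  have kh43 : (B1 ≤ 0) ∨ (A3 ≤ 0) ∨ (-2 * A1 + m11_1 + m33_1 ≤ -1) ∨ (-2 * A2 + m11_2 + m33_2 ≤ -1) ∨ (-2 * A3 + m11_3 + m33_3 ≤ -1) := by
    have q := C.p11_33A
    clear * - q
    omega
  have kh46 : (n1 - A1 ≤ 0) ∨ (-A1 + A2 ≤ 1) ∨ (B1 ≤ 0) ∨ (n2 + B1 - B2 ≤ 1) := by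
    have q := C.tmpp
    clear * - q
    omega
  have kh49 : (A1 ≤ 0) ∨ (B2 ≤ 0) ∨ (A3 ≤ 0) ∨ (-2 * A1 + m12_1 + m33_1 ≤ -1) ∨ (-2 * A2 + m12_2 + m33_2 ≤ -1) ∨ (-2 * A3 + m12_3 + m33_3 ≤ -1) := by
    have q := C.p12_33A
    clear * - q
    omega
  clear C
  rcases kh38 with ⟨g1_0, g1_1⟩ | ⟨g1_0, g1_1⟩
  · rcases kh41 with ⟨g2_0, g2_1⟩ | ⟨g2_0, g2_1⟩
    · linarith only [g1_1, g2_1, h12, h40, h9]
    · rcases kh43 with g3_0 | g3_0 | g3_0 | g3_0 | g3_0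
      · linarith only [e0, g3_0]
      · linarith only [e0, g3_0, h12, h2, h4]
      · rcases kh46 with g4_0 | g4_0 | g4_0 | g4_0
        · linarith only [g4_0, h17, h20, h27, h7, s1]
        · linarith only [g3_0, g4_0, h21, s1]
        · linarith only [e0, g4_0]
        · rcases kh49 with g5_0 | g5_0 | g5_0 | g5_0 | g5_0 | g5_0
          · linarith only [e0, g5_0, h12]
          · linarith only [e0, g5_0, h12, h13, h2]
          · linarith only [e0, g5_0, h12, h2, h4]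
          · rcases kh29 with ⟨g6_0, g6_1⟩ | ⟨g6_0, g6_1⟩
            · linarith only [g1_1, g5_0, g6_1, h17, h20, h7, s1]
            · linarith only [g1_1, g5_0, g6_1, h12, h17, h21, h4, s1]
          · linarith only [g2_1, g4_0, g5_0, h17, h18, h24, s2]
          · rcases kh35 with ⟨g7_0, g7_1⟩ | ⟨g7_0, g7_1⟩
            · linarith only [g2_1, g4_0, g5_0, g7_1, h17, h18, h19, h24, h26, h42, s2, s3]
            · linarith only [g2_1, g4_0, g5_0, g7_1, h13, h17, h18, h19, h24, h26, h42, s3]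
      · linarith only [g3_0, h24, s2]
      · rcases kh35 with ⟨g8_0, g8_1⟩ | ⟨g8_0, g8_1⟩
        · linarith only [g3_0, g8_1, h19, h24, h26, s2, s3]
        · linarith only [g3_0, g8_1, h13, h17, h18, h19, h24, h26, h9, s3]
  · linarith only [g1_1, h13, h2, h36]

end Pool.Agent.Helper28.TQ
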