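import Pool.Agent.Helper89.TQ.Ctx

set_option autoImplicit false
set_option linter.all false

namespace Pool.Agent.Helper28.TQ
open Pool.Agent.Helper89.TQ

theorem c2_11_33_33_k3 {n1 n2 n3 A1 A2 A3 B1 B2 B3 m11_1 m11_2 m11_3 m12_1 m12_2 m12_3 m13_1 m13_2 m13_3 m22_1 m22_2 m22_3 m33_1 m33_2 m33_3 : ℤ}
    (C : Ctx2 n1 n2 n3 A1 A2 A3 B1 B2 B3 m11_1 m11_2 m11_3 m12_1 m12_2 m12_3 m13_1 m13_2 m13_3 m22_1 m22_2 m22_3 m33_1 m33_2 m33_3)
    (e0 : 0 < B1)
    (e1 : 0 < A3)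
    (s1 : 3 * A1 + 0 * B1 ≤ m11_1 + m33_1 + m33_1)
    (s2 : 3 * A2 + 0 * B2 ≤ m11_2 + m33_2 + m33_2)
    (s3 : 3 * A3 + 0 * B3 ≤ m11_3 + m33_3 + m33_3) : False := by
  have h2 := C.a2
  have h3 := C.a3
  have h5 := C.a5
  have h7 := C.b1
  have h9 := C.b3
  have h11 := C.b5
  have h12 := C.o0
  have h13 := C.o1
  have h14 := C.o2
  have h17 := C.f11_0
  have h18 := C.f11_1
  have h19 := C.f11_2
  have h20 := C.f33_0
  have h21 := C.f33_1
  have h24 := C.f33_4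
  have h27 := C.f33_7
  have h29 := C.f12_0
  have h32 := C.f12_3
  have h33 := C.f12_4
  have h35 := C.f12_6
  have kh16 : (A1 - A2 ≤ -1 ∧ -n3 - A2 + A3 ≤ -1) ∨ (B1 - B2 ≤ -1 ∧ -n3 - B2 + B3 ≤ -1) := by
    have q := C.t23
    clear * - q
    omega
  have kh22 : (-n1 + m33_1 ≤ 0 ∧ n1 - m33_1 ≤ 0) ∨ (-A3 + m33_1 ≤ -1 ∧ A3 - m33_1 ≤ 1) := by
    have q := C.f33_2
    clear * - q
    omega
  have kh25 : (-n2 - m33_1 + m33_2 ≤ 0 ∧ n2 + m33_1 - m33_2 ≤ 0) ∨ (-A3 + m33_2 ≤ -1 ∧ A3 - m33_2 ≤ 1) := by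
    have q := C.f33_5
    clear * - q
    omega
  have kh28 : (-n3 - m33_2 + m33_3 ≤ 0 ∧ n3 + m33_2 - m33_3 ≤ 0) ∨ (-A3 + m33_3 ≤ -1 ∧ A3 - m33_3 ≤ 1) := by
    have q := C.f33_8
    clear * - q
    omega
  have kh31 : (-A1 + m12_1 ≤ -1 ∧ A1 - m12_1 ≤ 1) ∨ (-B2 + m12_1 ≤ -1 ∧ B2 - m12_1 ≤ 1) := by
    have q := C.f12_2
    clear * - q
    omega
  have kh34 : (-n2 - m12_1 + m12_2 ≤ 0 ∧ n2 + m12_1 - m12_2 ≤ 0) ∨ (-B2 + m12_2 ≤ -1 ∧ B2 - m12_2 ≤ 1) := by
    have q := C.f12_5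
    clear * - q
    omega
  have kh36 : (B1 ≤ 0) ∨ (A3 ≤ 0) ∨ (-2 * A1 + m11_1 + m33_1 ≤ -1) ∨ (-2 * A2 + m11_2 + m33_2 ≤ -1) ∨ (-2 * A3 + m11_3 + m33_3 ≤ -1) := by
    have q := C.p11_33A
    clear * - q
    omega
  have kh37 : (B1 ≤ 0) ∨ (A3 ≤ 0) ∨ (-2 * B1 + m11_1 + m33_1 ≤ -1) ∨ (-2 * B2 + m11_2 + m33_2 ≤ -1) ∨ (-2 * B3 + m11_3 + m33_3 ≤ -1) := by
    have q := C.p11_33B
    clear * - q
    omega
  have kh42 : (n1 - A1 ≤ 0) ∨ (-A1 + A2 ≤ 1) ∨ (B1 ≤ 0) ∨ (n2 + B1 - B2 ≤ 1) := by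
    have q := C.tmpp
    clear * - q
    omega
  have kh43 : (A1 ≤ 0) ∨ (B2 ≤ 0) ∨ (A3 ≤ 0) ∨ (-2 * A1 + m12_1 + m33_1 ≤ -1) ∨ (-2 * A2 + m12_2 + m33_2 ≤ -1) ∨ (-2 * A3 + m12_3 + m33_3 ≤ -1) := by
    have q := C.p12_33A
    clear * - q
    omega
  clear C
  rcases kh31 with ⟨g1_0, g1_1⟩ | ⟨g1_0, g1_1⟩
  · rcases kh34 with ⟨g2_0, g2_1⟩ | ⟨g2_0, g2_1⟩
    · linarith only [g1_1, g2_1, h12, h33, h9]
    · rcases kh36 with g3_0 | g3_0 | g3_0 | g3_0 | g3_0
      · linarith only [e0, g3_0]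
      · linarith only [e0, g3_0, h12, h17, h21, s1]
      · rcases kh42 with g4_0 | g4_0 | g4_0 | g4_0
        · linarith only [g4_0, h17, h20, h7, s1]
        · rcases kh25 with ⟨g5_0, g5_1⟩ | ⟨g5_0, g5_1⟩
          · rcases kh22 with ⟨g6_0, g6_1⟩ | ⟨g6_0, g6_1⟩
            · rcases kh28 with ⟨g7_0, g7_1⟩ | ⟨g7_0, g7_1⟩
              · linarith only [g5_1, g6_1, g7_1, h11, h14, h27, h7, h9]
              · rcases kh37 with g8_0 | g8_0 | g8_0 | g8_0 | g8_0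
                · linarith only [e0, g8_0]
                · linarith only [e0, g6_1, g8_0, h21, h7]
                · linarith only [g3_0, g8_0, h17, s1]
                · linarith only [g3_0, g5_1, g8_0, h17, h18, h9, s1]
                · rcases kh43 with g9_0 | g9_0 | g9_0 | g9_0 | g9_0 | g9_0
                  · linarith only [e0, g3_0, g6_1, g9_0, h17, h7]
                  · linarith only [e0, g3_0, g6_1, g9_0, h13, h17, h2, h7]
                  · linarith only [e0, g6_1, g9_0, h21, h7]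
                  · linarith only [g1_1, g6_1, g9_0, h17, h7, s1]
                  · linarith only [g2_1, g5_1, g6_1, g9_0, h13, h17, h3, h7, s1]
                  · rcases kh16 with ⟨g10_0, g10_1⟩ | ⟨g10_0, g10_1⟩
                    · linarith only [g10_1, g2_1, g7_1, g9_0, h13, h35]
                    · linarith only [g10_1, g2_1, g7_1, g8_0, g9_0, h35, s3]
            · linarith only [g2_1, g5_1, g6_1, h13, h2, h24, h29, h32]
          · rcases kh28 with ⟨g11_0, g11_1⟩ | ⟨g11_0, g11_1⟩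
            · linarith only [g11_1, g3_0, g4_0, g5_1, h21, h27, h5, s1]
            · rcases kh43 with g12_0 | g12_0 | g12_0 | g12_0 | g12_0 | g12_0
              · linarith only [e0, g12_0, g3_0, h17, s1]
              · linarith only [e0, g12_0, g3_0, h13, h17, h2, s1]
              · linarith only [e0, g12_0, h12, h17, h21, s1]
              · linarith only [g12_0, g1_1, h12, h17, s1]
              · linarith only [g12_0, g2_1, g3_0, g4_0, g5_1, h13, h21, s1]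
              · rcases kh16 with ⟨g13_0, g13_1⟩ | ⟨g13_0, g13_1⟩
                · linarith only [g11_1, g12_0, g13_1, g2_1, h13, h35]
                · linarith only [g11_1, g12_0, g13_1, g2_1, h14, h35]
        · linarith only [e0, g4_0]
        · rcases kh43 with g14_0 | g14_0 | g14_0 | g14_0 | g14_0 | g14_0
          · linarith only [e0, g14_0, g3_0, h17, s1]
          · linarith only [e0, g14_0, h12, h13, h2]
          · linarith only [e0, g14_0, h12, h17, h21, s1]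
          · linarith only [g14_0, g1_1, h12, h17, s1]
          · linarith only [g14_0, g2_1, g4_0, h13, h17, h18, s2]
          · linarith only [g14_0, g2_1, g4_0, h11, h14, h17, h18, h19, h35, s3]
      · linarith only [g3_0, h13, h17, h18, h9, s2]
      · linarith only [g3_0, h11, h14, h17, h18, h19, h9, s3]
  · linarith only [g1_1, h13, h2, h29]

end Pool.Agent.Helper28.TQ
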