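import Pool.Agent.Helper89.TQ.Ctx

set_option autoImplicit false
set_option linter.all false

namespace Pool.Agent.Helper28.TQ
open Pool.Agent.Helper89.TQ

theorem c2_13_22_33_k3 {n1 n2 n3 A1 A2 A3 B1 B2 B3 m11_1 m11_2 m11_3 m12_1 m12_2 m12_3 m13_1 m13_2 m13_3 m22_1 m22_2 m22_3 m33_1 m33_2 m33_3 : ℤ}
    (C : Ctx2 n1 n2 n3 A1 A2 A3 B1 B2 B3 m11_1 m11_2 m11_3 m12_1 m12_2 m12_3 m13_1 m13_2 m13_3 m22_1 m22_2 m22_3 m33_1 m33_2 m33_3)
    (e0 : 0 < A1)
    (e1 : 0 < B3)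
    (e2 : 0 < A2)
    (e3 : 0 < A3)
    (s1 : 3 * A1 + 0 * B1 ≤ m13_1 + m22_1 + m33_1)
    (s2 : 3 * A2 + 0 * B2 ≤ m13_2 + m22_2 + m33_2)
    (s3 : 3 * A3 + 0 * B3 ≤ m13_3 + m22_3 + m33_3) : False := by
  have h2 := C.a2
  have h4 := C.a4
  have h5 := C.a5
  have h6 := C.b0
  have h7 := C.b1
  have h9 := C.b3
  have h10 := C.b4
  have h12 := C.o0
  have h13 := C.o1
  have h14 := C.o2
  have h17 := C.f13_0
  have h18 := C.f13_1
  have h20 := C.f13_3
  have h21 := C.f13_4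
  have h26 := C.f22_0
  have h27 := C.f22_1
  have h29 := C.f22_3
  have h30 := C.f22_4
  have h32 := C.f22_6
  have h34 := C.f33_1
  have h37 := C.f33_4
  have h40 := C.f33_7
  have h42 := C.f12_0
  have h43 := C.f12_1
  have h46 := C.f12_4
  have h48 := C.f12_6
  have kh19 : (-A1 + m13_1 ≤ -1 ∧ A1 - m13_1 ≤ 1) ∨ (-B3 + m13_1 ≤ -1 ∧ B3 - m13_1 ≤ 1) := by
    have q := C.f13_2
    clear * - q
    omega
  have kh25 : (-n3 - m13_2 + m13_3 ≤ 0 ∧ n3 + m13_2 - m13_3 ≤ 0) ∨ (-B3 + m13_3 ≤ -1 ∧ B3 - m13_3 ≤ 1) := by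
    have q := C.f13_8
    clear * - q
    omega
  have kh35 : (-n1 + m33_1 ≤ 0 ∧ n1 - m33_1 ≤ 0) ∨ (-A3 + m33_1 ≤ -1 ∧ A3 - m33_1 ≤ 1) := by
    have q := C.f33_2
    clear * - q
    omega
  have kh38 : (-n2 - m33_1 + m33_2 ≤ 0 ∧ n2 + m33_1 - m33_2 ≤ 0) ∨ (-A3 + m33_2 ≤ -1 ∧ A3 - m33_2 ≤ 1) := by
    have q := C.f33_5
    clear * - q
    omega
  have kh41 : (-n3 - m33_2 + m33_3 ≤ 0 ∧ n3 + m33_2 - m33_3 ≤ 0) ∨ (-A3 + m33_3 ≤ -1 ∧ A3 - m33_3 ≤ 1) := by
    have q := C.f33_8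
    clear * - q
    omega
  have kh44 : (-A1 + m12_1 ≤ -1 ∧ A1 - m12_1 ≤ 1) ∨ (-B2 + m12_1 ≤ -1 ∧ B2 - m12_1 ≤ 1) := by
    have q := C.f12_2
    clear * - q
    omega
  have kh47 : (-n2 - m12_1 + m12_2 ≤ 0 ∧ n2 + m12_1 - m12_2 ≤ 0) ∨ (-B2 + m12_2 ≤ -1 ∧ B2 - m12_2 ≤ 1) := by
    have q := C.f12_5
    clear * - q
    omega
  have kh49 : (A1 ≤ 0) ∨ (B3 ≤ 0) ∨ (A3 ≤ 0) ∨ (-2 * A1 + m13_1 + m33_1 ≤ -1) ∨ (-2 * A2 + m13_2 + m33_2 ≤ -1) ∨ (-2 * A3 + m13_3 + m33_3 ≤ -1) := by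
    have q := C.p13_33A
    clear * - q
    omega
  have kh50 : (A2 ≤ 0) ∨ (A3 ≤ 0) ∨ (-2 * A1 + m22_1 + m33_1 ≤ -1) ∨ (-2 * A2 + m22_2 + m33_2 ≤ -1) ∨ (-2 * A3 + m22_3 + m33_3 ≤ -1) := by
    have q := C.p22_33A
    clear * - q
    omega
  have kh54 : (A1 ≤ 0) ∨ (B2 ≤ 0) ∨ (A3 ≤ 0) ∨ (-2 * A1 + m12_1 + m33_1 ≤ -1) ∨ (-2 * A2 + m12_2 + m33_2 ≤ -1) ∨ (-2 * A3 + m12_3 + m33_3 ≤ -1) := by
    have q := C.p12_33A
    clear * - q
    omega
  clear C
  rcases kh19 with ⟨g1_0, g1_1⟩ | ⟨g1_0, g1_1⟩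
  · rcases kh44 with ⟨g2_0, g2_1⟩ | ⟨g2_0, g2_1⟩
    · rcases kh47 with ⟨g3_0, g3_1⟩ | ⟨g3_0, g3_1⟩
      · linarith only [g2_1, g3_1, h12, h46, h9]
      · rcases kh35 with ⟨g4_0, g4_1⟩ | ⟨g4_0, g4_1⟩
        · rcases kh49 with g5_0 | g5_0 | g5_0 | g5_0 | g5_0 | g5_0
          · linarith only [g5_0, h12, h6]
          · linarith only [g5_0, h10, h12, h13, h14, h18, h27, h34, h6, s1]
          · linarith only [g4_1, g5_0, h34, h6, h7]
          · linarith only [g1_1, g4_1, g5_0, h26, s1]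
          · linarith only [g5_0, h30, s2]
          · rcases kh41 with ⟨g6_0, g6_1⟩ | ⟨g6_0, g6_1⟩
            · rcases kh38 with ⟨g7_0, g7_1⟩ | ⟨g7_0, g7_1⟩
              · linarith only [g4_1, g6_1, g7_1, h17, h20, h26, h29, h40, h5, s1, s2]
              · linarith only [g5_0, g6_1, g7_1, h30, h32, h4, h40, s3]
            · rcases kh50 with g8_0 | g8_0 | g8_0 | g8_0 | g8_0
              · linarith only [g8_0, h12, h2, h6]
              · linarith only [g4_1, g8_0, h34, h6, h7]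
              · linarith only [g8_0, h17, s1]
              · rcases kh25 with ⟨g9_0, g9_1⟩ | ⟨g9_0, g9_1⟩
                · linarith only [g5_0, g6_1, g8_0, g9_1, h5, s2]
                · rcases kh54 with g10_0 | g10_0 | g10_0 | g10_0 | g10_0 | g10_0
                  · linarith only [e0, g10_0]
                  · linarith only [e2, g10_0, h13]
                  · linarith only [g10_0, g5_0, g6_1, g9_1, h12, h18, h21, h27, h30, h34, h37, h6, s1, s2]
                  · linarith only [g10_0, g2_1, g4_1, h17, h26, s1]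
                  · rcases kh38 with ⟨g11_0, g11_1⟩ | ⟨g11_0, g11_1⟩
                    · linarith only [g10_0, g11_1, g3_1, g4_1, g8_0, h13, h17, h20, h26, s1, s2]
                    · linarith only [g10_0, g11_1, g3_1, g5_0, g6_1, g8_0, g9_1, h13, h21, s2]
                  · linarith only [g10_0, g3_1, g5_0, g6_1, h13, h30, h32, h48, s3]
              · linarith only [g5_0, g6_1, g8_0, s3]
        · rcases kh38 with ⟨g12_0, g12_1⟩ | ⟨g12_0, g12_1⟩
          · linarith only [g12_1, g2_1, g4_1, h12, h37, h43, h9]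
          · rcases kh49 with g13_0 | g13_0 | g13_0 | g13_0 | g13_0 | g13_0
            · linarith only [g13_0, h12, h6]
            · linarith only [g13_0, h10, h12, h13, h14, h18, h27, h34, h6, s1]
            · linarith only [g13_0, h12, h17, h27, h34, h4, h6, s1]
            · linarith only [g13_0, g1_1, g4_1, h27, h4, s1]
            · linarith only [g13_0, h30, s2]
            · rcases kh41 with ⟨g14_0, g14_1⟩ | ⟨g14_0, g14_1⟩
              · linarith only [g12_1, g13_0, g14_1, h30, h32, h4, h40, s3]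
              · rcases kh50 with g15_0 | g15_0 | g15_0 | g15_0 | g15_0
                · linarith only [g15_0, h12, h2, h6]
                · linarith only [g15_0, h12, h17, h27, h34, h4, h6, s1]
                · linarith only [g15_0, h17, s1]
                · rcases kh25 with ⟨g16_0, g16_1⟩ | ⟨g16_0, g16_1⟩
                  · linarith only [g13_0, g14_1, g15_0, g16_1, h5, s2]
                  · rcases kh54 with g17_0 | g17_0 | g17_0 | g17_0 | g17_0 | g17_0
                    · linarith only [e0, g17_0]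
                    · linarith only [e2, g17_0, h13]
                    · linarith only [g13_0, g14_1, g16_1, g17_0, h12, h18, h21, h27, h30, h34, h37, h6, s1, s2]
                    · linarith only [g13_0, g14_1, g15_0, g16_1, g17_0, g2_1, g4_1, h17, h21, h27, s1, s2]
                    · linarith only [g12_1, g13_0, g14_1, g15_0, g16_1, g17_0, g3_1, h13, h21, s2]
                    · linarith only [g12_1, g13_0, g14_1, g15_0, g16_1, g17_0, g3_1, h13, h21, h32, h48, s2, s3]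
                · linarith only [g13_0, g14_1, g15_0, s3]
    · linarith only [g2_1, h13, h2, h42]
  · linarith only [g1_1, h10, h13, h17, h2]

end Pool.Agent.Helper28.TQ
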