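import Pool.Agent.Helper89.TQ.Ctx

set_option autoImplicit false
set_option linter.all false

namespace Pool.Agent.Helper28.TQ
open Pool.Agent.Helper89.TQ

theorem c3_22_22_33_k0 {n1 n2 n3 A1 A2 A3 B1 B2 B3 m11_1 m11_2 m11_3 m22_1 m22_2 m22_3 m23_1 m23_2 m23_3 m33_1 m33_2 m33_3 : ℤ}
    (C : Ctx3 n1 n2 n3 A1 A2 A3 B1 B2 B3 m11_1 m11_2 m11_3 m22_1 m22_2 m22_3 m23_1 m23_2 m23_3 m33_1 m33_2 m33_3)
    (e0 : 0 < B2)
    (e1 : 0 < A3)
    (s1 : 0 * A1 + 3 * B1 ≤ m22_1 + m22_1 + m33_1)
    (s2 : 0 * A2 + 3 * B2 ≤ m22_2 + m22_2 + m33_2)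
    (s3 : 0 * A3 + 3 * B3 ≤ m22_3 + m22_3 + m33_3) : False := by
  have h0 := C.a0
  have h3 := C.a3
  have h4 := C.a4
  have h5 := C.a5
  have h8 := C.b2
  have h11 := C.b5
  have h12 := C.o0
  have h13 := C.o1
  have h14 := C.o2
  have h17 := C.f22_0
  have h18 := C.f22_1
  have h20 := C.f22_3
  have h21 := C.f22_4
  have h23 := C.f22_6
  have h24 := C.f33_0
  have h25 := C.f33_1
  have h27 := C.f33_3
  have h28 := C.f33_4
  have h30 := C.f33_6
  have h31 := C.f33_7
  have h33 := C.f23_0
  have h38 := C.f23_5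
  have h42 := C.f23_9
  have kh15 : (-A1 ≤ -1 ∧ -n2 - A1 + A2 ≤ -1) ∨ (-B1 ≤ -1 ∧ -n2 - B1 + B2 ≤ -1) := by
    have q := C.t12
    clear * - q
    omega
  have kh26 : (-n1 + m33_1 ≤ 0 ∧ n1 - m33_1 ≤ 0) ∨ (-A3 + m33_1 ≤ -1 ∧ A3 - m33_1 ≤ 1) := by
    have q := C.f33_2
    clear * - q
    omega
  have kh29 : (-n2 - m33_1 + m33_2 ≤ 0 ∧ n2 + m33_1 - m33_2 ≤ 0) ∨ (-A3 + m33_2 ≤ -1 ∧ A3 - m33_2 ≤ 1) := by
    have q := C.f33_5
    clear * - q
    omega
  have kh32 : (-n3 - m33_2 + m33_3 ≤ 0 ∧ n3 + m33_2 - m33_3 ≤ 0) ∨ (-A3 + m33_3 ≤ -1 ∧ A3 - m33_3 ≤ 1) := by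
    have q := C.f33_8
    clear * - q
    omega
  have kh36 : (-n1 + m23_1 ≤ 0 ∧ n1 - m23_1 ≤ 0) ∨ (-A2 + m23_1 ≤ -1 ∧ A2 - m23_1 ≤ 1) ∨ (-B3 + m23_1 ≤ -1 ∧ B3 - m23_1 ≤ 1) := by
    have q := C.f23_3
    clear * - q
    omega
  have kh40 : (-n2 - m23_1 + m23_2 ≤ 0 ∧ n2 + m23_1 - m23_2 ≤ 0) ∨ (-A2 + m23_2 ≤ -1 ∧ A2 - m23_2 ≤ 1) ∨ (-B3 + m23_2 ≤ -1 ∧ B3 - m23_2 ≤ 1) := by
    have q := C.f23_7
    clear * - q
    omega
  have kh43 : (-n3 - m23_2 + m23_3 ≤ 0 ∧ n3 + m23_2 - m23_3 ≤ 0) ∨ (-B3 + m23_3 ≤ -1 ∧ B3 - m23_3 ≤ 1) := by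
    have q := C.f23_10
    clear * - q
    omega
  have kh44 : (n1 - A1 ≤ 0) ∨ (-A1 + A2 ≤ 1) ∨ (B1 ≤ 0) ∨ (n2 + B1 - B2 ≤ 1) := by
    have q := C.tmpp
    clear * - q
    omega
  have kh45 : (B2 ≤ 0) ∨ (A3 ≤ 0) ∨ (-2 * A1 + m22_1 + m33_1 ≤ -1) ∨ (-2 * A2 + m22_2 + m33_2 ≤ -1) ∨ (-2 * A3 + m22_3 + m33_3 ≤ -1) := by
    have q := C.p22_33A
    clear * - q
    omega
  have kh46 : (B2 ≤ 0) ∨ (A3 ≤ 0) ∨ (-2 * B1 + m22_1 + m33_1 ≤ -1) ∨ (-2 * B2 + m22_2 + m33_2 ≤ -1) ∨ (-2 * B3 + m22_3 + m33_3 ≤ -1) := by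
    have q := C.p22_33B
    clear * - q
    omega
  have kh47 : (n1 - A1 ≤ 0) ∨ (-A1 + A2 ≤ 0) ∨ (-A2 + A3 ≤ 0) ∨ (B1 ≤ 0) ∨ (n2 + B1 - B2 ≤ 0) ∨ (n3 + B2 - B3 ≤ 0) := by
    have q := C.tmzp
    clear * - q
    omega
  have kh48 : (n2 + A1 - A2 ≤ 0) ∨ (-A2 + A3 ≤ 1) ∨ (-B1 + B2 ≤ 0) ∨ (n3 + B2 - B3 ≤ 1) := by
    have q := C.tzmp
    clear * - q
    omega
  have kh50 : (B2 ≤ 0) ∨ (A2 ≤ 0) ∨ (B3 ≤ 0) ∨ (-2 * B1 + m22_1 + m23_1 ≤ -1) ∨ (-2 * B2 + m22_2 + m23_2 ≤ -1) ∨ (-2 * B3 + m22_3 + m23_3 ≤ -1) := by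
    have q := C.p22_23B
    clear * - q
    omega
  clear C
  rcases kh32 with ⟨g1_0, g1_1⟩ | ⟨g1_0, g1_1⟩
  · linarith only [g1_1, h11, h14, h21, h31, s2]
  · rcases kh26 with ⟨g2_0, g2_1⟩ | ⟨g2_0, g2_1⟩
    · rcases kh45 with g3_0 | g3_0 | g3_0 | g3_0 | g3_0
      · linarith only [e0, g3_0]
      · linarith only [g3_0, h0, h12, h21, h28, h8, s2]
      · linarith only [g2_1, g3_0, h12, h17, s1]
      · rcases kh46 with g4_0 | g4_0 | g4_0 | g4_0 | g4_0
        · linarith only [e0, g4_0]
        · linarith only [g4_0, h0, h12, h21, h28, h8, s2]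
        · linarith only [g2_1, g4_0, h17, s1]
        · linarith only [g4_0, h21, s2]
        · rcases kh40 with ⟨g5_0, g5_1⟩ | ⟨g5_0, g5_1⟩ | ⟨g5_0, g5_1⟩
          · rcases kh36 with ⟨g6_0, g6_1⟩ | ⟨g6_0, g6_1⟩ | ⟨g6_0, g6_1⟩
            · linarith only [g5_1, g6_1, h12, h17, h24, h3, h38, s1]
            · linarith only [g3_0, g5_1, g6_1, h12, h18, h20, h3, h38, h8, s2]
            · linarith only [g1_1, g3_0, g4_0, g5_1, g6_1, h12, h23, h28, h3, h38, h4, h5, h8, s2]
          · rcases kh43 with ⟨g7_0, g7_1⟩ | ⟨g7_0, g7_1⟩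
            · linarith only [g3_0, g5_1, g7_1, h21, h23, h30, h42, s2, s3]
            · rcases kh15 with ⟨g8_0, g8_1⟩ | ⟨g8_0, g8_1⟩
              · rcases kh44 with g9_0 | g9_0 | g9_0 | g9_0
                · rcases kh36 with ⟨g10_0, g10_1⟩ | ⟨g10_0, g10_1⟩ | ⟨g10_0, g10_1⟩
                  · rcases kh48 with g11_0 | g11_0 | g11_0 | g11_0
                    · linarith only [g11_0, g8_1]
                    · rcases kh50 with g12_0 | g12_0 | g12_0 | g12_0 | g12_0 | g12_0
                      · linarith only [e0, g12_0]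
                      · linarith only [e0, g12_0, g3_0, h21, s2]
                      · linarith only [e1, g12_0, h14]
                      · linarith only [g10_1, g12_0, h17, h24, s1]
                      · linarith only [g11_0, g12_0, g5_1, h21, h28, s2]
                      · linarith only [g12_0, g4_0, g7_1, s3]
                    · linarith only [g11_0, g9_0, h12, h18, h24, s1]
                    · linarith only [g11_0, g4_0, h21, h23, s3]
                  · linarith only [g10_1, g3_0, g9_0, h12, h18, h21, h24, h33, s1, s2]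
                  · linarith only [g10_1, g9_0, h12, h14, h21, h28, h33, h8, s2]
                · rcases kh47 with g13_0 | g13_0 | g13_0 | g13_0 | g13_0 | g13_0
                  · linarith only [g13_0, g3_0, g9_0, h12, h18, h21, h24, s1, s2]
                  · linarith only [g13_0, g3_0, h12, h21, h8, s2]
                  · linarith only [g13_0, g9_0, h12, h21, h28, h8, s2]
                  · linarith only [e0, g13_0, g3_0, g9_0, h12, h21, s2]
                  · linarith only [g13_0, g3_0, g9_0, h12, h18, h20, h3, s2]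
                  · linarith only [g13_0, h14, h21, h23, h31, s3]
                · linarith only [g8_0, g9_0, h12]
                · linarith only [g3_0, g8_1, g9_0, h12, h21, s2]
              · rcases kh47 with g14_0 | g14_0 | g14_0 | g14_0 | g14_0 | g14_0
                · rcases kh36 with ⟨g15_0, g15_1⟩ | ⟨g15_0, g15_1⟩ | ⟨g15_0, g15_1⟩
                  · rcases kh50 with g16_0 | g16_0 | g16_0 | g16_0 | g16_0 | g16_0
                    · linarith only [e0, g16_0]
                    · linarith only [e0, g16_0, g3_0, h21, s2]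
                    · linarith only [e1, g16_0, h14]
                    · linarith only [g15_1, g16_0, h17, h24, s1]
                    · rcases kh48 with g17_0 | g17_0 | g17_0 | g17_0
                      · linarith only [g14_0, g16_0, g17_0, g5_1, h21, h24, h27, s2]
                      · linarith only [g16_0, g17_0, g5_1, h21, h28, s2]
                      · linarith only [g14_0, g17_0, h12, h18, h24, s1]
                      · linarith only [g17_0, g4_0, h21, h23, s3]
                    · linarith only [g16_0, g4_0, g7_1, s3]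
                  · linarith only [g14_0, g15_1, g3_0, h12, h18, h21, h24, h33, s1, s2]
                  · linarith only [g14_0, g15_1, h12, h14, h21, h28, h33, h8, s2]
                · linarith only [g14_0, g3_0, h12, h21, h8, s2]
                · rcases kh44 with g18_0 | g18_0 | g18_0 | g18_0
                  · rcases kh36 with ⟨g19_0, g19_1⟩ | ⟨g19_0, g19_1⟩ | ⟨g19_0, g19_1⟩
                    · rcases kh50 with g20_0 | g20_0 | g20_0 | g20_0 | g20_0 | g20_0
                      · linarith only [e0, g20_0]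
                      · linarith only [e0, g20_0, g3_0, h21, s2]
                      · linarith only [e1, g20_0, h14]
                      · linarith only [g19_1, g20_0, h17, h24, s1]
                      · linarith only [g14_0, g20_0, g5_1, h21, h28, s2]
                      · linarith only [g20_0, g4_0, g7_1, s3]
                    · linarith only [g14_0, g18_0, g19_1, h12, h21, h28, h33, h8, s2]
                    · linarith only [g18_0, g19_1, h12, h14, h21, h28, h33, h8, s2]
                  · linarith only [g14_0, g18_0, g3_0, h12, h18, h21, h25, s1, s2]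
                  · linarith only [g18_0, g8_0]
                  · linarith only [g14_0, g18_0, h12, h21, h28, h3, s2]
                · linarith only [g14_0, g8_0]
                · linarith only [g14_0, g3_0, h12, h21, h3, s2]
                · linarith only [g14_0, g4_0, h21, h23, s3]
          · linarith only [g5_1, h14, h38, h4]
      · linarith only [g1_1, g3_0, h14, s3]
    · rcases kh29 with ⟨g21_0, g21_1⟩ | ⟨g21_0, g21_1⟩
      · linarith only [g21_1, g2_1, h12, h13, h28, h3, h8]
      · rcases kh45 with g22_0 | g22_0 | g22_0 | g22_0 | g22_0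
        · linarith only [e0, g22_0]
        · linarith only [g22_0, h0, h12, h13, h18, h25, h4, s1]
        · linarith only [g22_0, g2_1, h12, h13, h4, h8, s1]
        · rcases kh46 with g23_0 | g23_0 | g23_0 | g23_0 | g23_0
          · linarith only [e0, g23_0]
          · linarith only [g21_1, g22_0, g23_0, h0, h12, h18, h25, h4, s1, s2]
          · linarith only [g21_1, g22_0, g23_0, g2_1, h18, h4, s1, s2]
          · linarith only [g21_1, g22_0, g23_0, h4, s2]
          · rcases kh47 with g24_0 | g24_0 | g24_0 | g24_0 | g24_0 | g24_0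
            · linarith only [g24_0, g2_1, h12, h21, h24, h28, h8, s2]
            · linarith only [g22_0, g24_0, h12, h21, h8, s2]
            · rcases kh44 with g25_0 | g25_0 | g25_0 | g25_0
              · linarith only [g25_0, g2_1, h12, h21, h24, h28, h8, s2]
              · linarith only [g22_0, g24_0, g25_0, h12, h18, h21, h25, s1, s2]
              · rcases kh15 with ⟨g26_0, g26_1⟩ | ⟨g26_0, g26_1⟩
                · linarith only [g25_0, g26_0, h12]
                · linarith only [g25_0, g26_0]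
              · linarith only [g24_0, g25_0, h12, h21, h28, h3, s2]
            · rcases kh15 with ⟨g27_0, g27_1⟩ | ⟨g27_0, g27_1⟩
              · linarith only [g24_0, g27_0, h12]
              · linarith only [g24_0, g27_0]
            · linarith only [g22_0, g24_0, h12, h21, h3, s2]
            · linarith only [g23_0, g24_0, h21, h23, s3]
        · linarith only [g1_1, g22_0, h14, s3]

end Pool.Agent.Helper28.TQ
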