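import Pool.Agent.Helper89.TQ.Ctx

set_option autoImplicit false
set_option linter.all false

namespace Pool.Agent.Helper28.TQ
open Pool.Agent.Helper89.TQ

theorem c3_22_33_33_k3 {n1 n2 n3 A1 A2 A3 B1 B2 B3 m11_1 m11_2 m11_3 m22_1 m22_2 m22_3 m23_1 m23_2 m23_3 m33_1 m33_2 m33_3 : ℤ}
    (C : Ctx3 n1 n2 n3 A1 A2 A3 B1 B2 B3 m11_1 m11_2 m11_3 m22_1 m22_2 m22_3 m23_1 m23_2 m23_3 m33_1 m33_2 m33_3)
    (e0 : 0 < B2)
    (e1 : 0 < A3)
    (s1 : 3 * A1 + 0 * B1 ≤ m22_1 + m33_1 + m33_1)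
    (s2 : 3 * A2 + 0 * B2 ≤ m22_2 + m33_2 + m33_2)
    (s3 : 3 * A3 + 0 * B3 ≤ m22_3 + m33_3 + m33_3) : False := by
  have h0 := C.a0
  have h3 := C.a3
  have h4 := C.a4
  have h5 := C.a5
  have h7 := C.b1
  have h8 := C.b2
  have h11 := C.b5
  have h12 := C.o0
  have h13 := C.o1
  have h14 := C.o2
  have h17 := C.f22_0
  have h18 := C.f22_1
  have h21 := C.f22_4
  have h23 := C.f22_6
  have h24 := C.f33_0
  have h25 := C.f33_1
  have h27 := C.f33_3
  have h28 := C.f33_4
  have h33 := C.f23_0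
  have h34 := C.f23_1
  have h38 := C.f23_5
  have h42 := C.f23_9
  have kh15 : (-A1 ≤ -1 ∧ -n2 - A1 + A2 ≤ -1) ∨ (-B1 ≤ -1 ∧ -n2 - B1 + B2 ≤ -1) := by
    have q := C.t12
    clear * - q
    omega
  have kh19 : (-n1 + m22_1 ≤ 0 ∧ n1 - m22_1 ≤ 0) ∨ (-B2 + m22_1 ≤ -1 ∧ B2 - m22_1 ≤ 1) := by
    have q := C.f22_2
    clear * - q
    omega
  have kh22 : (-n2 - m22_1 + m22_2 ≤ 0 ∧ n2 + m22_1 - m22_2 ≤ 0) ∨ (-B2 + m22_2 ≤ -1 ∧ B2 - m22_2 ≤ 1) := by
    have q := C.f22_5
    clear * - q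
    omega
  have kh26 : (-n1 + m33_1 ≤ 0 ∧ n1 - m33_1 ≤ 0) ∨ (-A3 + m33_1 ≤ -1 ∧ A3 - m33_1 ≤ 1) := by
    have q := C.f33_2
    clear * - q
    omega
  have kh36 : (-n1 + m23_1 ≤ 0 ∧ n1 - m23_1 ≤ 0) ∨ (-A2 + m23_1 ≤ -1 ∧ A2 - m23_1 ≤ 1) ∨ (-B3 + m23_1 ≤ -1 ∧ B3 - m23_1 ≤ 1) := by
    have q := C.f23_3
    clear * - q
    omega
  have kh40 : (-n2 - m23_1 + m23_2 ≤ 0 ∧ n2 + m23_1 - m23_2 ≤ 0) ∨ (-A2 + m23_2 ≤ -1 ∧ A2 - m23_2 ≤ 1) ∨ (-B3 + m23_2 ≤ -1 ∧ B3 - m23_2 ≤ 1) := by
    have q := C.f23_7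
    clear * - q
    omega
  have kh43 : (-n3 - m23_2 + m23_3 ≤ 0 ∧ n3 + m23_2 - m23_3 ≤ 0) ∨ (-B3 + m23_3 ≤ -1 ∧ B3 - m23_3 ≤ 1) := by
    have q := C.f23_10
    clear * - q
    omega
  have kh45 : (B2 ≤ 0) ∨ (A3 ≤ 0) ∨ (-2 * A1 + m22_1 + m33_1 ≤ -1) ∨ (-2 * A2 + m22_2 + m33_2 ≤ -1) ∨ (-2 * A3 + m22_3 + m33_3 ≤ -1) := by
    have q := C.p22_33A
    clear * - q
    omega
  have kh46 : (B2 ≤ 0) ∨ (A3 ≤ 0) ∨ (-2 * B1 + m22_1 + m33_1 ≤ -1) ∨ (-2 * B2 + m22_2 + m33_2 ≤ -1) ∨ (-2 * B3 + m22_3 + m33_3 ≤ -1) := by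
    have q := C.p22_33B
    clear * - q
    omega
  have kh47 : (n1 - A1 ≤ 0) ∨ (-A1 + A2 ≤ 0) ∨ (-A2 + A3 ≤ 0) ∨ (B1 ≤ 0) ∨ (n2 + B1 - B2 ≤ 0) ∨ (n3 + B2 - B3 ≤ 0) := by
    have q := C.tmzp
    clear * - q
    omega
  have kh48 : (n2 + A1 - A2 ≤ 0) ∨ (-A2 + A3 ≤ 1) ∨ (-B1 + B2 ≤ 0) ∨ (n3 + B2 - B3 ≤ 1) := by
    have q := C.tzmp
    clear * - q
    omega
  have kh49 : (A2 ≤ 0) ∨ (B3 ≤ 0) ∨ (A3 ≤ 0) ∨ (-2 * A1 + m23_1 + m33_1 ≤ -1) ∨ (-2 * A2 + m23_2 + m33_2 ≤ -1) ∨ (-2 * A3 + m23_3 + m33_3 ≤ -1) := by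
    have q := C.p23_33A
    clear * - q
    omega
  clear C
  rcases kh19 with ⟨g1_0, g1_1⟩ | ⟨g1_0, g1_1⟩
  · rcases kh22 with ⟨g2_0, g2_1⟩ | ⟨g2_0, g2_1⟩
    · linarith only [g1_1, g2_1, h13, h21, h24, h3, s1]
    · rcases kh26 with ⟨g3_0, g3_1⟩ | ⟨g3_0, g3_1⟩
      · rcases kh36 with ⟨g4_0, g4_1⟩ | ⟨g4_0, g4_1⟩ | ⟨g4_0, g4_1⟩
        · rcases kh40 with ⟨g5_0, g5_1⟩ | ⟨g5_0, g5_1⟩ | ⟨g5_0, g5_1⟩
          · linarith only [g4_1, g5_1, h17, h24, h3, h38, s1]
          · rcases kh43 with ⟨g6_0, g6_1⟩ | ⟨g6_0, g6_1⟩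
            · linarith only [g5_1, g6_1, h11, h13, h42]
            · rcases kh45 with g7_0 | g7_0 | g7_0 | g7_0 | g7_0
              · linarith only [g1_1, g7_0, h0, h18, h24, s1]
              · linarith only [g4_1, g7_0, h0, h17, h24, h34, h4, s1]
              · linarith only [g1_1, g3_1, g7_0, h12, h7]
              · rcases kh46 with g8_0 | g8_0 | g8_0 | g8_0 | g8_0
                · linarith only [g1_1, g8_0, h0, h18, h24, s1]
                · linarith only [g4_1, g8_0, h0, h17, h24, h34, h4, s1]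
                · linarith only [g1_1, g8_0, h12, h24, s1]
                · linarith only [g2_1, g7_0, g8_0, s2]
                · rcases kh49 with g9_0 | g9_0 | g9_0 | g9_0 | g9_0 | g9_0
                  · linarith only [g4_1, g9_0, h0, h17, h24, h34, s1]
                  · linarith only [g2_1, g4_1, g8_0, g9_0, h0, h12, h17, h23, h24, h34, h4, h5, h8, s1, s3]
                  · linarith only [g4_1, g9_0, h0, h17, h24, h34, h4, s1]
                  · linarith only [g4_1, g9_0, h17, h24, s1]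
                  · linarith only [g5_1, g9_0, h13, h21, s2]
                  · rcases kh48 with g10_0 | g10_0 | g10_0 | g10_0
                    · rcases kh15 with ⟨g11_0, g11_1⟩ | ⟨g11_0, g11_1⟩
                      · linarith only [g10_0, g11_1]
                      · rcases kh47 with g12_0 | g12_0 | g12_0 | g12_0 | g12_0 | g12_0
                        · linarith only [g10_0, g12_0, g7_0, h24, h27, s2]
                        · linarith only [g12_0, g1_1, h13, h18, h24, s1]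
                        · linarith only [g12_0, h13, h21, h28, s2]
                        · linarith only [g11_0, g12_0]
                        · linarith only [g12_0, h12, h13, h3]
                        · linarith only [g12_0, g6_1, g8_0, g9_0, h21, h23, s3]
                    · linarith only [g10_0, h13, h21, h28, s2]
                    · linarith only [g10_0, g1_1, h18, h7]
                    · linarith only [g10_0, g6_1, g8_0, g9_0, h21, h23, s3]
              · linarith only [g2_1, g7_0, h11, h14, h23, s3]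
          · linarith only [g5_1, h13, h14, h21, h28, h38, s2]
        · linarith only [g1_1, g4_1, h13, h18, h33]
        · linarith only [g1_1, g4_1, h13, h14, h18, h33, h4]
      · linarith only [g1_1, g3_1, h13, h18, h24, h4]
  · rcases kh22 with ⟨g13_0, g13_1⟩ | ⟨g13_0, g13_1⟩
    · linarith only [g13_1, g1_1, h12, h13, h21, h3, h8]
    · rcases kh45 with g14_0 | g14_0 | g14_0 | g14_0 | g14_0
      · linarith only [e0, g14_0]
      · linarith only [g14_0, h0, h12, h13, h4, h8]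
      · linarith only [g14_0, g1_1, h12, h8, s1]
      · rcases kh46 with g15_0 | g15_0 | g15_0 | g15_0 | g15_0
        · linarith only [e0, g15_0]
        · linarith only [g13_1, g14_0, g15_0, h0, h18, h25, h4, s1, s2]
        · linarith only [g15_0, g1_1, h12, h8, s1]
        · linarith only [g13_1, g14_0, g15_0, s2]
        · rcases kh40 with ⟨g16_0, g16_1⟩ | ⟨g16_0, g16_1⟩ | ⟨g16_0, g16_1⟩
          · rcases kh36 with ⟨g17_0, g17_1⟩ | ⟨g17_0, g17_1⟩ | ⟨g17_0, g17_1⟩
            · linarith only [g16_1, g17_1, h17, h24, h3, h38, s1]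
            · linarith only [g13_1, g14_0, g16_1, g17_1, h12, h3, h38, h8, s2]
            · linarith only [g13_1, g14_0, g15_0, g16_1, g17_1, h12, h23, h3, h38, h4, h5, h8, s2, s3]
          · rcases kh43 with ⟨g18_0, g18_1⟩ | ⟨g18_0, g18_1⟩
            · linarith only [g13_1, g14_0, g16_1, g18_1, h11, h42, s2]
            · rcases kh49 with g19_0 | g19_0 | g19_0 | g19_0 | g19_0 | g19_0
              · linarith only [g13_1, g14_0, g19_0, h0, h12, h8, s2]
              · linarith only [g13_1, g14_0, g15_0, g19_0, h0, h18, h23, h25, h4, h5, s1, s2, s3]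
              · linarith only [g13_1, g14_0, g19_0, h0, h18, h25, h4, s1, s2]
              · rcases kh36 with ⟨g20_0, g20_1⟩ | ⟨g20_0, g20_1⟩ | ⟨g20_0, g20_1⟩
                · linarith only [g19_0, g20_1, h17, h24, s1]
                · linarith only [g13_1, g14_0, g19_0, g20_1, h12, h18, h8, s1, s2]
                · linarith only [g13_1, g14_0, g15_0, g19_0, g20_1, h12, h18, h23, h28, h5, h8, s1, s2, s3]
              · linarith only [g16_1, g19_0, h13, h21, s2]
              · rcases kh47 with g21_0 | g21_0 | g21_0 | g21_0 | g21_0 | g21_0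
                · rcases kh48 with g22_0 | g22_0 | g22_0 | g22_0
                  · linarith only [g21_0, g22_0, h13, h21, h24, h27, s2]
                  · linarith only [g14_0, g22_0, h28, s2]
                  · linarith only [g21_0, g22_0, h18, h24, h7, s1]
                  · linarith only [g15_0, g18_1, g19_0, g22_0, h21, h23, s3]
                · linarith only [g21_0, h12, h13, h8]
                · linarith only [g21_0, h13, h21, h28, s2]
                · rcases kh15 with ⟨g23_0, g23_1⟩ | ⟨g23_0, g23_1⟩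
                  · linarith only [g21_0, g23_0, h12]
                  · linarith only [g21_0, g23_0]
                · linarith only [g21_0, h12, h13, h3]
                · linarith only [g15_0, g18_1, g19_0, g21_0, h21, h23, s3]
          · linarith only [g13_1, g15_0, g16_1, h11, h23, h38, h4, s3]
      · linarith only [g13_1, g14_0, h11, h14, h23, s3]

end Pool.Agent.Helper28.TQ
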