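import Pool.Agent.Helper89.TQ.Ctx

set_option autoImplicit false
set_option linter.all false

namespace Pool.Agent.Helper28.TQ
open Pool.Agent.Helper89.TQ

theorem c0_11_11_33_k0 {n1 n2 n3 A1 A2 A3 B1 B2 B3 m11_1 m11_2 m11_3 m13_1 m13_2 m13_3 m22_1 m22_2 m22_3 m23_1 m23_2 m23_3 m33_1 m33_2 m33_3 : ℤ}
    (C : Ctx0 n1 n2 n3 A1 A2 A3 B1 B2 B3 m11_1 m11_2 m11_3 m13_1 m13_2 m13_3 m22_1 m22_2 m22_3 m23_1 m23_2 m23_3 m33_1 m33_2 m33_3)
    (e0 : 0 < B1)
    (e1 : 0 < A3)
    (s1 : 0 * A1 + 3 * B1 ≤ m11_1 + m11_1 + m33_1)
    (s2 : 0 * A2 + 3 * B2 ≤ m11_2 + m11_2 + m33_2)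
    (s3 : 0 * A3 + 3 * B3 ≤ m11_3 + m11_3 + m33_3) : False := by
  have h0 := C.a0
  have h1 := C.a1
  have h2 := C.a2
  have h3 := C.a3
  have h4 := C.a4
  have h5 := C.a5
  have h7 := C.b1
  have h8 := C.b2
  have h9 := C.b3
  have h11 := C.b5
  have h12 := C.o0
  have h13 := C.o1
  have h14 := C.o2
  have h17 := C.f11_0
  have h18 := C.f11_1
  have h19 := C.f11_2
  have h20 := C.f33_0
  have h21 := C.f33_1
  have h23 := C.f33_3
  have h24 := C.f33_4
  have h26 := C.f33_6
  have h27 := C.f33_7
  have h29 := C.f23_0
  have h30 := C.f23_1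
  have h34 := C.f23_5
  have h37 := C.f23_8
  have h38 := C.f23_9
  have h40 := C.f22_0
  have h41 := C.f22_1
  have h44 := C.f22_4
  have h46 := C.f22_6
  have kh15 : (-A1 ≤ -1 ∧ -n2 - A1 + A2 ≤ -1) ∨ (-B1 ≤ -1 ∧ -n2 - B1 + B2 ≤ -1) := by
    have q := C.t12
    clear * - q
    omega
  have kh16 : (A1 - A2 ≤ -1 ∧ -n3 - A2 + A3 ≤ -1) ∨ (B1 - B2 ≤ -1 ∧ -n3 - B2 + B3 ≤ -1) := by
    have q := C.t23
    clear * - q
    omega
  have kh22 : (-n1 + m33_1 ≤ 0 ∧ n1 - m33_1 ≤ 0) ∨ (-A3 + m33_1 ≤ -1 ∧ A3 - m33_1 ≤ 1) := by
    have q := C.f33_2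
    clear * - q
    omega
  have kh25 : (-n2 - m33_1 + m33_2 ≤ 0 ∧ n2 + m33_1 - m33_2 ≤ 0) ∨ (-A3 + m33_2 ≤ -1 ∧ A3 - m33_2 ≤ 1) := by
    have q := C.f33_5
    clear * - q
    omega
  have kh28 : (-n3 - m33_2 + m33_3 ≤ 0 ∧ n3 + m33_2 - m33_3 ≤ 0) ∨ (-A3 + m33_3 ≤ -1 ∧ A3 - m33_3 ≤ 1) := by
    have q := C.f33_8
    clear * - q
    omega
  have kh32 : (-n1 + m23_1 ≤ 0 ∧ n1 - m23_1 ≤ 0) ∨ (-A2 + m23_1 ≤ -1 ∧ A2 - m23_1 ≤ 1) ∨ (-B3 + m23_1 ≤ -1 ∧ B3 - m23_1 ≤ 1) := by
    have q := C.f23_3
    clear * - q
    omega
  have kh36 : (-n2 - m23_1 + m23_2 ≤ 0 ∧ n2 + m23_1 - m23_2 ≤ 0) ∨ (-A2 + m23_2 ≤ -1 ∧ A2 - m23_2 ≤ 1) ∨ (-B3 + m23_2 ≤ -1 ∧ B3 - m23_2 ≤ 1) := by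
    have q := C.f23_7
    clear * - q
    omega
  have kh39 : (-n3 - m23_2 + m23_3 ≤ 0 ∧ n3 + m23_2 - m23_3 ≤ 0) ∨ (-B3 + m23_3 ≤ -1 ∧ B3 - m23_3 ≤ 1) := by
    have q := C.f23_10
    clear * - q
    omega
  have kh42 : (-n1 + m22_1 ≤ 0 ∧ n1 - m22_1 ≤ 0) ∨ (-B2 + m22_1 ≤ -1 ∧ B2 - m22_1 ≤ 1) := by
    have q := C.f22_2
    clear * - q
    omega
  have kh45 : (-n2 - m22_1 + m22_2 ≤ 0 ∧ n2 + m22_1 - m22_2 ≤ 0) ∨ (-B2 + m22_2 ≤ -1 ∧ B2 - m22_2 ≤ 1) := by
    have q := C.f22_5
    clear * - q
    omega
  have kh47 : (B1 ≤ 0) ∨ (A3 ≤ 0) ∨ (-2 * B1 + m11_1 + m33_1 ≤ -1) ∨ (-2 * B2 + m11_2 + m33_2 ≤ -1) ∨ (-2 * B3 + m11_3 + m33_3 ≤ -1) := by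
    have q := C.p11_33B
    clear * - q
    omega
  have kh48 : (-A1 + A2 ≤ 0) ∨ (n3 + A2 - A3 ≤ 1) ∨ (n2 + B1 - B2 ≤ 0) ∨ (-B2 + B3 ≤ 1) ∨ (-A2 + B2 ≤ -1 ∧ -A3 + B3 ≤ 1) := by
    have q := C.tzpm
    clear * - q
    omega
  have kh49 : (A1 ≤ 0) ∨ (n2 + A1 - A2 ≤ 1) ∨ (-A2 + A3 ≤ 0) ∨ (n1 - B1 ≤ 0) ∨ (-B1 + B2 ≤ 1) ∨ (n3 + B2 - B3 ≤ 0) := by
    have q := C.tpmz
    clear * - q
    omega
  have kh50 : (B1 ≤ 0) ∨ (A3 ≤ 0) ∨ (-2 * A1 + m11_1 + m33_1 ≤ -1) ∨ (-2 * A2 + m11_2 + m33_2 ≤ -1) ∨ (-2 * A3 + m11_3 + m33_3 ≤ -1) := by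
    have q := C.p11_33A
    clear * - q
    omega
  have kh53 : (n2 + A1 - A2 ≤ 0) ∨ (-A2 + A3 ≤ 1) ∨ (-B1 + B2 ≤ 0) ∨ (n3 + B2 - B3 ≤ 1) := by
    have q := C.tzmp
    clear * - q
    omega
  have kh54 : (B1 ≤ 0) ∨ (A2 ≤ 0) ∨ (B3 ≤ 0) ∨ (-2 * B1 + m11_1 + m23_1 ≤ -1) ∨ (-2 * B2 + m11_2 + m23_2 ≤ -1) ∨ (-2 * B3 + m11_3 + m23_3 ≤ -1) := by
    have q := C.p11_23B
    clear * - q
    omega
  have kh55 : (B1 ≤ 0) ∨ (B2 ≤ 0) ∨ (-2 * B1 + m11_1 + m22_1 ≤ -1) ∨ (-2 * B2 + m11_2 + m22_2 ≤ -1) ∨ (-2 * B3 + m11_3 + m22_3 ≤ -1) := by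
    have q := C.p11_22B
    clear * - q
    omega
  have kh56 : (B2 ≤ 0) ∨ (A3 ≤ 0) ∨ (-2 * A1 + m22_1 + m33_1 ≤ -1) ∨ (-2 * A2 + m22_2 + m33_2 ≤ -1) ∨ (-2 * A3 + m22_3 + m33_3 ≤ -1) := by
    have q := C.p22_33A
    clear * - q
    omega
  clear C
  rcases kh28 with ⟨g1_0, g1_1⟩ | ⟨g1_0, g1_1⟩
  · rcases kh25 with ⟨g2_0, g2_1⟩ | ⟨g2_0, g2_1⟩
    · linarith only [g1_1, g2_1, h11, h14, h17, h27, h9, s1]
    · linarith only [g1_1, g2_1, h11, h13, h14, h27, h4]
  · rcases kh42 with ⟨g3_0, g3_1⟩ | ⟨g3_0, g3_1⟩
    · rcases kh45 with ⟨g4_0, g4_1⟩ | ⟨g4_0, g4_1⟩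
      · linarith only [g3_1, g4_1, h1, h13, h3, h44]
      · rcases kh55 with g5_0 | g5_0 | g5_0 | g5_0 | g5_0
        · linarith only [e0, g5_0]
        · linarith only [e0, g3_1, g5_0, h1, h12, h41]
        · linarith only [g3_1, g5_0, h1, h12, h20, s1]
        · rcases kh22 with ⟨g6_0, g6_1⟩ | ⟨g6_0, g6_1⟩
          · rcases kh47 with g7_0 | g7_0 | g7_0 | g7_0 | g7_0
            · linarith only [e0, g7_0]
            · linarith only [e0, g3_1, g4_1, g5_0, g7_0, h13, h18, h2, h20, h3, h4, h41, s1]
            · linarith only [g6_1, g7_0, h1, h12, s1]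
            · linarith only [g4_1, g5_0, g7_0, s2]
            · rcases kh56 with g8_0 | g8_0 | g8_0 | g8_0 | g8_0
              · linarith only [e0, g3_1, g4_1, g5_0, g8_0, h18, h2, h20, h3, h41, s1]
              · linarith only [e0, g8_0, h12, h2, h4]
              · linarith only [g3_1, g6_1, g8_0, h1]
              · rcases kh32 with ⟨g9_0, g9_1⟩ | ⟨g9_0, g9_1⟩ | ⟨g9_0, g9_1⟩
                · rcases kh36 with ⟨g10_0, g10_1⟩ | ⟨g10_0, g10_1⟩ | ⟨g10_0, g10_1⟩
                  · linarith only [g10_1, g9_1, h1, h3, h34]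
                  · rcases kh39 with ⟨g11_0, g11_1⟩ | ⟨g11_0, g11_1⟩
                    · linarith only [g10_1, g11_1, g4_1, g5_0, g8_0, h14, h19, h27, h38, s2, s3]
                    · rcases kh54 with g12_0 | g12_0 | g12_0 | g12_0 | g12_0 | g12_0
                      · linarith only [e0, g12_0]
                      · linarith only [e0, g12_0, g3_1, g4_1, g5_0, g8_0, h1, h12, h41, s2]
                      · linarith only [e0, g12_0, g1_1, g3_1, g4_1, g5_0, g7_0, h1, h12, h18, h19, h20, h24, h3, h41, h5, s1, s2]
                      · linarith only [g12_0, g9_1, h1, h12, h20, s1]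
                      · rcases kh49 with g13_0 | g13_0 | g13_0 | g13_0 | g13_0 | g13_0
                        · linarith only [e0, g13_0, h12]
                        · rcases kh15 with ⟨g14_0, g14_1⟩ | ⟨g14_0, g14_1⟩
                          · rcases kh53 with g15_0 | g15_0 | g15_0 | g15_0
                            · linarith only [g14_1, g15_0]
                            · linarith only [g10_1, g12_0, g13_0, g15_0, h12, h17, h18, h24, s2]
                            · linarith only [g10_1, g12_0, g15_0, g3_1, h12, h18, h2, h20, h3, h41, s1]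
                            · linarith only [g10_1, g12_0, g13_0, g15_0, g7_0, h12, h17, h18, h19, s3]
                          · linarith only [g10_1, g12_0, g13_0, g14_1, h12, h17, h18]
                        · linarith only [g10_1, g12_0, g13_0, g4_1, g5_0, h24, s2]
                        · linarith only [g13_0, h1, h12]
                        · linarith only [g13_0, g3_1, h17, h20, h41, s1]
                        · linarith only [g11_1, g12_0, g13_0, g7_0, h19, h37, s3]
                      · linarith only [g11_1, g12_0, h14, h27, s3]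
                  · linarith only [g10_1, h14, h34, h4]
                · rcases kh48 with g16_0 | g16_0 | g16_0 | g16_0 | ⟨g16_0, g16_1⟩
                  · linarith only [g16_0, g3_1, g4_1, g5_0, g8_0, h1, h41, s2]
                  · linarith only [g16_0, g1_1, g4_1, g5_0, g7_0, g8_0, h19, s2, s3]
                  · linarith only [g16_0, g3_1, g4_1, g8_0, g9_1, h17, h18, h29, h41, s2]
                  · linarith only [g16_0, g4_1, g5_0, h14, h24, s2]
                  · linarith only [g16_0, g3_1, g9_1, h29, h41]
                · linarith only [g1_1, g3_1, g4_1, g5_0, g7_0, g9_1, h19, h24, h26, h29, h41, s2]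
              · linarith only [g1_1, g4_1, g5_0, g8_0, h14, h19, h46, s3]
          · linarith only [g3_1, g4_1, g5_0, g6_1, h20, h24, h41, s2]
        · linarith only [g4_1, g5_0, h11, h14, h27, h46, s3]
    · rcases kh45 with ⟨g17_0, g17_1⟩ | ⟨g17_0, g17_1⟩
      · rcases kh15 with ⟨g18_0, g18_1⟩ | ⟨g18_0, g18_1⟩
        · linarith only [g17_1, g18_1, g3_1, h2, h44]
        · linarith only [g17_1, g18_1, g3_1, h44, h8]
      · rcases kh47 with g19_0 | g19_0 | g19_0 | g19_0 | g19_0
        · linarith only [e0, g19_0]
        · linarith only [e0, g19_0, h13, h4, h8]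
        · linarith only [g19_0, h17, s1]
        · rcases kh25 with ⟨g20_0, g20_1⟩ | ⟨g20_0, g20_1⟩
          · linarith only [g19_0, g20_1, h17, h18, h9, s1]
          · linarith only [g19_0, g20_1, h13, h4, s2]
        · rcases kh16 with ⟨g21_0, g21_1⟩ | ⟨g21_0, g21_1⟩
          · rcases kh55 with g22_0 | g22_0 | g22_0 | g22_0 | g22_0
            · linarith only [e0, g22_0]
            · linarith only [e0, g22_0, h8]
            · rcases kh36 with ⟨g23_0, g23_1⟩ | ⟨g23_0, g23_1⟩ | ⟨g23_0, g23_1⟩
              · rcases kh32 with ⟨g24_0, g24_1⟩ | ⟨g24_0, g24_1⟩ | ⟨g24_0, g24_1⟩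
                · linarith only [g23_1, g24_1, h1, h3, h34]
                · linarith only [g21_0, g23_1, g24_1, h3, h34]
                · linarith only [g19_0, g1_1, g23_1, g24_1, h2, h3, h34, h4, s3]
              · rcases kh39 with ⟨g25_0, g25_1⟩ | ⟨g25_0, g25_1⟩
                · linarith only [g21_0, g22_0, g23_1, g25_1, g3_1, h11, h12, h17, h38]
                · rcases kh54 with g26_0 | g26_0 | g26_0 | g26_0 | g26_0 | g26_0
                  · linarith only [e0, g26_0]
                  · linarith only [e0, g26_0, h12, h2]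
                  · linarith only [e0, g19_0, g1_1, g26_0, h11, h17, h18, h19, h21, h23, s1, s2]
                  · rcases kh32 with ⟨g27_0, g27_1⟩ | ⟨g27_0, g27_1⟩ | ⟨g27_0, g27_1⟩
                    · linarith only [g26_0, g27_1, h20, h7, s1]
                    · linarith only [g21_0, g26_0, g27_1, h12, h17]
                    · linarith only [g19_0, g1_1, g27_1, h30, h4, s3]
                  · rcases kh15 with ⟨g28_0, g28_1⟩ | ⟨g28_0, g28_1⟩
                    · linarith only [g21_0, g22_0, g23_1, g26_0, g28_1, g3_1, h12, h17, h18]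
                    · linarith only [g21_0, g22_0, g23_1, g26_0, g28_1, g3_1, h12, h17, h18]
                  · linarith only [g19_0, g25_1, g26_0, s3]
              · linarith only [g19_0, g1_1, g23_1, h34, h4, s3]
            · rcases kh36 with ⟨g29_0, g29_1⟩ | ⟨g29_0, g29_1⟩ | ⟨g29_0, g29_1⟩
              · rcases kh32 with ⟨g30_0, g30_1⟩ | ⟨g30_0, g30_1⟩ | ⟨g30_0, g30_1⟩
                · linarith only [g29_1, g30_1, h1, h3, h34]
                · linarith only [g21_0, g29_1, g30_1, h3, h34]
                · linarith only [g19_0, g1_1, g29_1, g30_1, h2, h3, h34, h4, s3]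
              · rcases kh39 with ⟨g31_0, g31_1⟩ | ⟨g31_0, g31_1⟩
                · linarith only [g17_1, g22_0, g29_1, g31_1, h13, h19, h27, h38, h5, s3]
                · rcases kh54 with g32_0 | g32_0 | g32_0 | g32_0 | g32_0 | g32_0
                  · linarith only [e0, g32_0]
                  · linarith only [e0, g32_0, h13, h8]
                  · linarith only [e0, g19_0, g1_1, g32_0, h17, h18, h19, h2, h21, h24, h26, h3, s1]
                  · rcases kh32 with ⟨g33_0, g33_1⟩ | ⟨g33_0, g33_1⟩ | ⟨g33_0, g33_1⟩
                    · linarith only [g32_0, g33_1, h1, h12, h20, s1]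
                    · linarith only [g21_0, g32_0, g33_1, h12, h17]
                    · linarith only [g19_0, g1_1, g32_0, g33_1, h17, h21, s1, s3]
                  · rcases kh49 with g34_0 | g34_0 | g34_0 | g34_0 | g34_0 | g34_0
                    · linarith only [e0, g34_0, h12]
                    · rcases kh15 with ⟨g35_0, g35_1⟩ | ⟨g35_0, g35_1⟩
                      · rcases kh53 with g36_0 | g36_0 | g36_0 | g36_0
                        · linarith only [g35_1, g36_0]
                        · linarith only [g29_1, g32_0, g34_0, g36_0, h12, h17, h18, h24, s2]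
                        · linarith only [g21_0, g29_1, g32_0, g36_0, h12, h17, h18, h3]
                        · linarith only [g29_1, g32_0, g34_0, g36_0, h12, h14, h17, h18, h19, h27, s3]
                      · linarith only [g29_1, g32_0, g34_0, g35_1, h12, h17, h18]
                    · linarith only [g29_1, g32_0, g34_0, h13, h24, s2]
                    · linarith only [g34_0, h1, h12]
                    · rcases kh15 with ⟨g37_0, g37_1⟩ | ⟨g37_0, g37_1⟩
                      · linarith only [g21_0, g29_1, g32_0, g34_0, g37_1, h12, h17, h18]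
                      · linarith only [g21_0, g29_1, g32_0, g34_0, g37_1, h12, h17, h18]
                    · linarith only [g29_1, g32_0, g34_0, h13, h14, h19, h27, s3]
                  · linarith only [g19_0, g31_1, g32_0, s3]
              · linarith only [g19_0, g1_1, g29_1, h34, h4, s3]
            · linarith only [g17_1, g19_0, g22_0, h11, h46, s3]
          · rcases kh36 with ⟨g38_0, g38_1⟩ | ⟨g38_0, g38_1⟩ | ⟨g38_0, g38_1⟩
            · rcases kh32 with ⟨g39_0, g39_1⟩ | ⟨g39_0, g39_1⟩ | ⟨g39_0, g39_1⟩
              · linarith only [g38_1, g39_1, h1, h3, h34]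
              · linarith only [g21_0, g38_1, g39_1, h34, h9]
              · linarith only [g19_0, g1_1, g38_1, g39_1, h2, h3, h34, h4, s3]
            · rcases kh39 with ⟨g40_0, g40_1⟩ | ⟨g40_0, g40_1⟩
              · linarith only [g21_1, g38_1, g40_1, h13, h38]
              · rcases kh15 with ⟨g41_0, g41_1⟩ | ⟨g41_0, g41_1⟩
                · rcases kh54 with g42_0 | g42_0 | g42_0 | g42_0 | g42_0 | g42_0
                  · linarith only [e0, g42_0]
                  · linarith only [e0, g42_0, h12, h2]
                  · linarith only [e0, g19_0, g1_1, g42_0, h11, h17, h18, h19, h2, h21, h24, h3, s1, s2]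
                  · rcases kh32 with ⟨g43_0, g43_1⟩ | ⟨g43_0, g43_1⟩ | ⟨g43_0, g43_1⟩
                    · linarith only [g42_0, g43_1, h1, h12, h20, s1]
                    · rcases kh56 with g44_0 | g44_0 | g44_0 | g44_0 | g44_0
                      · linarith only [e0, g44_0, h8]
                      · linarith only [g42_0, g43_1, g44_0, h0, h12, h2, h21, s1]
                      · linarith only [g21_0, g3_1, g42_0, g43_1, g44_0, h2, s1]
                      · rcases kh25 with ⟨g45_0, g45_1⟩ | ⟨g45_0, g45_1⟩
                        · linarith only [g17_1, g21_0, g42_0, g43_1, g44_0, g45_1, h18, s1, s2]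
                        · linarith only [g17_1, g21_0, g42_0, g43_1, g44_0, g45_1, h21, s1]
                      · linarith only [g17_1, g19_0, g1_1, g21_1, g44_0, h46, s3]
                    · linarith only [g19_0, g1_1, g42_0, g43_1, h11, h18, h19, h2, h21, h24, h3, s1, s2]
                  · rcases kh53 with g46_0 | g46_0 | g46_0 | g46_0
                    · linarith only [g41_1, g46_0]
                    · rcases kh49 with g47_0 | g47_0 | g47_0 | g47_0 | g47_0 | g47_0
                      · linarith only [e0, g47_0, h12]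
                      · linarith only [g38_1, g42_0, g46_0, g47_0, h12, h17, h18, h24, s2]
                      · linarith only [g38_1, g42_0, g47_0, h13, h24, s2]
                      · linarith only [g38_1, g3_1, g42_0, g46_0, g47_0, h17, h21, h24, h40, s1, s2]
                      · linarith only [g38_1, g42_0, g46_0, g47_0, h17, h21, h24, s1, s2]
                      · linarith only [g38_1, g42_0, g47_0, h13, h14, h19, h27, s3]
                    · linarith only [g21_0, g46_0]
                    · rcases kh50 with g48_0 | g48_0 | g48_0 | g48_0 | g48_0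
                      · linarith only [e0, g48_0]
                      · linarith only [e0, g48_0, h17, h21, s1]
                      · rcases kh49 with g49_0 | g49_0 | g49_0 | g49_0 | g49_0 | g49_0
                        · linarith only [e0, g40_1, g42_0, g46_0, g48_0, g49_0, h18, h23, h37, s1, s2]
                        · linarith only [g19_0, g38_1, g42_0, g46_0, g48_0, g49_0, h17, h18, h19, s1, s3]
                        · linarith only [g38_1, g42_0, g49_0, h13, h24, s2]
                        · linarith only [g48_0, g49_0, h1, h17, s1]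
                        · rcases kh56 with g50_0 | g50_0 | g50_0 | g50_0 | g50_0
                          · linarith only [e0, g38_1, g42_0, g48_0, g50_0, h17, h18, h2, h3, s1]
                          · linarith only [e0, g50_0, h17, h21, s1]
                          · linarith only [g19_0, g38_1, g3_1, g42_0, g46_0, g49_0, g50_0, h17, h19, h2, s1, s3]
                          · rcases kh25 with ⟨g51_0, g51_1⟩ | ⟨g51_0, g51_1⟩
                            · linarith only [g17_1, g19_0, g38_1, g42_0, g46_0, g50_0, g51_1, h17, h18, h19, s1, s3]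
                            · linarith only [g17_1, g38_1, g42_0, g46_0, g49_0, g50_0, g51_1, h14, h17, h19, h21, h27, s1, s3]
                          · linarith only [g17_1, g1_1, g38_1, g42_0, g48_0, g49_0, g50_0, h14, h17, h19, h2, h46, s1, s3]
                        · linarith only [g19_0, g40_1, g42_0, g49_0, h19, h37, s3]
                      · linarith only [g38_1, g42_0, g46_0, g48_0, h14, h19, h27, s2, s3]
                      · linarith only [g1_1, g48_0, h14, s3]
                  · linarith only [g19_0, g40_1, g42_0, s3]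
                · rcases kh48 with g52_0 | g52_0 | g52_0 | g52_0 | ⟨g52_0, g52_1⟩
                  · rcases kh32 with ⟨g53_0, g53_1⟩ | ⟨g53_0, g53_1⟩ | ⟨g53_0, g53_1⟩
                    · linarith only [g52_0, g53_1, h1, h30]
                    · rcases kh54 with g54_0 | g54_0 | g54_0 | g54_0 | g54_0 | g54_0
                      · linarith only [e0, g54_0]
                      · linarith only [e0, g54_0, h12, h2]
                      · linarith only [e0, g19_0, g1_1, g54_0, h11, h17, h18, h19, h2, h21, h24, h3, s1, s2]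
                      · rcases kh56 with g55_0 | g55_0 | g55_0 | g55_0 | g55_0
                        · linarith only [e0, g55_0, h8]
                        · linarith only [g53_1, g54_0, g55_0, h0, h12, h2, h21, s1]
                        · linarith only [g21_0, g3_1, g53_1, g54_0, g55_0, h2, s1]
                        · rcases kh25 with ⟨g56_0, g56_1⟩ | ⟨g56_0, g56_1⟩
                          · linarith only [g17_1, g21_0, g53_1, g54_0, g55_0, g56_1, h18, s1, s2]
                          · linarith only [g17_1, g21_0, g53_1, g54_0, g55_0, g56_1, h21, s1]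
                        · linarith only [g17_1, g19_0, g1_1, g21_1, g55_0, h46, s3]
                      · rcases kh50 with g57_0 | g57_0 | g57_0 | g57_0 | g57_0
                        · linarith only [e0, g57_0]
                        · linarith only [e0, g57_0, h17, h21, s1]
                        · rcases kh49 with g58_0 | g58_0 | g58_0 | g58_0 | g58_0 | g58_0
                          · linarith only [e0, g57_0, g58_0, h17, s1]
                          · linarith only [g38_1, g41_1, g54_0, g57_0, g58_0, h17, h18, s1]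
                          · linarith only [g38_1, g54_0, g58_0, h13, h24, s2]
                          · linarith only [g57_0, g58_0, h1, h17, s1]
                          · rcases kh53 with g59_0 | g59_0 | g59_0 | g59_0
                            · linarith only [g38_1, g41_1, g54_0, g57_0, g59_0, h17, h18, s1]
                            · linarith only [g38_1, g41_1, g54_0, g57_0, g58_0, g59_0, h18, h2, h21, s1]
                            · linarith only [g38_1, g41_1, g54_0, g57_0, g59_0, h17, h18, h2, s1]
                            · rcases kh56 with g60_0 | g60_0 | g60_0 | g60_0 | g60_0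
                              · linarith only [e0, g38_1, g54_0, g57_0, g60_0, h17, h18, h2, h3, s1]
                              · linarith only [e0, g60_0, h17, h21, s1]
                              · linarith only [g38_1, g3_1, g41_1, g54_0, g58_0, g60_0, h18, h2, s1]
                              · rcases kh25 with ⟨g61_0, g61_1⟩ | ⟨g61_0, g61_1⟩
                                · linarith only [g17_1, g38_1, g41_1, g54_0, g60_0, g61_1, h18, s1]
                                · linarith only [g17_1, g38_1, g54_0, g58_0, g59_0, g60_0, g61_1, h14, h17, h19, h21, h27, s1, s3]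
                              · linarith only [g17_1, g1_1, g38_1, g54_0, g57_0, g58_0, g60_0, h14, h17, h19, h2, h46, s1, s3]
                          · linarith only [g19_0, g40_1, g54_0, g58_0, h19, h37, s3]
                        · linarith only [g38_1, g41_1, g54_0, g57_0, h17, h18, s2]
                        · linarith only [g1_1, g57_0, h14, s3]
                      · linarith only [g19_0, g40_1, g54_0, s3]
                    · linarith only [g19_0, g1_1, g53_1, h30, h4, s3]
                  · linarith only [g19_0, g1_1, g21_1, g52_0, h13, s3]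
                  · linarith only [g41_1, g52_0]
                  · linarith only [g19_0, g1_1, g21_1, g52_0, h13, h19, h24, h4, s2]
                  · rcases kh54 with g62_0 | g62_0 | g62_0 | g62_0 | g62_0 | g62_0
                    · linarith only [e0, g62_0]
                    · linarith only [e0, g62_0, h12, h2]
                    · linarith only [e0, g19_0, g1_1, g62_0, h11, h17, h18, h19, h2, h21, h24, h3, s1, s2]
                    · rcases kh32 with ⟨g63_0, g63_1⟩ | ⟨g63_0, g63_1⟩ | ⟨g63_0, g63_1⟩
                      · linarith only [g19_0, g1_1, g40_1, g52_1, g62_0, g63_1, h1, h18, h19, h20, h3, h34, h37, s1]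
                      · linarith only [g21_0, g52_0, g62_0, g63_1, h17]
                      · linarith only [g19_0, g1_1, g62_0, g63_1, h11, h18, h19, h2, h21, h24, h3, s1, s2]
                    · linarith only [g38_1, g41_1, g52_0, g62_0, h17, h18]
                    · linarith only [g19_0, g40_1, g62_0, s3]
            · linarith only [g19_0, g1_1, g38_1, h34, h4, s3]

end Pool.Agent.Helper28.TQ
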