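import Pool.Agent.Helper89.TQ.Ctx

set_option autoImplicit false
set_option linter.all false

namespace Pool.Agent.Helper28.TQ
open Pool.Agent.Helper89.TQ

theorem c0_11_23_33_k2 {n1 n2 n3 A1 A2 A3 B1 B2 B3 m11_1 m11_2 m11_3 m13_1 m13_2 m13_3 m22_1 m22_2 m22_3 m23_1 m23_2 m23_3 m33_1 m33_2 m33_3 : ℤ}
    (C : Ctx0 n1 n2 n3 A1 A2 A3 B1 B2 B3 m11_1 m11_2 m11_3 m13_1 m13_2 m13_3 m22_1 m22_2 m22_3 m23_1 m23_2 m23_3 m33_1 m33_2 m33_3)
    (e0 : 0 < B1)
    (e1 : 0 < A2)
    (e2 : 0 < B3)
    (e3 : 0 < A3)
    (s1 : 2 * A1 + 1 * B1 ≤ m11_1 + m23_1 + m33_1)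
    (s2 : 2 * A2 + 1 * B2 ≤ m11_2 + m23_2 + m33_2)
    (s3 : 2 * A3 + 1 * B3 ≤ m11_3 + m23_3 + m33_3) : False := by
  have h0 := C.a0
  have h1 := C.a1
  have h2 := C.a2
  have h3 := C.a3
  have h4 := C.a4
  have h5 := C.a5
  have h7 := C.b1
  have h8 := C.b2
  have h9 := C.b3
  have h10 := C.b4
  have h11 := C.b5
  have h12 := C.o0
  have h13 := C.o1
  have h14 := C.o2
  have h17 := C.f11_0
  have h18 := C.f11_1
  have h19 := C.f11_2
  have h20 := C.f23_0
  have h21 := C.f23_1
  have h22 := C.f23_2
  have h24 := C.f23_4
  have h25 := C.f23_5
  have h26 := C.f23_6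
  have h28 := C.f23_8
  have h29 := C.f23_9
  have h31 := C.f33_0
  have h32 := C.f33_1
  have h34 := C.f33_3
  have h35 := C.f33_4
  have h37 := C.f33_6
  have h38 := C.f33_7
  have h43 := C.f13_0
  have h46 := C.f13_3
  have h49 := C.f13_6
  have h50 := C.f13_7
  have h52 := C.f22_0
  have h53 := C.f22_1
  have h56 := C.f22_4
  have h58 := C.f22_6
  have kh15 : (-A1 ≤ -1 ∧ -n2 - A1 + A2 ≤ -1) ∨ (-B1 ≤ -1 ∧ -n2 - B1 + B2 ≤ -1) := by
    have q := C.t12
    clear * - q
    omega
  have kh16 : (A1 - A2 ≤ -1 ∧ -n3 - A2 + A3 ≤ -1) ∨ (B1 - B2 ≤ -1 ∧ -n3 - B2 + B3 ≤ -1) := by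
    have q := C.t23
    clear * - q
    omega
  have kh23 : (-n1 + m23_1 ≤ 0 ∧ n1 - m23_1 ≤ 0) ∨ (-A2 + m23_1 ≤ -1 ∧ A2 - m23_1 ≤ 1) ∨ (-B3 + m23_1 ≤ -1 ∧ B3 - m23_1 ≤ 1) := by
    have q := C.f23_3
    clear * - q
    omega
  have kh27 : (-n2 - m23_1 + m23_2 ≤ 0 ∧ n2 + m23_1 - m23_2 ≤ 0) ∨ (-A2 + m23_2 ≤ -1 ∧ A2 - m23_2 ≤ 1) ∨ (-B3 + m23_2 ≤ -1 ∧ B3 - m23_2 ≤ 1) := by
    have q := C.f23_7
    clear * - q
    omega
  have kh30 : (-n3 - m23_2 + m23_3 ≤ 0 ∧ n3 + m23_2 - m23_3 ≤ 0) ∨ (-B3 + m23_3 ≤ -1 ∧ B3 - m23_3 ≤ 1) := by
    have q := C.f23_10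
    clear * - q
    omega
  have kh33 : (-n1 + m33_1 ≤ 0 ∧ n1 - m33_1 ≤ 0) ∨ (-A3 + m33_1 ≤ -1 ∧ A3 - m33_1 ≤ 1) := by
    have q := C.f33_2
    clear * - q
    omega
  have kh36 : (-n2 - m33_1 + m33_2 ≤ 0 ∧ n2 + m33_1 - m33_2 ≤ 0) ∨ (-A3 + m33_2 ≤ -1 ∧ A3 - m33_2 ≤ 1) := by
    have q := C.f33_5
    clear * - q
    omega
  have kh39 : (-n3 - m33_2 + m33_3 ≤ 0 ∧ n3 + m33_2 - m33_3 ≤ 0) ∨ (-A3 + m33_3 ≤ -1 ∧ A3 - m33_3 ≤ 1) := by
    have q := C.f33_8
    clear * - q
    omega
  have kh40 : (B1 ≤ 0) ∨ (A2 ≤ 0) ∨ (B3 ≤ 0) ∨ (-2 * B1 + m11_1 + m23_1 ≤ -1) ∨ (-2 * B2 + m11_2 + m23_2 ≤ -1) ∨ (-2 * B3 + m11_3 + m23_3 ≤ -1) := by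
    have q := C.p11_23B
    clear * - q
    omega
  have kh41 : (A2 ≤ 0) ∨ (B3 ≤ 0) ∨ (A3 ≤ 0) ∨ (-2 * A1 + m23_1 + m33_1 ≤ -1) ∨ (-2 * A2 + m23_2 + m33_2 ≤ -1) ∨ (-2 * A3 + m23_3 + m33_3 ≤ -1) := by
    have q := C.p23_33A
    clear * - q
    omega
  have kh45 : (-A1 + m13_1 ≤ -1 ∧ A1 - m13_1 ≤ 1) ∨ (-B3 + m13_1 ≤ -1 ∧ B3 - m13_1 ≤ 1) := by
    have q := C.f13_2
    clear * - q
    omega
  have kh48 : (-n2 - m13_1 + m13_2 ≤ 0 ∧ n2 + m13_1 - m13_2 ≤ 0) ∨ (-B3 + m13_2 ≤ -1 ∧ B3 - m13_2 ≤ 1) := by
    have q := C.f13_5
    clear * - q
    omega
  have kh51 : (-n3 - m13_2 + m13_3 ≤ 0 ∧ n3 + m13_2 - m13_3 ≤ 0) ∨ (-B3 + m13_3 ≤ -1 ∧ B3 - m13_3 ≤ 1) := by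
    have q := C.f13_8
    clear * - q
    omega
  have kh54 : (-n1 + m22_1 ≤ 0 ∧ n1 - m22_1 ≤ 0) ∨ (-B2 + m22_1 ≤ -1 ∧ B2 - m22_1 ≤ 1) := by
    have q := C.f22_2
    clear * - q
    omega
  have kh57 : (-n2 - m22_1 + m22_2 ≤ 0 ∧ n2 + m22_1 - m22_2 ≤ 0) ∨ (-B2 + m22_2 ≤ -1 ∧ B2 - m22_2 ≤ 1) := by
    have q := C.f22_5
    clear * - q
    omega
  have kh60 : (B1 ≤ 0) ∨ (A1 ≤ 0) ∨ (B3 ≤ 0) ∨ (-2 * B1 + m11_1 + m13_1 ≤ -1) ∨ (-2 * B2 + m11_2 + m13_2 ≤ -1) ∨ (-2 * B3 + m11_3 + m13_3 ≤ -1) := by
    have q := C.p11_13B
    clear * - q
    omega
  have kh64 : (B1 ≤ 0) ∨ (A3 ≤ 0) ∨ (-2 * A1 + m11_1 + m33_1 ≤ -1) ∨ (-2 * A2 + m11_2 + m33_2 ≤ -1) ∨ (-2 * A3 + m11_3 + m33_3 ≤ -1) := by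
    have q := C.p11_33A
    clear * - q
    omega
  have kh65 : (B1 ≤ 0) ∨ (A3 ≤ 0) ∨ (-2 * B1 + m11_1 + m33_1 ≤ -1) ∨ (-2 * B2 + m11_2 + m33_2 ≤ -1) ∨ (-2 * B3 + m11_3 + m33_3 ≤ -1) := by
    have q := C.p11_33B
    clear * - q
    omega
  have kh68 : (A1 ≤ 0) ∨ (B3 ≤ 0) ∨ (A2 ≤ 0) ∨ (-2 * A1 + m13_1 + m23_1 ≤ -1) ∨ (-2 * A2 + m13_2 + m23_2 ≤ -1) ∨ (-2 * A3 + m13_3 + m23_3 ≤ -1) := by
    have q := C.p13_23A
    clear * - q
    omega
  have kh70 : (A1 ≤ 0) ∨ (B3 ≤ 0) ∨ (A3 ≤ 0) ∨ (-2 * A1 + m13_1 + m33_1 ≤ -1) ∨ (-2 * A2 + m13_2 + m33_2 ≤ -1) ∨ (-2 * A3 + m13_3 + m33_3 ≤ -1) := by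
    have q := C.p13_33A
    clear * - q
    omega
  have kh74 : (B2 ≤ 0) ∨ (A3 ≤ 0) ∨ (-2 * A1 + m22_1 + m33_1 ≤ -1) ∨ (-2 * A2 + m22_2 + m33_2 ≤ -1) ∨ (-2 * A3 + m22_3 + m33_3 ≤ -1) := by
    have q := C.p22_33A
    clear * - q
    omega
  have kh78 : (n1 - A1 ≤ 0) ∨ (-A1 + A2 ≤ 1) ∨ (B1 ≤ 0) ∨ (n2 + B1 - B2 ≤ 1) := by
    have q := C.tmpp
    clear * - q
    omega
  clear C
  rcases kh45 with ⟨g1_0, g1_1⟩ | ⟨g1_0, g1_1⟩
  · rcases kh48 with ⟨g2_0, g2_1⟩ | ⟨g2_0, g2_1⟩
    · rcases kh51 with ⟨g3_0, g3_1⟩ | ⟨g3_0, g3_1⟩
      · linarith only [g1_1, g2_1, g3_1, h11, h12, h50, h9]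
      · rcases kh33 with ⟨g4_0, g4_1⟩ | ⟨g4_0, g4_1⟩
        · rcases kh65 with g5_0 | g5_0 | g5_0 | g5_0 | g5_0
          · linarith only [e0, g5_0]
          · linarith only [e0, g4_1, g5_0, h32, h7]
          · linarith only [g4_1, g5_0, h12, h17, h20, s1]
          · linarith only [g5_0, h13, h25, s2]
          · rcases kh39 with ⟨g6_0, g6_1⟩ | ⟨g6_0, g6_1⟩
            · linarith only [g5_0, g6_1, h11, h13, h19, h25, s2]
            · rcases kh54 with ⟨g7_0, g7_1⟩ | ⟨g7_0, g7_1⟩
              · rcases kh57 with ⟨g8_0, g8_1⟩ | ⟨g8_0, g8_1⟩
                · linarith only [g7_1, g8_1, h12, h13, h17, h18, h20, h25, h31, h34, h56, s1, s2]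
                · rcases kh78 with g9_0 | g9_0 | g9_0 | g9_0
                  · linarith only [g9_0, h17, h20, h31, s1]
                  · linarith only [g7_1, g9_0, h13, h17, h21, h31, h53, s1]
                  · linarith only [e0, g9_0]
                  · rcases kh74 with g10_0 | g10_0 | g10_0 | g10_0 | g10_0
                    · linarith only [e0, e1, g10_0, g7_1, g9_0, h17, h21, h3, h31, h53, s1]
                    · linarith only [e0, g10_0, g7_1, h13, h4, h53, h7]
                    · linarith only [g10_0, g7_1, h17, h20, s1]
                    · rcases kh30 with ⟨g11_0, g11_1⟩ | ⟨g11_0, g11_1⟩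
                      · linarith only [g10_0, g11_1, g8_1, g9_0, h11, h17, h18, h29, s2]
                      · rcases kh23 with ⟨g12_0, g12_1⟩ | ⟨g12_0, g12_1⟩ | ⟨g12_0, g12_1⟩
                        · rcases kh40 with g13_0 | g13_0 | g13_0 | g13_0 | g13_0 | g13_0
                          · linarith only [e0, g13_0]
                          · linarith only [e0, g12_1, g13_0, h12, h17, h21, h31, s1]
                          · linarith only [e0, g13_0, g4_1, g5_0, g6_1, h17, h18, h19, h20, h24, h28, h32, h7, s3]
                          · linarith only [g10_0, g12_1, g13_0, g8_1, g9_0, h12, h18, h25, h3, h31, s1, s2]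
                          · linarith only [g10_0, g13_0, g8_1, s2]
                          · rcases kh41 with g14_0 | g14_0 | g14_0 | g14_0 | g14_0 | g14_0
                            · linarith only [e0, g11_1, g13_0, g14_0, g7_1, h12, h13, h18, h19, h21, h24, h28, h31, h53, s1]
                            · linarith only [e0, g10_0, g13_0, g14_0, g4_1, g5_0, g8_1, h12, h18, h19, h22, h3, h32, h35, h37, h7, h8, s1, s3]
                            · linarith only [e0, g14_0, g4_1, h32, h7]
                            · linarith only [g11_1, g13_0, g14_0, h11, h18, h19, h9, s1]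
                            · linarith only [g11_1, g13_0, g14_0, h11, h19, s2]
                            · linarith only [g11_1, g13_0, g14_0, s3]
                        · linarith only [g10_0, g12_1, g7_1, g8_1, g9_0, h17, h18, h20, h25, h53, s2]
                        · linarith only [g10_0, g12_1, g4_1, g5_0, g6_1, g7_1, g8_1, h11, h19, h20, h26, h32, h53, s2]
                    · linarith only [g10_0, g8_1, g9_0, h17, h18, h19, h29, h58, s3]
              · rcases kh78 with g15_0 | g15_0 | g15_0 | g15_0
                · linarith only [g15_0, h17, h20, h31, s1]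
                · rcases kh23 with ⟨g16_0, g16_1⟩ | ⟨g16_0, g16_1⟩ | ⟨g16_0, g16_1⟩
                  · linarith only [g15_0, g16_1, h17, h21, h31, s1]
                  · rcases kh70 with g17_0 | g17_0 | g17_0 | g17_0 | g17_0 | g17_0
                    · linarith only [e0, g17_0, h12]
                    · linarith only [e0, g17_0, g4_1, g5_0, g6_1, h17, h18, h19, h22, h24, h28, h32, h7, s3]
                    · linarith only [e0, g17_0, g4_1, h32, h7]
                    · linarith only [g17_0, g1_1, g4_1, h17, h20, s1]
                    · linarith only [g15_0, g17_0, g1_1, g2_1, h17, h18, h25, h8, s2]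
                    · rcases kh40 with g18_0 | g18_0 | g18_0 | g18_0 | g18_0 | g18_0
                      · linarith only [e0, g18_0]
                      · linarith only [e0, g18_0, h12, h2]
                      · linarith only [e0, g18_0, g4_1, g5_0, g6_1, h17, h18, h19, h22, h24, h28, h32, h7, s3]
                      · rcases kh64 with g19_0 | g19_0 | g19_0 | g19_0 | g19_0
                        · linarith only [e0, g19_0]
                        · linarith only [g18_0, g19_0, h0, h12, h32, s1]
                        · linarith only [g18_0, g19_0, h17, s1]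
                        · linarith only [g16_1, g18_0, g19_0, h17, h25, h8, s2]
                        · linarith only [g19_0, h29, s3]
                      · rcases kh64 with g20_0 | g20_0 | g20_0 | g20_0 | g20_0
                        · linarith only [e0, g20_0]
                        · linarith only [e0, g17_0, g18_0, g20_0, g3_1, g5_0, g6_1, h13, h17, h18, h19, h21, h28, h3, h32, h4, s1, s3]
                        · rcases kh57 with ⟨g21_0, g21_1⟩ | ⟨g21_0, g21_1⟩
                          · linarith only [g18_0, g20_0, g21_1, g7_1, h17, h2, h34, h56, h9, s2]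
                          · rcases kh27 with ⟨g22_0, g22_1⟩ | ⟨g22_0, g22_1⟩ | ⟨g22_0, g22_1⟩
                            · linarith only [g18_0, g20_0, g22_1, h17, h18, h9, s1]
                            · rcases kh74 with g23_0 | g23_0 | g23_0 | g23_0 | g23_0
                              · linarith only [e0, g18_0, g20_0, g22_1, g23_0, g4_1, h17, h18, h2, h20, h3, s1]
                              · linarith only [e0, g20_0, g23_0, g4_1, h17, h2, h20, h4, s1]
                              · linarith only [g18_0, g22_1, g23_0, g7_1, h18, h21, h9, s1]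
                              · linarith only [g18_0, g21_1, g23_0, s2]
                              · linarith only [g18_0, g21_1, g22_1, g23_0, h13, h19, h29, h58, s3]
                            · linarith only [g18_0, g22_1, g4_1, g5_0, g6_1, g7_1, h19, h25, h28, h32, h35, h52, s2, s3]
                        · linarith only [g18_0, g20_0, h17, h18, h9, s2]
                        · linarith only [g20_0, h29, s3]
                      · linarith only [g17_0, g18_0, g3_1, s3]
                  · linarith only [g16_1, g5_0, g6_1, h11, h19, h21, h25, h35, s2]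
                · linarith only [e0, g15_0]
                · rcases kh70 with g24_0 | g24_0 | g24_0 | g24_0 | g24_0 | g24_0
                  · linarith only [e0, g24_0, h12]
                  · linarith only [e0, g24_0, g4_1, g5_0, g6_1, h17, h18, h19, h22, h24, h28, h32, h7, s3]
                  · linarith only [e0, g15_0, g24_0, h13, h17, h21, h3, h32, h4, s1]
                  · linarith only [g1_1, g24_0, g4_1, h17, h20, s1]
                  · linarith only [g15_0, g1_1, g24_0, g2_1, h17, h18, h25, h3, s2]
                  · rcases kh57 with ⟨g25_0, g25_1⟩ | ⟨g25_0, g25_1⟩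
                    · rcases kh15 with ⟨g26_0, g26_1⟩ | ⟨g26_0, g26_1⟩
                      · linarith only [g25_1, g26_1, g7_1, h2, h56]
                      · linarith only [g25_1, g26_1, g7_1, h56, h8]
                    · rcases kh74 with g27_0 | g27_0 | g27_0 | g27_0 | g27_0
                      · linarith only [e0, g27_0, h8]
                      · linarith only [e0, g24_0, g27_0, g3_1, g5_0, g6_1, h12, h18, h19, h21, h3, h32, h4, h5, s1]
                      · rcases kh40 with g28_0 | g28_0 | g28_0 | g28_0 | g28_0 | g28_0
                        · linarith only [e0, g28_0]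
                        · linarith only [e0, g28_0, h12, h2]
                        · linarith only [e0, g28_0, g5_0, h12, h2, h29, h4, s3]
                        · linarith only [g27_0, g28_0, g7_1, h8, s1]
                        · rcases kh27 with ⟨g29_0, g29_1⟩ | ⟨g29_0, g29_1⟩ | ⟨g29_0, g29_1⟩
                          · linarith only [g27_0, g28_0, g29_1, g7_1, h18, h2, h3, h9, s1]
                          · linarith only [g27_0, g28_0, g29_1, g7_1, h18, h21, h9, s1]
                          · linarith only [g27_0, g28_0, g29_1, g4_1, g5_0, g7_1, h18, h20, h29, h32, h9, s1, s3]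
                        · linarith only [g24_0, g28_0, g3_1, s3]
                      · rcases kh40 with g30_0 | g30_0 | g30_0 | g30_0 | g30_0 | g30_0
                        · linarith only [e0, g30_0]
                        · linarith only [e0, g30_0, h12, h2]
                        · linarith only [e0, g25_1, g27_0, g30_0, g4_1, g5_0, g6_1, h12, h17, h18, h19, h20, h3, h32, h35, h37, h8, s1]
                        · rcases kh23 with ⟨g31_0, g31_1⟩ | ⟨g31_0, g31_1⟩ | ⟨g31_0, g31_1⟩
                          · linarith only [g30_0, g31_1, h12, h17, h31, s1]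
                          · rcases kh16 with ⟨g32_0, g32_1⟩ | ⟨g32_0, g32_1⟩
                            · linarith only [g30_0, g31_1, g32_0, h12, h17]
                            · linarith only [g24_0, g25_1, g27_0, g30_0, g31_1, g32_0, g32_1, g3_1, g5_0, g6_1, h17, h19, h25, s2]
                          · linarith only [g30_0, g31_1, g5_0, g6_1, h12, h17, h18, h19, h3, h32, h5, s1]
                        · linarith only [g25_1, g27_0, g30_0, s2]
                        · linarith only [g24_0, g30_0, g3_1, s3]
                      · linarith only [g15_0, g25_1, g27_0, h17, h18, h19, h29, h58, s3]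
        · rcases kh65 with g33_0 | g33_0 | g33_0 | g33_0 | g33_0
          · linarith only [e0, g33_0]
          · linarith only [e0, g33_0, h13, h4, h8]
          · linarith only [g33_0, g4_1, h12, h17, h21, h4, s1]
          · linarith only [g33_0, h13, h25, s2]
          · rcases kh39 with ⟨g34_0, g34_1⟩ | ⟨g34_0, g34_1⟩
            · linarith only [g33_0, g34_1, h11, h13, h19, h25, s2]
            · rcases kh16 with ⟨g35_0, g35_1⟩ | ⟨g35_0, g35_1⟩
              · rcases kh78 with g36_0 | g36_0 | g36_0 | g36_0
                · linarith only [g36_0, h17, h20, h31, s1]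
                · rcases kh54 with ⟨g37_0, g37_1⟩ | ⟨g37_0, g37_1⟩
                  · linarith only [g36_0, g37_1, h13, h17, h21, h31, h53, s1]
                  · rcases kh57 with ⟨g38_0, g38_1⟩ | ⟨g38_0, g38_1⟩
                    · linarith only [g35_0, g37_1, g38_1, h3, h56]
                    · rcases kh23 with ⟨g39_0, g39_1⟩ | ⟨g39_0, g39_1⟩ | ⟨g39_0, g39_1⟩
                      · linarith only [g36_0, g39_1, h17, h21, h31, s1]
                      · rcases kh27 with ⟨g40_0, g40_1⟩ | ⟨g40_0, g40_1⟩ | ⟨g40_0, g40_1⟩
                        · linarith only [g35_0, g39_1, g40_1, h25, h3]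
                        · rcases kh70 with g41_0 | g41_0 | g41_0 | g41_0 | g41_0 | g41_0
                          · linarith only [e0, g41_0, h12]
                          · linarith only [e0, g33_0, g34_1, g41_0, h12, h17, h18, h19, h2, h22, h24, h28, h4, s3]
                          · linarith only [e0, g41_0, h13, h4, h8]
                          · linarith only [g1_1, g41_0, g4_1, h17, h21, h4, s1]
                          · linarith only [g1_1, g2_1, g36_0, g41_0, h17, h18, h25, h8, s2]
                          · rcases kh40 with g42_0 | g42_0 | g42_0 | g42_0 | g42_0 | g42_0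
                            · linarith only [e0, g42_0]
                            · linarith only [e0, g42_0, h12, h2]
                            · linarith only [e0, g33_0, g34_1, g42_0, h12, h17, h18, h19, h2, h22, h24, h28, h4, s3]
                            · linarith only [g35_0, g39_1, g42_0, h12, h17]
                            · rcases kh74 with g43_0 | g43_0 | g43_0 | g43_0 | g43_0
                              · linarith only [e0, g40_1, g42_0, g43_0, h12, h17, h18, h2, h3]
                              · linarith only [e0, g40_1, g42_0, g43_0, h13, h17, h18, h21, h3, h32, h4, s1]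
                              · linarith only [g37_1, g40_1, g42_0, g43_0, h18, h21, h9, s1]
                              · linarith only [g38_1, g42_0, g43_0, s2]
                              · linarith only [g38_1, g40_1, g42_0, g43_0, h13, h19, h29, h58, s3]
                            · linarith only [g3_1, g41_0, g42_0, s3]
                        · linarith only [g33_0, g34_1, g40_1, h11, h19, h25, h35, s2]
                      · linarith only [g33_0, g34_1, g39_1, h11, h19, h21, h25, h35, s2]
                · linarith only [e0, g36_0]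
                · rcases kh54 with ⟨g44_0, g44_1⟩ | ⟨g44_0, g44_1⟩
                  · linarith only [g36_0, g44_1, g4_1, h13, h17, h18, h25, h31, h35, h53, s2]
                  · rcases kh57 with ⟨g45_0, g45_1⟩ | ⟨g45_0, g45_1⟩
                    · linarith only [g35_0, g44_1, g45_1, h3, h56]
                    · rcases kh23 with ⟨g46_0, g46_1⟩ | ⟨g46_0, g46_1⟩ | ⟨g46_0, g46_1⟩
                      · linarith only [g36_0, g46_1, g4_1, h17, h18, h21, h25, h31, h35, s2]
                      · rcases kh27 with ⟨g47_0, g47_1⟩ | ⟨g47_0, g47_1⟩ | ⟨g47_0, g47_1⟩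
                        · linarith only [g35_0, g46_1, g47_1, h25, h3]
                        · rcases kh41 with g48_0 | g48_0 | g48_0 | g48_0 | g48_0 | g48_0
                          · linarith only [e0, g48_0, h12, h2]
                          · linarith only [e0, g33_0, g34_1, g48_0, h12, h17, h18, h19, h2, h22, h24, h28, h4, s3]
                          · linarith only [e0, g36_0, g48_0, h13, h17, h21, h3, h32, h4, s1]
                          · linarith only [g48_0, h17, s1]
                          · linarith only [g36_0, g48_0, h17, h18, s2]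
                          · rcases kh30 with ⟨g49_0, g49_1⟩ | ⟨g49_0, g49_1⟩
                            · linarith only [g33_0, g34_1, g36_0, g47_1, g48_0, g49_1, h13, h17, h18, h19, s3]
                            · rcases kh40 with g50_0 | g50_0 | g50_0 | g50_0 | g50_0 | g50_0
                              · linarith only [e0, g50_0]
                              · linarith only [e0, g50_0, h12, h2]
                              · linarith only [e0, g33_0, g34_1, g50_0, h12, h17, h18, h19, h2, h22, h24, h28, h4, s3]
                              · linarith only [g35_0, g46_1, g50_0, h12, h17]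
                              · rcases kh74 with g51_0 | g51_0 | g51_0 | g51_0 | g51_0
                                · linarith only [e0, g47_1, g50_0, g51_0, h12, h17, h18, h2, h3]
                                · linarith only [e0, g33_0, g34_1, g48_0, g49_1, g50_0, g51_0, h13, h17, h18, h19, h21, h28, h3, h32, h4, s1]
                                · linarith only [g44_1, g4_1, g50_0, g51_0, h2, h35, s2]
                                · linarith only [g45_1, g50_0, g51_0, s2]
                                · linarith only [g33_0, g34_1, g45_1, g50_0, g51_0, h19, h28, h29, h58, s3]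
                              · linarith only [g48_0, g49_1, g50_0, s3]
                        · linarith only [g33_0, g34_1, g47_1, h11, h19, h25, h35, s2]
                      · linarith only [g33_0, g34_1, g46_1, h11, h19, h21, h25, h35, s2]
              · rcases kh36 with ⟨g52_0, g52_1⟩ | ⟨g52_0, g52_1⟩
                · linarith only [g35_0, g4_1, g52_1, h35, h9]
                · rcases kh78 with g53_0 | g53_0 | g53_0 | g53_0
                  · linarith only [g53_0, h17, h20, h31, s1]
                  · rcases kh23 with ⟨g54_0, g54_1⟩ | ⟨g54_0, g54_1⟩ | ⟨g54_0, g54_1⟩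
                    · linarith only [g53_0, g54_1, h17, h21, h31, s1]
                    · rcases kh70 with g55_0 | g55_0 | g55_0 | g55_0 | g55_0 | g55_0
                      · linarith only [e0, g55_0, h12]
                      · linarith only [e0, g33_0, g34_1, g55_0, h12, h17, h18, h19, h2, h22, h24, h28, h4, s3]
                      · linarith only [e0, g55_0, h13, h4, h8]
                      · linarith only [g1_1, g4_1, g55_0, h17, h21, h4, s1]
                      · linarith only [g1_1, g2_1, g35_0, g53_0, g55_0, h17, h18, h25, s2]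
                      · rcases kh64 with g56_0 | g56_0 | g56_0 | g56_0 | g56_0
                        · linarith only [e0, g56_0]
                        · linarith only [e0, g33_0, g34_1, g3_1, g55_0, g56_0, h12, h18, h19, h21, h3, h32, h4, h5, s1]
                        · rcases kh60 with g57_0 | g57_0 | g57_0 | g57_0 | g57_0 | g57_0
                          · linarith only [e0, g57_0]
                          · linarith only [e0, g33_0, g34_1, g3_1, g4_1, g55_0, g56_0, g57_0, h17, h18, h19, h21, h3, h35, h37, s1]
                          · linarith only [e0, g33_0, g34_1, g56_0, g57_0, h17, h18, h19, h21, h24, h28, h4, s1, s3]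
                          · linarith only [g1_1, g33_0, g34_1, g35_1, g3_1, g4_1, g55_0, g56_0, g57_0, h17, h19, h21, h25, h35, s1, s2]
                          · linarith only [g1_1, g2_1, g4_1, g56_0, g57_0, h17, h18, h21, h25, h35, h9, s1, s2]
                          · linarith only [g3_1, g55_0, g57_0, h29, s3]
                        · rcases kh40 with g58_0 | g58_0 | g58_0 | g58_0 | g58_0 | g58_0
                          · linarith only [e0, g58_0]
                          · linarith only [e0, g52_1, g56_0, g58_0, h12, h18, h21, h3, h32, s1]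
                          · linarith only [e0, g33_0, g34_1, g58_0, h10, h11, h12, h18, h19, h21, h3, h32, s1]
                          · linarith only [g35_0, g54_1, g56_0, g58_0, h17, h25, s2]
                          · linarith only [g56_0, g58_0, h17, h18, h9, s2]
                          · linarith only [g3_1, g55_0, g58_0, s3]
                        · linarith only [g56_0, h29, s3]
                    · linarith only [g33_0, g34_1, g54_1, h11, h19, h21, h25, h35, s2]
                  · linarith only [e0, g53_0]
                  · rcases kh23 with ⟨g59_0, g59_1⟩ | ⟨g59_0, g59_1⟩ | ⟨g59_0, g59_1⟩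
                    · linarith only [g4_1, g53_0, g59_1, h17, h18, h21, h25, h31, h35, s2]
                    · rcases kh27 with ⟨g60_0, g60_1⟩ | ⟨g60_0, g60_1⟩ | ⟨g60_0, g60_1⟩
                      · linarith only [g35_0, g59_1, g60_1, h25, h9]
                      · rcases kh30 with ⟨g61_0, g61_1⟩ | ⟨g61_0, g61_1⟩
                        · linarith only [g35_1, g60_1, g61_1, h13, h29]
                        · rcases kh41 with g62_0 | g62_0 | g62_0 | g62_0 | g62_0 | g62_0
                          · linarith only [e0, g62_0, h12, h2]
                          · linarith only [e0, g33_0, g34_1, g62_0, h12, h17, h18, h19, h2, h22, h24, h28, h4, s3]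
                          · linarith only [e0, g53_0, g62_0, h13, h17, h21, h3, h32, h4, s1]
                          · linarith only [g62_0, h17, s1]
                          · linarith only [g53_0, g62_0, h17, h18, s2]
                          · rcases kh64 with g63_0 | g63_0 | g63_0 | g63_0 | g63_0
                            · linarith only [e0, g63_0]
                            · linarith only [e0, g33_0, g34_1, g61_1, g62_0, g63_0, h12, h18, h19, h21, h3, h32, h4, h5, s1]
                            · rcases kh60 with g64_0 | g64_0 | g64_0 | g64_0 | g64_0 | g64_0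
                              · linarith only [e0, g64_0]
                              · linarith only [e0, g33_0, g34_1, g4_1, g61_1, g62_0, g63_0, g64_0, h17, h18, h19, h21, h3, h35, h37, s1]
                              · linarith only [e0, g33_0, g34_1, g63_0, g64_0, h17, h18, h19, h21, h24, h28, h4, s1, s3]
                              · linarith only [g1_1, g33_0, g34_1, g35_1, g4_1, g61_1, g62_0, g63_0, g64_0, h17, h19, h21, h25, h35, s1, s2]
                              · linarith only [g1_1, g2_1, g4_1, g63_0, g64_0, h17, h18, h21, h25, h35, h9, s1, s2]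
                              · linarith only [g3_1, g62_0, g64_0, s3]
                            · rcases kh40 with g65_0 | g65_0 | g65_0 | g65_0 | g65_0 | g65_0
                              · linarith only [e0, g65_0]
                              · linarith only [e0, g52_1, g63_0, g65_0, h12, h18, h21, h3, h32, s1]
                              · linarith only [e0, g33_0, g34_1, g65_0, h12, h18, h19, h21, h3, h32, h35, h37, s1]
                              · linarith only [g35_0, g59_1, g63_0, g65_0, h17, h25, s2]
                              · linarith only [g63_0, g65_0, h17, h18, h9, s2]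
                              · linarith only [g61_1, g62_0, g65_0, s3]
                            · linarith only [g63_0, h29, s3]
                      · linarith only [g33_0, g34_1, g60_1, h11, h19, h25, h35, s2]
                    · linarith only [g33_0, g34_1, g59_1, h11, h19, h21, h25, h35, s2]
    · rcases kh51 with ⟨g66_0, g66_1⟩ | ⟨g66_0, g66_1⟩
      · linarith only [g2_1, g66_1, h11, h13, h14, h4, h50]
      · rcases kh33 with ⟨g67_0, g67_1⟩ | ⟨g67_0, g67_1⟩
        · rcases kh36 with ⟨g68_0, g68_1⟩ | ⟨g68_0, g68_1⟩
          · linarith only [g2_1, g67_1, g68_1, h1, h14, h35, h43, h46]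
          · rcases kh39 with ⟨g69_0, g69_1⟩ | ⟨g69_0, g69_1⟩
            · linarith only [g68_1, g69_1, h11, h13, h14, h38, h4]
            · rcases kh65 with g70_0 | g70_0 | g70_0 | g70_0 | g70_0
              · linarith only [e0, g70_0]
              · linarith only [e0, g67_1, g70_0, h32, h7]
              · linarith only [g67_1, g70_0, h12, h17, h20, s1]
              · linarith only [g70_0, h13, h25, s2]
              · rcases kh68 with g71_0 | g71_0 | g71_0 | g71_0 | g71_0 | g71_0
                · linarith only [e0, g71_0, h12]
                · linarith only [e0, g67_1, g69_1, g70_0, g71_0, h17, h18, h19, h22, h24, h28, h32, h7, s3]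
                · linarith only [e0, g2_1, g67_1, g69_1, g70_0, g71_0, h11, h13, h17, h18, h19, h2, h32, h43, h46, h7]
                · rcases kh23 with ⟨g72_0, g72_1⟩ | ⟨g72_0, g72_1⟩ | ⟨g72_0, g72_1⟩
                  · linarith only [g1_1, g71_0, g72_1, h17, h31, s1]
                  · rcases kh54 with ⟨g73_0, g73_1⟩ | ⟨g73_0, g73_1⟩
                    · linarith only [g1_1, g71_0, g72_1, g73_1, h13, h17, h31, h53, s1]
                    · rcases kh27 with ⟨g74_0, g74_1⟩ | ⟨g74_0, g74_1⟩ | ⟨g74_0, g74_1⟩
                      · linarith only [g2_1, g69_1, g70_0, g71_0, g72_1, g74_1, h11, h19, h2, h25, h35, h46, s2]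
                      · rcases kh70 with g75_0 | g75_0 | g75_0 | g75_0 | g75_0 | g75_0
                        · linarith only [e0, g2_1, g67_1, g69_1, g70_0, g71_0, g72_1, g73_1, g75_0, h11, h13, h17, h18, h19, h32, h46, h52, s1]
                        · linarith only [e0, g66_1, g67_1, g69_1, g70_0, g71_0, g75_0, h17, h18, h19, h2, h24, h28, h32, h4, h46, h49, h7, s3]
                        · linarith only [e0, g2_1, g69_1, g70_0, g71_0, g75_0, h11, h13, h18, h19, h32, h4, h46, s1]
                        · linarith only [g1_1, g71_0, g75_0, h17, s1]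
                        · linarith only [g2_1, g67_1, g69_1, g70_0, g72_1, g75_0, h11, h19, h20, h25, h32, s2]
                        · rcases kh40 with g76_0 | g76_0 | g76_0 | g76_0 | g76_0 | g76_0
                          · linarith only [e0, g76_0]
                          · linarith only [e0, g2_1, g69_1, g70_0, g71_0, g76_0, h11, h13, h18, h19, h32, h46, s1]
                          · linarith only [e0, g66_1, g67_1, g69_1, g70_0, g71_0, g76_0, h17, h18, h19, h2, h24, h28, h32, h4, h46, h49, h7, s3]
                          · linarith only [g2_1, g69_1, g70_0, g72_1, g76_0, h11, h12, h13, h17, h18, h19, h32, h43, h46, s1]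
                          · rcases kh60 with g77_0 | g77_0 | g77_0 | g77_0 | g77_0 | g77_0
                            · linarith only [e0, g77_0]
                            · linarith only [e0, g2_1, g67_1, g69_1, g70_0, g71_0, g72_1, g73_1, g74_1, g76_0, g77_0, h13, h17, h18, h19, h28, h32, h46, h52, s1, s3]
                            · linarith only [e0, g67_1, g69_1, g70_0, g77_0, h17, h18, h19, h22, h24, h28, h32, h7, s3]
                            · linarith only [g2_1, g69_1, g70_0, g74_1, g76_0, g77_0, h13, h17, h18, h19, h28, h35, h46, s2, s3]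
                            · linarith only [g2_1, g69_1, g70_0, g77_0, h13, h17, h18, h19, h25, h28, h35, h9, s2, s3]
                            · linarith only [g66_1, g75_0, g77_0, h29, s3]
                          · linarith only [g66_1, g75_0, g76_0, s3]
                      · linarith only [g69_1, g70_0, g74_1, h11, h19, h25, h35, s2]
                  · linarith only [g1_1, g70_0, g71_0, g72_1, h17, h29, h32, s1, s3]
                · linarith only [g2_1, g69_1, g70_0, g71_0, h11, h19, h35, s2]
                · linarith only [g66_1, g70_0, g71_0, s3]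
        · rcases kh36 with ⟨g78_0, g78_1⟩ | ⟨g78_0, g78_1⟩
          · linarith only [g2_1, g67_1, g78_1, h14, h2, h35, h4, h43, h46]
          · rcases kh39 with ⟨g79_0, g79_1⟩ | ⟨g79_0, g79_1⟩
            · linarith only [g78_1, g79_1, h11, h13, h14, h38, h4]
            · rcases kh65 with g80_0 | g80_0 | g80_0 | g80_0 | g80_0
              · linarith only [e0, g80_0]
              · linarith only [e0, g80_0, h13, h4, h8]
              · linarith only [g67_1, g80_0, h12, h17, h21, h4, s1]
              · linarith only [g80_0, h13, h25, s2]
              · rcases kh68 with g81_0 | g81_0 | g81_0 | g81_0 | g81_0 | g81_0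
                · linarith only [e0, g81_0, h12]
                · linarith only [e0, g79_1, g80_0, g81_0, h12, h17, h18, h19, h2, h22, h24, h28, h4, s3]
                · linarith only [e0, e3, g2_1, g79_1, g80_0, g81_0, h11, h13, h17, h18, h19, h2, h43, h46]
                · rcases kh23 with ⟨g82_0, g82_1⟩ | ⟨g82_0, g82_1⟩ | ⟨g82_0, g82_1⟩
                  · linarith only [g1_1, g81_0, g82_1, h17, h31, s1]
                  · rcases kh27 with ⟨g83_0, g83_1⟩ | ⟨g83_0, g83_1⟩ | ⟨g83_0, g83_1⟩
                    · linarith only [g2_1, g79_1, g80_0, g81_0, g82_1, g83_1, h11, h19, h2, h25, h35, h46, s2]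
                    · rcases kh70 with g84_0 | g84_0 | g84_0 | g84_0 | g84_0 | g84_0
                      · linarith only [e0, g84_0, h12]
                      · linarith only [e0, g66_1, g79_1, g80_0, g81_0, g84_0, h13, h17, h18, h19, h2, h24, h28, h4, h46, h49, h8, s3]
                      · linarith only [e0, g2_1, g79_1, g80_0, g81_0, g84_0, h11, h13, h18, h19, h32, h4, h46, s1]
                      · linarith only [g1_1, g81_0, g84_0, h17, s1]
                      · linarith only [g1_1, g2_1, g78_1, g80_0, g81_0, g82_1, g84_0, h17, h29, h32, s1, s3]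
                      · rcases kh40 with g85_0 | g85_0 | g85_0 | g85_0 | g85_0 | g85_0
                        · linarith only [e0, g85_0]
                        · linarith only [e0, g85_0, h12, h2]
                        · linarith only [e0, g66_1, g79_1, g80_0, g81_0, g85_0, h13, h17, h18, h19, h2, h24, h28, h4, h46, h49, h8, s3]
                        · linarith only [g2_1, g79_1, g80_0, g82_1, g85_0, h11, h12, h13, h17, h18, h19, h32, h43, h46, s1]
                        · rcases kh60 with g86_0 | g86_0 | g86_0 | g86_0 | g86_0 | g86_0
                          · linarith only [e0, g86_0]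
                          · linarith only [e0, g86_0, h12]
                          · linarith only [e0, g80_0, g86_0, h13, h29, h4, h8, s3]
                          · linarith only [g2_1, g79_1, g80_0, g83_1, g85_0, g86_0, h13, h17, h18, h19, h28, h35, h46, s2, s3]
                          · linarith only [g2_1, g79_1, g80_0, g86_0, h13, h17, h18, h19, h25, h28, h35, h9, s2, s3]
                          · linarith only [g66_1, g84_0, g86_0, h29, s3]
                        · linarith only [g66_1, g84_0, g85_0, s3]
                    · linarith only [g79_1, g80_0, g83_1, h11, h19, h25, h35, s2]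
                  · linarith only [g1_1, g80_0, g81_0, g82_1, h17, h29, h32, s1, s3]
                · linarith only [g2_1, g79_1, g80_0, g81_0, h11, h19, h35, s2]
                · linarith only [g66_1, g80_0, g81_0, s3]
  · linarith only [g1_1, h14, h2, h4, h43]

end Pool.Agent.Helper28.TQ
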