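import Pool.Agent.Helper89.TQ.Ctx

set_option autoImplicit false
set_option linter.all false

namespace Pool.Agent.Helper28.TQ
open Pool.Agent.Helper89.TQ

theorem c2_11_22_33_k2 {n1 n2 n3 A1 A2 A3 B1 B2 B3 m11_1 m11_2 m11_3 m12_1 m12_2 m12_3 m13_1 m13_2 m13_3 m22_1 m22_2 m22_3 m33_1 m33_2 m33_3 : ℤ}
    (C : Ctx2 n1 n2 n3 A1 A2 A3 B1 B2 B3 m11_1 m11_2 m11_3 m12_1 m12_2 m12_3 m13_1 m13_2 m13_3 m22_1 m22_2 m22_3 m33_1 m33_2 m33_3)
    (e0 : 0 < B1)
    (e1 : 0 < A2)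
    (e2 : 0 < A3)
    (s1 : 2 * A1 + 1 * B1 ≤ m11_1 + m22_1 + m33_1)
    (s2 : 2 * A2 + 1 * B2 ≤ m11_2 + m22_2 + m33_2)
    (s3 : 2 * A3 + 1 * B3 ≤ m11_3 + m22_3 + m33_3) : False := by
  have h2 := C.a2
  have h3 := C.a3
  have h4 := C.a4
  have h5 := C.a5
  have h9 := C.b3
  have h10 := C.b4
  have h11 := C.b5
  have h12 := C.o0
  have h13 := C.o1
  have h14 := C.o2
  have h17 := C.f11_0
  have h18 := C.f11_1
  have h19 := C.f11_2
  have h20 := C.f22_0
  have h21 := C.f22_1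
  have h24 := C.f22_4
  have h26 := C.f22_6
  have h31 := C.f33_4
  have h36 := C.f12_0
  have h40 := C.f12_4
  have h42 := C.f12_6
  have kh25 : (-n2 - m22_1 + m22_2 ≤ 0 ∧ n2 + m22_1 - m22_2 ≤ 0) ∨ (-A2 + m22_2 ≤ -1 ∧ A2 - m22_2 ≤ 1) := by
    have q := C.f22_5
    clear * - q
    omega
  have kh29 : (-n1 + m33_1 ≤ 0 ∧ n1 - m33_1 ≤ 0) ∨ (-A3 + m33_1 ≤ -1 ∧ A3 - m33_1 ≤ 1) := by
    have q := C.f33_2
    clear * - q
    omega
  have kh32 : (-n2 - m33_1 + m33_2 ≤ 0 ∧ n2 + m33_1 - m33_2 ≤ 0) ∨ (-A3 + m33_2 ≤ -1 ∧ A3 - m33_2 ≤ 1) := by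
    have q := C.f33_5
    clear * - q
    omega
  have kh35 : (-n3 - m33_2 + m33_3 ≤ 0 ∧ n3 + m33_2 - m33_3 ≤ 0) ∨ (-A3 + m33_3 ≤ -1 ∧ A3 - m33_3 ≤ 1) := by
    have q := C.f33_8
    clear * - q
    omega
  have kh38 : (-A1 + m12_1 ≤ -1 ∧ A1 - m12_1 ≤ 1) ∨ (-B2 + m12_1 ≤ -1 ∧ B2 - m12_1 ≤ 1) := by
    have q := C.f12_2
    clear * - q
    omega
  have kh41 : (-n2 - m12_1 + m12_2 ≤ 0 ∧ n2 + m12_1 - m12_2 ≤ 0) ∨ (-B2 + m12_2 ≤ -1 ∧ B2 - m12_2 ≤ 1) := by
    have q := C.f12_5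
    clear * - q
    omega
  have kh44 : (B1 ≤ 0) ∨ (A3 ≤ 0) ∨ (-2 * A1 + m11_1 + m33_1 ≤ -1) ∨ (-2 * A2 + m11_2 + m33_2 ≤ -1) ∨ (-2 * A3 + m11_3 + m33_3 ≤ -1) := by
    have q := C.p11_33A
    clear * - q
    omega
  have kh48 : (B1 ≤ 0) ∨ (A2 ≤ 0) ∨ (-2 * B1 + m11_1 + m22_1 ≤ -1) ∨ (-2 * B2 + m11_2 + m22_2 ≤ -1) ∨ (-2 * B3 + m11_3 + m22_3 ≤ -1) := by
    have q := C.p11_22B
    clear * - q
    omega
  have kh49 : (A1 ≤ 0) ∨ (B2 ≤ 0) ∨ (A3 ≤ 0) ∨ (-2 * A1 + m12_1 + m33_1 ≤ -1) ∨ (-2 * A2 + m12_2 + m33_2 ≤ -1) ∨ (-2 * A3 + m12_3 + m33_3 ≤ -1) := by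
    have q := C.p12_33A
    clear * - q
    omega
  clear C
  rcases kh38 with ⟨g1_0, g1_1⟩ | ⟨g1_0, g1_1⟩
  · rcases kh41 with ⟨g2_0, g2_1⟩ | ⟨g2_0, g2_1⟩
    · linarith only [g1_1, g2_1, h12, h40, h9]
    · rcases kh44 with g3_0 | g3_0 | g3_0 | g3_0 | g3_0
      · linarith only [e0, g3_0]
      · linarith only [e0, g3_0, h12, h2, h4]
      · rcases kh25 with ⟨g4_0, g4_1⟩ | ⟨g4_0, g4_1⟩
        · linarith only [g3_0, g4_1, h13, h24, h9, s1]
        · rcases kh29 with ⟨g5_0, g5_1⟩ | ⟨g5_0, g5_1⟩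
          · rcases kh48 with g6_0 | g6_0 | g6_0 | g6_0 | g6_0
            · linarith only [e0, g6_0]
            · linarith only [e0, g3_0, g6_0, h21, s1]
            · linarith only [g3_0, g6_0, h17, s1]
            · rcases kh49 with g7_0 | g7_0 | g7_0 | g7_0 | g7_0 | g7_0
              · linarith only [e0, g3_0, g5_1, g7_0, h17, h20, s1]
              · linarith only [e0, g3_0, g4_1, g5_1, g6_0, g7_0, h17, h18, h2, h20, h3, s1]
              · linarith only [e0, g3_0, g5_1, g7_0, h17, h2, h20, h4, s1]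
              · linarith only [g1_1, g5_1, g7_0, h17, h20, s1]
              · linarith only [g2_1, g6_0, g7_0, s2]
              · rcases kh35 with ⟨g8_0, g8_1⟩ | ⟨g8_0, g8_1⟩
                · linarith only [g2_1, g6_0, g7_0, g8_1, h42, h5, s2]
                · linarith only [g2_1, g6_0, g7_0, g8_1, h14, h19, h26, h42, s3]
            · rcases kh49 with g9_0 | g9_0 | g9_0 | g9_0 | g9_0 | g9_0
              · linarith only [e0, g3_0, g5_1, g9_0, h17, h20, s1]
              · linarith only [e0, g3_0, g4_1, g5_1, g6_0, g9_0, h11, h17, h18, h19, h2, h20, h26, h3, s1]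
              · linarith only [e0, g3_0, g5_1, g9_0, h17, h2, h20, h4, s1]
              · linarith only [g1_1, g5_1, g9_0, h17, h20, s1]
              · linarith only [g2_1, g6_0, g9_0, h11, h19, h26, s2]
              · linarith only [g2_1, g6_0, g9_0, h11, h42, s3]
          · rcases kh32 with ⟨g10_0, g10_1⟩ | ⟨g10_0, g10_1⟩
            · linarith only [g10_1, g3_0, g5_1, h13, h21, h31, h9, s1]
            · rcases kh48 with g11_0 | g11_0 | g11_0 | g11_0 | g11_0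
              · linarith only [e0, g11_0]
              · linarith only [e0, g11_0, g3_0, h21, s1]
              · linarith only [g11_0, g3_0, h17, s1]
              · rcases kh49 with g12_0 | g12_0 | g12_0 | g12_0 | g12_0 | g12_0
                · linarith only [e0, e2, g12_0, g3_0, g5_1, h17]
                · linarith only [e0, e2, g11_0, g12_0, g3_0, g4_1, g5_1, h17, h18, h2, h3]
                · linarith only [e0, g12_0, g3_0, h21, h4, s1]
                · linarith only [g12_0, g1_1, g5_1, h17, h21, h4, s1]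
                · linarith only [g11_0, g12_0, g2_1, s2]
                · rcases kh35 with ⟨g13_0, g13_1⟩ | ⟨g13_0, g13_1⟩
                  · linarith only [g10_1, g11_0, g12_0, g13_1, g2_1, h10, h14, h19, h26, h42, s3]
                  · linarith only [g11_0, g12_0, g13_1, g2_1, h14, h19, h26, h42, s3]
              · rcases kh49 with g14_0 | g14_0 | g14_0 | g14_0 | g14_0 | g14_0
                · linarith only [e0, e2, g14_0, g3_0, g5_1, h17]
                · linarith only [e0, e2, g11_0, g14_0, g3_0, g4_1, g5_1, h11, h17, h18, h19, h2, h26, h3]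
                · linarith only [e0, g14_0, g3_0, h21, h4, s1]
                · linarith only [g14_0, g1_1, g5_1, h17, h21, h4, s1]
                · linarith only [g11_0, g14_0, g2_1, h11, h19, h26, s2]
                · linarith only [g11_0, g14_0, g2_1, h11, h42, s3]
      · linarith only [g3_0, h13, h24, s2]
      · rcases kh35 with ⟨g15_0, g15_1⟩ | ⟨g15_0, g15_1⟩
        · linarith only [g15_1, g3_0, h11, h14, h19, h24, h26, s2, s3]
        · linarith only [g15_1, g3_0, h13, h14, h17, h18, h19, h24, h26, h9, s3]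
  · linarith only [g1_1, h13, h2, h36]

end Pool.Agent.Helper28.TQ
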